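import Mathlib

/-!
# Bang's theorem for functions with log-convex bounds on the derivatives
-/

set_option autoImplicit false

namespace Pool.Agent.W5h62.FW

open Set

theorem ratio_mono {M : ℕ → ℝ} (hM : ∀ k, 0 < M k) (hlc : ∀ k, M (k+1)^2 ≤ M k * M (k+2)) :
    Monotone fun k => M (k + 1) / M k := by
  apply monotone_nat_of_le_succ
  intro k
  rw [div_le_div_iff₀ (hM _) (hM _)]
  have := hlc k
  nlinarith

theorem bang {G : ℕ → ℝ → ℝ} {M : ℕ → ℝ} {L : ℝ} (hL : 0 ≤ L) (hM : ∀ k, 0 < M k)
    (hlc : ∀ k, M (k+1)^2 ≤ M k * M (k+2))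
    (hG : ∀ k, ∀ τ ∈ Set.Icc 0 L, HasDerivAt (G k) (G (k+1) τ) τ) (h0 : ∀ k, G k 0 = 0)
    (hb : ∀ k, ∀ τ ∈ Set.Icc 0 L, |G k τ| ≤ M k) {n N : ℕ} (hnN : n ≤ N)
    (hs : Real.exp 1 * L ≤ ∑ k ∈ Finset.Ico n N, M k / M (k+1)) :
    |G 0 L| ≤ M 0 * Real.exp (-(n:ℝ)) := by
  have hr := ratio_mono hM hlc
  have key : ∀ d : ℕ, ∀ j : ℕ, j + d = N → ∀ τ ∈ Set.Icc 0 L,
      Real.exp 1 * τ ≤ ∑ k ∈ Finset.Ico j N, M k / M (k+1) →
      ∀ i : ℕ, |G i τ| ≤ Real.exp ((i : ℝ) - j) * M i := by
    intro d
    induction d with
    | zero =>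
      intro j hj τ hτ h i
      rw [add_zero] at hj
      subst hj
      rw [Finset.Ico_self, Finset.sum_empty] at h
      have h1 : τ = 0 := by
        have := Real.exp_pos 1
        have h2 : τ ≤ 0 := by
          by_contra hc
          push Not at hc
          have := mul_pos this hc
          linarith
        exact le_antisymm h2 hτ.1
      rw [h1, h0, abs_zero]
      have := hM i
      positivity
    | succ d ih =>
      intro j hj τ hτ h i
      have ihj := ih (j + 1) (by omega)
      have hjN : j < N := by omega
      set lam := M (j + 1) / M j with hlam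
      have hlam0 : 0 < lam := div_pos (hM _) (hM _)
      have he : 0 < Real.exp 1 := Real.exp_pos 1
      rw [Finset.sum_eq_sum_Ico_succ_bot hjN] at h
      have hinv : M j / M (j + 1) = 1 / lam := by rw [hlam, one_div_div]
      rw [hinv] at h
      set T := ∑ k ∈ Finset.Ico (j + 1) N, M k / M (k+1) with hT
      have hT0 : 0 ≤ T := Finset.sum_nonneg fun k _ => (div_pos (hM _) (hM _)).le
      set τ' := max 0 (τ - 1 / (Real.exp 1 * lam)) with hτ'
      have hq : 0 < 1 / (Real.exp 1 * lam) := by positivity
      have hτ'0 : 0 ≤ τ' := le_max_left _ _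
      have hτ'τ : τ' ≤ τ := max_le hτ.1 (by linarith)
      have hτ'm : τ' ∈ Set.Icc 0 L := ⟨hτ'0, hτ'τ.trans hτ.2⟩
      have hsum : Real.exp 1 * τ' ≤ T := by
        rcases max_choice 0 (τ - 1 / (Real.exp 1 * lam)) with hc | hc
        · rw [hτ', hc, mul_zero]; exact hT0
        · rw [hτ', hc, mul_sub]
          have : Real.exp 1 * (1 / (Real.exp 1 * lam)) = 1 / lam := by field_simp
          rw [this]
          linarith
      have hat := ihj τ' hτ'm hsum
      -- descending induction
      have desc : ∀ c : ℕ, ∀ i : ℕ, i + c = j + 1 → ∀ s ∈ Set.Icc τ' τ,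
          |G i s| ≤ Real.exp ((i : ℝ) - (j + 1)) * M i * Real.exp (Real.exp 1 * lam * (s - τ')) := by
        intro c
        induction c with
        | zero =>
          intro i hi s hs1
          rw [add_zero] at hi
          have hsm : s ∈ Set.Icc 0 L := ⟨hτ'0.trans hs1.1, hs1.2.trans hτ.2⟩
          refine (hb i s hsm).trans ?_
          have e1 : Real.exp ((i : ℝ) - (j + 1)) = 1 := by
            rw [hi]; push_cast; simp
          rw [e1, one_mul]
          have h1 : 1 ≤ Real.exp (Real.exp 1 * lam * (s - τ')) := by
            apply Real.one_le_exp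
            have : 0 ≤ s - τ' := by linarith [hs1.1]
            positivity
          exact le_mul_of_one_le_right (hM i).le h1
        | succ c ihc =>
          intro i hi
          have hstep := ihc (i + 1) (by omega)
          have hij : i ≤ j := by omega
          have hMi : M (i + 1) ≤ lam * M i := by
            have h1 : M (i + 1) / M i ≤ lam := hr hij
            rwa [div_le_iff₀ (hM i)] at h1
          have hcont : ContinuousOn (G i) (Set.Icc τ' τ) := fun x hx =>
            (hG i x ⟨hτ'0.trans hx.1, hx.2.trans hτ.2⟩).continuousAt.continuousWithinAt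
          have hder : ∀ x ∈ Set.Ico τ' τ, HasDerivWithinAt (G i) (G (i+1) x) (Set.Ici x) x :=
            fun x hx => (hG i x ⟨hτ'0.trans hx.1, hx.2.le.trans hτ.2⟩).hasDerivWithinAt
          have hB : ∀ x : ℝ, HasDerivAt (fun s : ℝ => Real.exp ((i : ℝ) - (j + 1)) * M i *
              Real.exp (Real.exp 1 * lam * (s - τ')))
              (Real.exp ((i : ℝ) - (j + 1)) * M i *
                (Real.exp (Real.exp 1 * lam * (x - τ')) * (Real.exp 1 * lam * 1))) x := by
            intro x
            apply HasDerivAt.const_mul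
            exact (((hasDerivAt_id x).sub_const τ').const_mul (Real.exp 1 * lam)).exp
          have hres := image_norm_le_of_norm_deriv_right_le_deriv_boundary hcont hder
            (B := fun s : ℝ => Real.exp ((i : ℝ) - (j + 1)) * M i *
              Real.exp (Real.exp 1 * lam * (s - τ'))) ?_ hB ?_
          · intro s hs1
            exact hres hs1
          · rw [sub_self, mul_zero, Real.exp_zero, mul_one, Real.norm_eq_abs]
            have := hat i
            push_cast at this
            exact this
          · intro x hx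
            rw [Real.norm_eq_abs]
            refine (hstep x ⟨hx.1, hx.2.le⟩).trans ?_
            have e1 : Real.exp (((i + 1 : ℕ) : ℝ) - (j + 1)) =
                Real.exp ((i : ℝ) - (j + 1)) * Real.exp 1 := by
              rw [← Real.exp_add]; congr 1; push_cast; ring
            rw [e1]
            calc Real.exp ((i : ℝ) - (j + 1)) * Real.exp 1 * M (i + 1) *
                  Real.exp (Real.exp 1 * lam * (x - τ'))
                ≤ Real.exp ((i : ℝ) - (j + 1)) * Real.exp 1 * (lam * M i) *
                  Real.exp (Real.exp 1 * lam * (x - τ')) := by gcongr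
              _ = _ := by ring
      rcases le_or_gt i j with hij | hij
      · have h1 := desc (j + 1 - i) i (by omega) τ ⟨hτ'τ, le_rfl⟩
        refine h1.trans ?_
        have h2 : Real.exp 1 * lam * (τ - τ') ≤ 1 := by
          have h3 : τ - τ' ≤ 1 / (Real.exp 1 * lam) := by
            have := le_max_right 0 (τ - 1 / (Real.exp 1 * lam))
            linarith
          calc Real.exp 1 * lam * (τ - τ') ≤ Real.exp 1 * lam * (1 / (Real.exp 1 * lam)) := by
                gcongr
            _ = 1 := by field_simp
        have h3 : Real.exp (Real.exp 1 * lam * (τ - τ')) ≤ Real.exp 1 := Real.exp_le_exp.2 h2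
        have h4 : 0 < Real.exp ((i : ℝ) - (j + 1)) * M i := mul_pos (Real.exp_pos _) (hM i)
        calc _ ≤ Real.exp ((i : ℝ) - (j + 1)) * M i * Real.exp 1 := by gcongr
          _ = Real.exp ((i : ℝ) - j) * M i := by
              have : Real.exp ((i : ℝ) - j) = Real.exp ((i : ℝ) - (j + 1)) * Real.exp 1 := by
                rw [← Real.exp_add]; congr 1; ring
              rw [this]; ring
      · refine (hb i τ hτ).trans ?_
        apply le_mul_of_one_le_left (hM i).le
        apply Real.one_le_exp
        have : (j : ℝ) < i := by exact_mod_cast hij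
        linarith
  have hfin := key (N - n) n (by omega) L ⟨hL, le_rfl⟩ hs 0
  calc |G 0 L| ≤ Real.exp (((0 : ℕ) : ℝ) - n) * M 0 := hfin
    _ = M 0 * Real.exp (-(n:ℝ)) := by push_cast; rw [zero_sub]; ring

end Pool.Agent.W5h62.FW
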