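import Mathlib

/-!
# A holomorphic function which vanishes on a piece of the boundary
-/

set_option autoImplicit false

namespace Pool.Agent.W5h62.FW

open Complex Filter Topology

/-- one of the four rotations is in the sector `|im| ≤ re` -/
theorem rot_sector (ζ : ℂ) : ∃ k : Fin 4, |((I ^ (k : ℕ)) * ζ).im| ≤ ((I ^ (k : ℕ)) * ζ).re := by
  rcases le_total |ζ.im| |ζ.re| with h | h
  · rcases le_total 0 ζ.re with h0 | h0
    · refine ⟨0, ?_⟩
      rw [abs_of_nonneg h0] at h
      simpa using h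
    · refine ⟨2, ?_⟩
      rw [abs_of_nonpos h0] at h
      simpa [Complex.I_sq] using h
  · rcases le_total 0 ζ.im with h0 | h0
    · refine ⟨3, ?_⟩
      rw [abs_of_nonneg h0] at h
      have e : I ^ ((3 : Fin 4) : ℕ) = -I := by
        show I ^ 3 = -I
        exact Complex.I_pow_three
      rw [e]
      simpa using h
    · refine ⟨1, ?_⟩
      rw [abs_of_nonpos h0] at h
      simpa using h

theorem norm_I_pow (k : ℕ) : ‖(I : ℂ) ^ k‖ = 1 := by
  rw [norm_pow, Complex.norm_I, one_pow]

/-- **Boundary uniqueness.** -/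
theorem uc {Ω : Set ℂ} (hΩ : IsOpen Ω) (hc : IsPreconnected Ω) {q m : ℂ} {r κ : ℝ} (hr : 0 < r)
    (hm : ‖m‖ = 1) (hκ0 : 0 ≤ κ) (hκ : κ < 1) (hq : q ∈ frontier Ω)
    (hcone : ∀ z ∈ Metric.ball q r, z ≠ q → κ * |((z - q) * (starRingEnd ℂ) m).im| ≤
      ((z - q) * (starRingEnd ℂ) m).re → z ∉ closure Ω) {f : ℂ → ℂ} (hf : DifferentiableOn ℂ f Ω)
    (hfc : ContinuousOn f (Ω ∪ (frontier Ω ∩ Metric.ball q r)))
    (hf0 : ∀ z ∈ frontier Ω ∩ Metric.ball q r, f z = 0) : ∀ z ∈ Ω, f z = 0 := by
  have h1κ : 0 < 1 - κ := by linarith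
  set R : ℝ := 2 * (1 + κ) / (1 - κ) + 2 with hR
  have hR2 : 2 * (1 + κ) / (1 - κ) * (1 - κ) = 2 * (1 + κ) := div_mul_cancel₀ _ h1κ.ne'
  have hR4 : 2 < R := by
    have : 0 < 2 * (1 + κ) / (1 - κ) := by positivity
    linarith
  have hqcl : q ∈ closure Ω := frontier_subset_closure hq
  have hqΩ : q ∉ Ω := by
    rw [hΩ.frontier_eq] at hq
    exact hq.2
  obtain ⟨c, hcΩ, hcq⟩ := Metric.mem_closure_iff.1 hqcl (r / (R + 1)) (by positivity)
  set h : ℝ := dist q c with hh
  have hh0 : 0 < h := dist_pos.2 fun e => hqΩ (e ▸ hcΩ)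
  have hRh : (R + 1) * h < r := by
    rw [lt_div_iff₀ (by linarith)] at hcq
    linarith
  set ρ : ℝ := R * h with hρ
  have hρ0 : 0 < ρ := by positivity
  have hρr : ρ + h < r := by
    rw [hρ]
    linarith
  let W : Fin 4 → ℂ → ℂ := fun k z => c + I ^ (k : ℕ) * (z - c)
  have hWc : ∀ k z, W k z - c = I ^ (k : ℕ) * (z - c) := fun k z => by
    show c + I ^ (k : ℕ) * (z - c) - c = _
    ring
  have hWn : ∀ k z, dist (W k z) c = dist z c := by
    intro k z
    rw [dist_eq_norm, hWc, norm_mul, norm_I_pow, one_mul, dist_eq_norm]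
  have hWcont : ∀ k, Continuous (W k) := fun k => by
    show Continuous fun z => c + I ^ (k : ℕ) * (z - c)
    fun_prop
  have hWdiff : ∀ k, Differentiable ℂ (W k) := fun k => by
    show Differentiable ℂ fun z => c + I ^ (k : ℕ) * (z - c)
    fun_prop
  have hWself : ∀ k, W k c = c := fun k => by
    show c + I ^ (k : ℕ) * (c - c) = c
    ring
  -- the sphere
  have hsph : ∀ z, dist z c = ρ → ∃ k, W k z ∉ closure Ω := by
    intro z hz
    obtain ⟨k, hk⟩ := rot_sector ((z - c) * (starRingEnd ℂ) m)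
    refine ⟨k, ?_⟩
    set ζ : ℂ := I ^ (k : ℕ) * ((z - c) * (starRingEnd ℂ) m) with hζ
    have hζn : ‖ζ‖ = ρ := by
      rw [hζ, norm_mul, norm_mul, norm_I_pow, one_mul, RCLike.norm_conj, hm, mul_one,
        ← dist_eq_norm, hz]
    have hζre : ρ / 2 ≤ ζ.re := by
      have h1 := Complex.norm_le_abs_re_add_abs_im ζ
      have h2 : 0 ≤ ζ.re := (abs_nonneg _).trans hk
      rw [abs_of_nonneg h2, hζn] at h1
      linarith
    set η : ℂ := (c - q) * (starRingEnd ℂ) m with hη
    have hηn : ‖η‖ = h := by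
      rw [hη, norm_mul, RCLike.norm_conj, hm, mul_one, ← dist_eq_norm, dist_comm]
    have e1 : (W k z - q) * (starRingEnd ℂ) m = ζ + η := by
      rw [hζ, hη]
      show (c + I ^ (k : ℕ) * (z - c) - q) * (starRingEnd ℂ) m = _
      ring
    have hηre := Complex.abs_re_le_norm η
    have hηim := Complex.abs_im_le_norm η
    rw [hηn] at hηre hηim
    have hre : ζ.re - h ≤ (ζ + η).re := by
      rw [Complex.add_re]
      linarith [neg_abs_le η.re]
    have him : |(ζ + η).im| ≤ ζ.re + h := by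
      rw [Complex.add_im]
      exact (abs_add_le _ _).trans (by linarith)
    have hhalf : h < ρ / 2 := by
      rw [hρ]
      nlinarith
    refine hcone _ ?_ ?_ ?_
    · rw [Metric.mem_ball]
      calc dist (W k z) q ≤ dist (W k z) c + dist c q := dist_triangle _ _ _
        _ = ρ + h := by rw [hWn, hz, dist_comm c q]
        _ < r := hρr
    · intro e
      rw [e, sub_self, zero_mul] at e1
      have h3 := congrArg Complex.re e1
      rw [Complex.zero_re] at h3
      linarith
    · rw [e1]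
      have h4 : κ * |(ζ + η).im| ≤ κ * (ζ.re + h) := mul_le_mul_of_nonneg_left him hκ0
      have h5 : h * (1 + κ) ≤ ζ.re * (1 - κ) := by
        have h6 : h * (1 + κ) ≤ ρ / 2 * (1 - κ) := by
          rw [hρ, hR]
          nlinarith
        have h7 := mul_le_mul_of_nonneg_right hζre h1κ.le
        linarith
      nlinarith
  -- the domain
  let D : Set ℂ := {z | dist z c < ρ ∧ ∀ k, W k z ∈ Ω}
  have hDopen : IsOpen D := by
    have h1 : D = Metric.ball c ρ ∩ ⋂ k, W k ⁻¹' Ω := by
      ext z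
      simp [D]
    rw [h1]
    exact Metric.isOpen_ball.inter (isOpen_iInter_of_finite fun k => hΩ.preimage (hWcont k))
  have hcD : c ∈ D := by
    refine ⟨by rw [dist_self]; exact hρ0, fun k => ?_⟩
    rw [hWself]
    exact hcΩ
  have hclD : closure D ⊆ {z | dist z c ≤ ρ ∧ ∀ k, W k z ∈ closure Ω} := by
    have h1 : IsClosed {z | dist z c ≤ ρ ∧ ∀ k, W k z ∈ closure Ω} := by
      have h2 : {z | dist z c ≤ ρ ∧ ∀ k, W k z ∈ closure Ω} =
          Metric.closedBall c ρ ∩ ⋂ k, W k ⁻¹' closure Ω := by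
        ext z
        simp
      rw [h2]
      exact Metric.isClosed_closedBall.inter
        (isClosed_iInter fun k => isClosed_closure.preimage (hWcont k))
    exact closure_minimal (fun z hz => ⟨hz.1.le, fun k => subset_closure (hz.2 k)⟩) h1
  have hclD' : ∀ z ∈ closure D, dist z c < ρ := by
    intro z hz
    obtain ⟨h1, h2⟩ := hclD hz
    refine lt_of_le_of_ne h1 fun e => ?_
    obtain ⟨k, hk⟩ := hsph z e
    exact hk (h2 k)
  have hball : ∀ z, dist z c < ρ → ∀ k, W k z ∈ Metric.ball q r := by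
    intro z hz k
    rw [Metric.mem_ball]
    calc dist (W k z) q ≤ dist (W k z) c + dist c q := dist_triangle _ _ _
      _ = dist z c + h := by rw [hWn, dist_comm c q]
      _ < r := by linarith
  have hsplit : ∀ z ∈ closure D, ∀ k, W k z ∈ Ω ∪ (frontier Ω ∩ Metric.ball q r) := by
    intro z hz k
    have h1 := (hclD hz).2 k
    rw [closure_eq_self_union_frontier] at h1
    rcases h1 with h1 | h1
    · exact Or.inl h1
    · exact Or.inr ⟨h1, hball z (hclD' z hz) k⟩
  let F : ℂ → ℂ := fun z => ∏ k, f (W k z)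
  have hFd : DiffContOnCl ℂ F D := by
    refine ⟨?_, ?_⟩
    · have h1 : ∀ k ∈ (Finset.univ : Finset (Fin 4)), DifferentiableOn ℂ (fun z => f (W k z)) D :=
        fun k _ => hf.comp (hWdiff k).differentiableOn fun z hz => hz.2 k
      exact DifferentiableOn.fun_finset_prod h1
    · refine continuousOn_finset_prod _ fun k _ => ?_
      exact hfc.comp (hWcont k).continuousOn fun z hz => hsplit z hz k
  have hFfr : ∀ z ∈ frontier D, ‖F z‖ ≤ 0 := by
    intro z hz
    have hzc : z ∈ closure D := frontier_subset_closure hz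
    rw [hDopen.frontier_eq] at hz
    have h1 : ∃ k, W k z ∉ Ω := by
      by_contra hcon
      push Not at hcon
      exact hz.2 ⟨hclD' z hzc, hcon⟩
    obtain ⟨k, hk⟩ := h1
    have h2 : F z = 0 := by
      refine Finset.prod_eq_zero (Finset.mem_univ k) ?_
      rcases hsplit z hzc k with h3 | h3
      · exact absurd h3 hk
      · exact hf0 _ h3
    rw [h2, norm_zero]
  have hDb : Bornology.IsBounded D :=
    (Metric.isBounded_ball (x := c) (r := ρ)).subset fun z hz => hz.1
  have hF0 : ∀ z ∈ D, F z = 0 := by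
    intro z hz
    have h1 := Complex.norm_le_of_forall_mem_frontier_norm_le hDb hFd hFfr (subset_closure hz)
    exact norm_le_zero_iff.1 h1
  -- isolated zeros
  have han : AnalyticOnNhd ℂ f Ω := hf.analyticOnNhd hΩ
  have hev : f =ᶠ[𝓝 c] 0 := by
    rcases (han c hcΩ).eventually_eq_zero_or_eventually_ne_zero with h1 | h1
    · exact h1
    · exfalso
      have h2 : ∀ k : Fin 4, ∀ᶠ z in 𝓝[≠] c, f (W k z) ≠ 0 := by
        intro k
        have h3 : Tendsto (W k) (𝓝[≠] c) (𝓝[≠] c) := by
          refine tendsto_nhdsWithin_iff.2 ⟨?_, ?_⟩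
          · have h4 := (hWcont k).tendsto c
            rw [hWself] at h4
            exact h4.mono_left nhdsWithin_le_nhds
          · filter_upwards [self_mem_nhdsWithin] with z hz
            intro e
            have h5 : dist (W k z) c = 0 := by rw [e, dist_self]
            rw [hWn, dist_eq_zero] at h5
            exact hz h5
        exact h3.eventually h1
      have h3 : ∀ᶠ z in 𝓝[≠] c, ∀ k : Fin 4, f (W k z) ≠ 0 := eventually_all.2 h2
      have h4 : ∀ᶠ z in 𝓝[≠] c, z ∈ D := nhdsWithin_le_nhds (hDopen.mem_nhds hcD)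
      obtain ⟨z, hz1, hz2⟩ := (h3.and h4).exists
      exact (Finset.prod_ne_zero_iff.2 fun k _ => hz1 k) (hF0 z hz2)
  intro z hz
  exact han.eqOn_zero_of_preconnected_of_eventuallyEq_zero hc hcΩ hev hz

end Pool.Agent.W5h62.FW
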