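import Pool.Agent.Q176.WL.A1

/-! Trajectories of the plane Navier-Stokes equations, smooth up to a time `T` and up to a no-slip
wall: definitions. -/

namespace Pool.Agent.W5h62.FW

open Set Filter Topology Pool.Agent.Q176.WL

/-- The time derivative of order `n` of `u` at the time `t` and the point `z`. -/
noncomputable def dt (n : ℕ) (u : E → ℝ) (t : ℝ) (z : ℝ × ℝ) : ℝ :=
  iteratedDeriv n (fun s => u (s, z)) t

/-- `(u, v, p)` is a classical solution of the Navier-Stokes equations in `(0, T) × Ω`, however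
controlled, smooth up to the time `T`: `u`, `v` are (restrictions of) smooth functions in
`(0, T') × Ω` for some `T' > T`, nothing being asked of them after the time `T` but smoothness; their
time derivatives are continuous up to the part `Γ` of the boundary, and `u = v = 0` on `Γ`. -/
structure Traj (Ω Γ : Set (ℝ × ℝ)) (T : ℝ) (u v p : E → ℝ) : Prop where
  ns : IsNS (Ioo 0 T ×ˢ Ω) u v p
  ext : ∃ T' > T, ContDiffOn ℝ (⊤ : ℕ∞) u (Ioo 0 T' ×ˢ Ω) ∧ ContDiffOn ℝ (⊤ : ℕ∞) v (Ioo 0 T' ×ˢ Ω) ∧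
    ∀ n, ContinuousOn (fun q : E => dt n u q.1 q.2) (Ioo 0 T' ×ˢ (Ω ∪ Γ)) ∧
      ContinuousOn (fun q : E => dt n v q.1 q.2) (Ioo 0 T' ×ˢ (Ω ∪ Γ))
  wall_u : ∀ t ∈ Ioo 0 T, ∀ z ∈ Γ, u (t, z) = 0
  wall_v : ∀ t ∈ Ioo 0 T, ∀ z ∈ Γ, v (t, z) = 0

/-- At the boundary point `q` of `Ω` there is an exterior cone of aperture more than a right angle
(with axis `m`, `|m| = 1`): near `q`, the points `z ≠ q` with
`κ |(z - q) · m^⊥| ≤ (z - q) · m` are not in the closure of `Ω`; `κ < 1`. -/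
structure Cone (Ω : Set (ℝ × ℝ)) (q m : ℝ × ℝ) (r κ : ℝ) : Prop where
  bdry : q ∈ frontier Ω
  radius_pos : 0 < r
  unit : m.1 ^ 2 + m.2 ^ 2 = 1
  nonneg : 0 ≤ κ
  lt_one : κ < 1
  out : ∀ z, dsq z q < r ^ 2 → z ≠ q →
    κ * |(z.2 - q.2) * m.1 - (z.1 - q.1) * m.2| ≤ (z.1 - q.1) * m.1 + (z.2 - q.2) * m.2 →
    z ∉ closure Ω

/-- The part of the boundary of `Ω` in the open disc with centre `q` and radius `r`. -/
def Wall (Ω : Set (ℝ × ℝ)) (q : ℝ × ℝ) (r : ℝ) : Set (ℝ × ℝ) := {z ∈ frontier Ω | dsq z q < r ^ 2}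

end Pool.Agent.W5h62.FW
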