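import Pool.Agent.W5h62.FW.DefsT

/-! Finite-dimensional families of velocity fields. -/

namespace Pool.Agent.W5h62.FN

open Set Filter Topology

/-- `W_1, …, W_N` are linearly independent solenoidal fields, smooth in `Ω` and up to (across) the
piece `{ψ = 0} ∩ U` of the wall, and zero there. -/
structure Fam {d N : ℕ} (Ω U : Set (Fin d → ℝ)) (ψ : (Fin d → ℝ) → ℝ)
    (W : Fin N → Fin d → (Fin d → ℝ) → ℝ) : Prop where
  smooth : ∀ k i, ContDiffOn ℝ (⊤ : ℕ∞) (W k i) (Ω ∪ U)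
  div : ∀ k, ∀ x ∈ Ω, ∑ i, pd (bv i) (W k i) x = 0
  wall : ∀ k i, ∀ x ∈ U, ψ x = 0 → W k i x = 0
  indep : ∀ c : Fin N → ℝ, (∀ i, ∀ x ∈ Ω, ∑ k, c k * W k i x = 0) → c = 0

/-- The Laplacian of `W_k`. -/
noncomputable def Lp {d N : ℕ} (W : Fin N → Fin d → (Fin d → ℝ) → ℝ) (k : Fin N) (i : Fin d) :
    (Fin d → ℝ) → ℝ := fun x => ∑ m, pd (bv m) (pd (bv m) (W k i)) x

/-- The field `(W_k · ∇) W_l`. -/
noncomputable def Nl {d N : ℕ} (W : Fin N → Fin d → (Fin d → ℝ) → ℝ) (k l : Fin N) (i : Fin d) :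
    (Fin d → ℝ) → ℝ := fun x => ∑ m, W k m x * pd (bv m) (W l i) x

end Pool.Agent.W5h62.FN
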