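import Mathlib

/-! Trajectories of the Navier-Stokes equations in any dimension, smooth up to a time `T` and across
a smooth piece of the no-slip wall: definitions. -/

namespace Pool.Agent.W5h62.FN

open Set Filter Topology

/-- The derivative of `F` in the direction `e`. -/
noncomputable def pd {V : Type*} [NormedAddCommGroup V] [NormedSpace ℝ V] (e : V) (F : V → ℝ) :
    V → ℝ := fun x => fderiv ℝ F x e

/-- The basis vector `e_i`. -/
def bv {d : ℕ} (i : Fin d) : Fin d → ℝ := Pi.single i 1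

/-- `h` is smooth and harmonic in `U`. -/
def Harm {d : ℕ} (U : Set (Fin d → ℝ)) (h : (Fin d → ℝ) → ℝ) : Prop :=
  ContDiffOn ℝ (⊤ : ℕ∞) h U ∧ ∀ x ∈ U, ∑ i, pd (bv i) (pd (bv i) h) x = 0

/-- In the open set `U` the set `Ω` is `{ψ > 0}` and its boundary is the hypersurface `{ψ = 0}`,
`∇ψ ≠ 0` there. -/
structure SmoothWall {d : ℕ} (Ω U : Set (Fin d → ℝ)) (ψ : (Fin d → ℝ) → ℝ) : Prop where
  isOpen : IsOpen U
  smooth : ContDiffOn ℝ 1 ψ U
  regular : ∀ x ∈ U, ψ x = 0 → fderiv ℝ ψ x ≠ 0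
  inside : ∀ x ∈ U, (x ∈ Ω ↔ 0 < ψ x)

/-- The vector field `F` is smooth in `U`, irrotational and solenoidal in `U ∩ Ω`, and zero on
`{ψ = 0}`. -/
structure PotFlow {d : ℕ} (Ω U : Set (Fin d → ℝ)) (ψ : (Fin d → ℝ) → ℝ)
    (F : Fin d → (Fin d → ℝ) → ℝ) : Prop where
  smooth : ∀ i, ContDiffOn ℝ (⊤ : ℕ∞) (F i) U
  curl : ∀ x ∈ U ∩ Ω, ∀ i j, pd (bv i) (F j) x = pd (bv j) (F i) x
  div : ∀ x ∈ U ∩ Ω, ∑ i, pd (bv i) (F i) x = 0
  wall : ∀ x ∈ U, ψ x = 0 → ∀ i, F i x = 0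

end Pool.Agent.W5h62.FN
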