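import Pool.Agent.W5h62.FW.JetN

/-! Trajectories in any dimension. -/

namespace Pool.Agent.W5h62.FN

open Set Filter Topology

/-- The direction of the coordinate `i` in space-time. -/
def es {d : ℕ} (i : Fin d) : ℝ × (Fin d → ℝ) := (0, bv i)

/-- `(u, p)` is a classical (`C²`) solution of the Navier-Stokes equations with unit viscosity in the open
set `O` of space-time, in dimension `d`. -/
structure IsNS {d : ℕ} (O : Set (ℝ × (Fin d → ℝ))) (u : Fin d → ℝ × (Fin d → ℝ) → ℝ)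
    (p : ℝ × (Fin d → ℝ) → ℝ) : Prop where
  smooth_u : ∀ i, ContDiffOn ℝ 2 (u i) O
  smooth_p : ContDiffOn ℝ 2 p O
  eq : ∀ i, ∀ x ∈ O, pd et (u i) x + ∑ j, u j x * pd (es j) (u i) x
    - ∑ j, pd (es j) (pd (es j) (u i)) x + pd (es i) p x = 0
  div : ∀ x ∈ O, ∑ i, pd (es i) (u i) x = 0

/-- The time derivative of order `n` of `f` at the time `t` and the point `z`. -/
noncomputable def dt {d : ℕ} (n : ℕ) (f : ℝ × (Fin d → ℝ) → ℝ) (t : ℝ) (z : Fin d → ℝ) : ℝ :=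
  iteratedDeriv n (fun s => f (s, z)) t

/-- `(u, p)` is a classical solution of the Navier-Stokes equations in `(0, T) × Ω`, however
controlled, smooth up to the time `T` and up to the piece `{ψ = 0} ∩ U` of the wall, where `u = 0`:
`u` and `p` are restrictions of functions smooth in `(0, T') × (Ω ∪ U)` and `(0, T') × Ω`, `T' > T`,
of which nothing else is asked. -/
structure Traj {d : ℕ} (Ω U : Set (Fin d → ℝ)) (ψ : (Fin d → ℝ) → ℝ) (T : ℝ)
    (u : Fin d → ℝ × (Fin d → ℝ) → ℝ) (p : ℝ × (Fin d → ℝ) → ℝ) : Prop where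
  ns : IsNS (Ioo 0 T ×ˢ Ω) u p
  ext : ∃ T' > T, (∀ i, ContDiffOn ℝ (⊤ : ℕ∞) (u i) (Ioo 0 T' ×ˢ (Ω ∪ U))) ∧
    ContDiffOn ℝ (⊤ : ℕ∞) p (Ioo 0 T' ×ˢ Ω)
  wall : ∀ t ∈ Ioo 0 T, ∀ x ∈ U, ψ x = 0 → ∀ i, u i (t, x) = 0

end Pool.Agent.W5h62.FN
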