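import Pool.Agent.W5h62.FW.DefsN

/-! A potential flow which vanishes on a smooth wall extends by zero to a harmonic field
(helper21 for helper62). -/

set_option autoImplicit false

namespace Pool.Agent.W5h62.FN

open Set Filter Topology

namespace ExtH

variable {d : ℕ}

theorem apply_sum (L : (Fin d → ℝ) →L[ℝ] ℝ) (v : Fin d → ℝ) : L v = ∑ j, v j * L (bv j) := by
  have h : v = ∑ j, v j • bv j := by
    funext k
    simp [bv, Finset.sum_apply, Pi.single_apply]
  conv_lhs => rw [h]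
  rw [map_sum]
  exact Finset.sum_congr rfl fun j _ => by rw [map_smul, smul_eq_mul]

theorem clm_zero {L : (Fin d → ℝ) →L[ℝ] ℝ} (h : ∀ j, L (bv j) = 0) : L = 0 := by
  ext v
  rw [apply_sum]
  simp [h]

theorem pd_smooth {U : Set (Fin d → ℝ)} (hU : IsOpen U) {f : (Fin d → ℝ) → ℝ}
    (hf : ContDiffOn ℝ (⊤ : ℕ∞) f U) (e : Fin d → ℝ) : ContDiffOn ℝ (⊤ : ℕ∞) (pd e f) U :=
  (hf.fderiv_of_isOpen hU (m := ((⊤ : ℕ∞) : WithTop ℕ∞)) (by norm_num)).clm_apply contDiffOn_const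

theorem pd_pd {f : (Fin d → ℝ) → ℝ} {x : Fin d → ℝ} (hf : ContDiffAt ℝ (⊤ : ℕ∞) f x)
    (a b : Fin d → ℝ) : pd a (pd b f) x = fderiv ℝ (fderiv ℝ f) x a b := by
  have h : DifferentiableAt ℝ (fderiv ℝ f) x :=
    (hf.fderiv_right (m := ((⊤ : ℕ∞) : WithTop ℕ∞)) (by norm_num)).differentiableAt (by simp)
  have h2 := h.hasFDerivAt.clm_apply (hasFDerivAt_const b x)
  have h3 : fderiv ℝ (pd b f) x = _ := h2.fderiv
  show fderiv ℝ (pd b f) x a = _
  rw [h3]
  simp

theorem pd_comm {f : (Fin d → ℝ) → ℝ} {x : Fin d → ℝ} (hf : ContDiffAt ℝ (⊤ : ℕ∞) f x)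
    (a b : Fin d → ℝ) : pd a (pd b f) x = pd b (pd a f) x := by
  rw [pd_pd hf, pd_pd hf]
  have h2 : ContDiffAt ℝ 2 f x := by
    have h3 := contDiffAt_infty.1 hf 2
    exact_mod_cast h3
  exact (h2.isSymmSndFDerivAt (by simp)).eq a b

theorem pd_congr {f g : (Fin d → ℝ) → ℝ} {x : Fin d → ℝ} (h : f =ᶠ[𝓝 x] g) (e : Fin d → ℝ) :
    pd e f x = pd e g x := by
  unfold pd
  rw [h.fderiv_eq]

theorem mem_closure_dom {Ω U : Set (Fin d → ℝ)} {ψ : (Fin d → ℝ) → ℝ} (hS : SmoothWall Ω U ψ)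
    {x : Fin d → ℝ} (hx : x ∈ U) (h0 : ψ x = 0) : x ∈ closure (U ∩ Ω) := by
  by_contra hcl
  apply hS.regular x hx h0
  apply IsLocalMax.fderiv_eq_zero
  have h1 : ∀ᶠ y in 𝓝 x, y ∉ closure (U ∩ Ω) := isClosed_closure.isOpen_compl.mem_nhds hcl
  filter_upwards [h1, hS.isOpen.mem_nhds hx] with y hy hyU
  rw [h0]
  by_contra hlt
  rw [not_le] at hlt
  exact hy (subset_closure ⟨hyU, (hS.inside y hyU).2 hlt⟩)

theorem lim_zero {D : Set (Fin d → ℝ)} {g : (Fin d → ℝ) → ℝ} {x : Fin d → ℝ}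
    (hg : ContinuousAt g x) (h : ∀ y ∈ D, g y = 0) (hx : x ∈ closure D) : g x = 0 := by
  have hne := mem_closure_iff_nhdsWithin_neBot.1 hx
  have h1 : Tendsto g (𝓝[D] x) (𝓝 (g x)) := hg.mono_left nhdsWithin_le_nhds
  have h2 : Tendsto g (𝓝[D] x) (𝓝 0) := tendsto_const_nhds.congr' (by
    filter_upwards [self_mem_nhdsWithin] with y hy
    exact (h y hy).symm)
  exact tendsto_nhds_unique h1 h2

theorem isOpen_dom {Ω U : Set (Fin d → ℝ)} {ψ : (Fin d → ℝ) → ℝ} (hS : SmoothWall Ω U ψ) :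
    IsOpen (U ∩ Ω) := by
  have h : U ∩ Ω = U ∩ ψ ⁻¹' (Ioi 0) := by
    ext x
    refine and_congr_right fun hx => ?_
    exact hS.inside x hx
  rw [h]
  exact hS.smooth.continuousOn.isOpen_inter_preimage hS.isOpen isOpen_Ioi

theorem wall_deriv {Ω U : Set (Fin d → ℝ)} {ψ : (Fin d → ℝ) → ℝ} (hS : SmoothWall Ω U ψ)
    {F : Fin d → (Fin d → ℝ) → ℝ} (hF : PotFlow Ω U ψ F) {x : Fin d → ℝ} (hx : x ∈ U)
    (h0 : ψ x = 0) (i : Fin d) : fderiv ℝ (F i) x = 0 := by
  have hν := hS.regular x hx h0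
  have hn := hS.isOpen.mem_nhds hx
  have hc : ∀ k, ∃ c : ℝ, fderiv ℝ (F k) x = c • fderiv ℝ ψ x := by
    intro k
    have hψ : HasStrictFDerivAt ψ (fderiv ℝ ψ x) x :=
      (hS.smooth.contDiffAt hn).hasStrictFDerivAt one_ne_zero
    have hf : HasStrictFDerivAt (F k) (fderiv ℝ (F k) x) x :=
      ((hF.smooth k).contDiffAt hn).hasStrictFDerivAt (by simp)
    have hext : IsLocalExtrOn (F k) {y | ψ y = ψ x} x := by
      left
      filter_upwards [self_mem_nhdsWithin, mem_nhdsWithin_of_mem_nhds hn] with y hy hyU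
      rw [hF.wall y hyU (hy.trans h0) k, hF.wall x hx h0 k]
    obtain ⟨a, b, hab, heq⟩ := hext.exists_multipliers_of_hasStrictFDerivAt_1d hψ hf
    have hb : b ≠ 0 := by
      intro hb
      apply hab
      rw [hb, zero_smul, add_zero] at heq
      rcases smul_eq_zero.1 heq with h | h
      · rw [h, hb]
        rfl
      · exact absurd h hν
    refine ⟨-(b⁻¹ * a), ?_⟩
    have h3 : b • fderiv ℝ (F k) x = -(a • fderiv ℝ ψ x) := by
      rw [eq_neg_iff_add_eq_zero, add_comm]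
      exact heq
    calc fderiv ℝ (F k) x = b⁻¹ • (b • fderiv ℝ (F k) x) := by
          rw [smul_smul, inv_mul_cancel₀ hb, one_smul]
      _ = -(b⁻¹ * a) • fderiv ℝ ψ x := by
          rw [h3, smul_neg, smul_smul]
          ext v
          simp
  choose c hc using hc
  have hcl := mem_closure_dom hS hx h0
  have hcont : ∀ a b, ContinuousAt (pd (bv a) (F b)) x := fun a b =>
    ((pd_smooth hS.isOpen (hF.smooth b) (bv a)).contDiffAt hn).continuousAt
  have hpd : ∀ a b, pd (bv a) (F b) x = c b * fderiv ℝ ψ x (bv a) := by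
    intro a b
    unfold pd
    rw [hc b]
    rfl
  have hcurl : ∀ a b, c b * fderiv ℝ ψ x (bv a) = c a * fderiv ℝ ψ x (bv b) := by
    intro a b
    have h1 := lim_zero (g := fun y => pd (bv a) (F b) y - pd (bv b) (F a) y)
      ((hcont a b).sub (hcont b a)) (fun y hy => by
        rw [hF.curl y hy a b, sub_self]) hcl
    rw [← hpd, ← hpd]
    exact sub_eq_zero.1 h1
  have hdiv : ∑ a, c a * fderiv ℝ ψ x (bv a) = 0 := by
    have h1 := lim_zero (g := fun y => ∑ a, pd (bv a) (F a) y)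
      (tendsto_finsetSum _ fun a _ => hcont a a) (fun y hy => hF.div y hy) hcl
    simp only [hpd] at h1
    exact h1
  have hsq : ∑ a, fderiv ℝ ψ x (bv a) ^ 2 ≠ 0 := by
    intro h
    apply hν
    apply clm_zero
    intro j
    have h1 := (Finset.sum_eq_zero_iff_of_nonneg (fun a _ => sq_nonneg _)).1 h j (Finset.mem_univ j)
    exact pow_eq_zero_iff two_ne_zero |>.1 h1
  have hci : c i * ∑ a, fderiv ℝ ψ x (bv a) ^ 2 = 0 := by
    calc c i * ∑ a, fderiv ℝ ψ x (bv a) ^ 2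
        = fderiv ℝ ψ x (bv i) * ∑ a, c a * fderiv ℝ ψ x (bv a) := by
          rw [Finset.mul_sum, Finset.mul_sum]
          refine Finset.sum_congr rfl fun a _ => ?_
          linear_combination (fderiv ℝ ψ x (bv a)) * hcurl a i
      _ = 0 := by rw [hdiv, mul_zero]
  have h5 : c i = 0 := (mul_eq_zero.1 hci).resolve_right hsq
  rw [hc i, h5, zero_smul]

theorem hasFDerivAt_ind {Ω U : Set (Fin d → ℝ)} {ψ : (Fin d → ℝ) → ℝ} (hS : SmoothWall Ω U ψ)
    {F : Fin d → (Fin d → ℝ) → ℝ} (hF : PotFlow Ω U ψ F) {x : Fin d → ℝ} (hx : x ∈ U)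
    (i : Fin d) : HasFDerivAt (Set.indicator Ω (F i)) (Set.indicator Ω (fderiv ℝ (F i)) x) x := by
  have hn := hS.isOpen.mem_nhds hx
  have hd : HasFDerivAt (F i) (fderiv ℝ (F i) x) x :=
    (((hF.smooth i).contDiffAt hn).differentiableAt (by simp)).hasFDerivAt
  have hψc : ContinuousAt ψ x := (hS.smooth.contDiffAt hn).continuousAt
  rcases lt_trichotomy (ψ x) 0 with h | h | h
  · have hxΩ : x ∉ Ω := fun hxΩ => absurd ((hS.inside x hx).1 hxΩ) (not_lt.2 h.le)
    rw [Set.indicator_of_notMem hxΩ]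
    refine (hasFDerivAt_const (0 : ℝ) x).congr_of_eventuallyEq ?_
    filter_upwards [hn, hψc.eventually (gt_mem_nhds h)] with y hy hy0
    exact Set.indicator_of_notMem (fun hyΩ => absurd ((hS.inside y hy).1 hyΩ) (not_lt.2 hy0.le)) _
  · have hxΩ : x ∉ Ω := fun hxΩ => absurd ((hS.inside x hx).1 hxΩ) (by rw [h]; exact lt_irrefl 0)
    rw [Set.indicator_of_notMem hxΩ]
    have h0 := wall_deriv hS hF hx h i
    have hFx := hF.wall x hx h i
    rw [h0] at hd
    rw [hasFDerivAt_iff_isLittleO_nhds_zero] at hd ⊢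
    refine (Asymptotics.isBigO_of_le _ fun v => ?_).trans_isLittleO hd
    rw [Set.indicator_of_notMem hxΩ, hFx]
    by_cases hv : x + v ∈ Ω
    · rw [Set.indicator_of_mem hv]
    · rw [Set.indicator_of_notMem hv]
      simp
  · have hxΩ : x ∈ Ω := (hS.inside x hx).2 h
    rw [Set.indicator_of_mem hxΩ]
    refine hd.congr_of_eventuallyEq ?_
    filter_upwards [hn, hψc.eventually (lt_mem_nhds h)] with y hy hy0
    exact Set.indicator_of_mem ((hS.inside y hy).2 hy0) _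

theorem potFlow_pd {Ω U : Set (Fin d → ℝ)} {ψ : (Fin d → ℝ) → ℝ} (hS : SmoothWall Ω U ψ)
    {F : Fin d → (Fin d → ℝ) → ℝ} (hF : PotFlow Ω U ψ F) (e : Fin d → ℝ) :
    PotFlow Ω U ψ (fun i => pd e (F i)) := by
  have hD := isOpen_dom hS
  refine ⟨fun i => pd_smooth hS.isOpen (hF.smooth i) e, ?_, ?_, ?_⟩
  · intro x hx i j
    have hn := hS.isOpen.mem_nhds hx.1
    show pd (bv i) (pd e (F j)) x = pd (bv j) (pd e (F i)) x
    rw [pd_comm ((hF.smooth j).contDiffAt hn), pd_comm ((hF.smooth i).contDiffAt hn)]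
    apply pd_congr
    filter_upwards [hD.mem_nhds hx] with y hy
    exact hF.curl y hy i j
  · intro x hx
    have hn := hS.isOpen.mem_nhds hx.1
    show ∑ i, pd (bv i) (pd e (F i)) x = 0
    have h1 : ∀ i, pd (bv i) (pd e (F i)) x = pd e (pd (bv i) (F i)) x := fun i =>
      pd_comm ((hF.smooth i).contDiffAt hn) _ _
    simp only [h1]
    have h2 : ∀ i, DifferentiableAt ℝ (pd (bv i) (F i)) x := fun i =>
      ((pd_smooth hS.isOpen (hF.smooth i) (bv i)).contDiffAt hn).differentiableAt (by simp)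
    have h3 : ∑ i, pd e (pd (bv i) (F i)) x = pd e (fun y => ∑ i, pd (bv i) (F i) y) x := by
      show ∑ i, fderiv ℝ (pd (bv i) (F i)) x e = fderiv ℝ (fun y => ∑ i, pd (bv i) (F i) y) x e
      rw [fderiv_fun_sum fun i _ => h2 i]
      simp
    rw [h3]
    have h4 : pd e (fun y => ∑ i, pd (bv i) (F i) y) x = pd e (fun _ => 0) x := by
      apply pd_congr
      filter_upwards [hD.mem_nhds hx] with y hy
      exact hF.div y hy
    rw [h4]
    simp [pd]
  · intro x hx h0 i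
    show fderiv ℝ (F i) x e = 0
    rw [wall_deriv hS hF hx h0 i]
    rfl

theorem ind_apply {Ω : Set (Fin d → ℝ)} (f : (Fin d → ℝ) → ((Fin d → ℝ) →L[ℝ] ℝ))
    (x v : Fin d → ℝ) : (Set.indicator Ω f x) v = Set.indicator Ω (fun y => f y v) x := by
  by_cases h : x ∈ Ω
  · rw [Set.indicator_of_mem h, Set.indicator_of_mem h]
  · rw [Set.indicator_of_notMem h, Set.indicator_of_notMem h]
    rfl

theorem pd_ind {Ω U : Set (Fin d → ℝ)} {ψ : (Fin d → ℝ) → ℝ} (hS : SmoothWall Ω U ψ)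
    {F : Fin d → (Fin d → ℝ) → ℝ} (hF : PotFlow Ω U ψ F) {x : Fin d → ℝ} (hx : x ∈ U)
    (i : Fin d) (e : Fin d → ℝ) :
    pd e (Set.indicator Ω (F i)) x = Set.indicator Ω (pd e (F i)) x := by
  unfold pd
  rw [(hasFDerivAt_ind hS hF hx i).fderiv, ind_apply]

theorem smooth_nat {Ω U : Set (Fin d → ℝ)} {ψ : (Fin d → ℝ) → ℝ} (hS : SmoothWall Ω U ψ)
    (n : ℕ) : ∀ {F : Fin d → (Fin d → ℝ) → ℝ} (_ : PotFlow Ω U ψ F) (i : Fin d),
      ContDiffOn ℝ n (Set.indicator Ω (F i)) U := by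
  induction n with
  | zero =>
    intro F hF i
    rw [Nat.cast_zero, contDiffOn_zero]
    exact fun x hx => (hasFDerivAt_ind hS hF hx i).continuousAt.continuousWithinAt
  | succ n ih =>
    intro F hF i
    rw [Nat.cast_succ, contDiffOn_succ_iff_fderiv_of_isOpen hS.isOpen]
    refine ⟨fun x hx => (hasFDerivAt_ind hS hF hx i).differentiableAt.differentiableWithinAt,
      fun h => by simp at h, ?_⟩
    rw [contDiffOn_clm_apply]
    intro v
    have h1 : ∀ x ∈ U, fderiv ℝ (Set.indicator Ω (F i)) x v =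
        ∑ j, v j * Set.indicator Ω (pd (bv j) (F i)) x := by
      intro x hx
      rw [apply_sum]
      refine Finset.sum_congr rfl fun j _ => ?_
      rw [← pd_ind hS hF hx i (bv j)]
      rfl
    refine ContDiffOn.congr ?_ h1
    refine ContDiffOn.sum fun j _ => ?_
    exact contDiffOn_const.mul (ih (potFlow_pd hS hF (bv j)) i)

end ExtH

open ExtH in
theorem ext_harm {d : ℕ} {Ω U : Set (Fin d → ℝ)} {ψ : (Fin d → ℝ) → ℝ} (hS : SmoothWall Ω U ψ)
    {F : Fin d → (Fin d → ℝ) → ℝ} (hF : PotFlow Ω U ψ F) (i : Fin d) :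
    Harm U (Set.indicator Ω (F i)) := by
  refine ⟨contDiffOn_infty.2 fun n => smooth_nat hS n hF i, ?_⟩
  intro x hx
  have hn := hS.isOpen.mem_nhds hx
  have h1 : ∀ j, pd (bv j) (pd (bv j) (Set.indicator Ω (F i))) x =
      Set.indicator Ω (pd (bv j) (pd (bv j) (F i))) x := by
    intro j
    rw [← pd_ind hS (potFlow_pd hS hF (bv j)) hx i (bv j)]
    apply pd_congr
    filter_upwards [hn] with y hy
    exact pd_ind hS hF hy i (bv j)
  simp only [h1]
  by_cases hxΩ : x ∈ Ω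
  · simp only [Set.indicator_of_mem hxΩ]
    have hD := isOpen_dom hS
    have h2 : ∀ j, pd (bv j) (pd (bv j) (F i)) x = pd (bv j) (pd (bv i) (F j)) x := by
      intro j
      apply pd_congr
      filter_upwards [hD.mem_nhds ⟨hx, hxΩ⟩] with y hy
      exact hF.curl y hy j i
    simp only [h2]
    exact (potFlow_pd hS hF (bv i)).div x ⟨hx, hxΩ⟩
  · simp only [Set.indicator_of_notMem hxΩ]
    simp

end Pool.Agent.W5h62.FN
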