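import Mathlib

/-! Backward uniqueness in finite-dimensional families. -/

set_option autoImplicit false

namespace Pool.Agent.W5h62.FW

open Set Filter Topology

namespace FdP

variable {N : ℕ}

/-- The quadratic vector field. -/
def P (v : Fin N → Fin N → ℝ) (u : Fin N → Fin N → Fin N → ℝ) (c : Fin N → ℝ) : Fin N → ℝ :=
  ∑ i, c i • v i - ∑ i, ∑ j, (c i * c j) • u i j

/-- The quadratic vector field is Lipschitz on balls. -/
theorem P_lip (v : Fin N → Fin N → ℝ) (u : Fin N → Fin N → Fin N → ℝ) (R : ℝ) :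
    ∃ K : NNReal, LipschitzOnWith K (P v u) (Metric.closedBall 0 R) := by
  set V : ℝ := ∑ i, ‖v i‖ with hV
  set U : ℝ := ∑ i, ∑ j, ‖u i j‖ with hU
  have hV0 : 0 ≤ V := Finset.sum_nonneg fun _ _ => norm_nonneg _
  have hU0 : 0 ≤ U := Finset.sum_nonneg fun _ _ => Finset.sum_nonneg fun _ _ => norm_nonneg _
  refine ⟨(V + 2 * |R| * U).toNNReal, ?_⟩
  refine LipschitzOnWith.of_dist_le_mul fun c hc d hd => ?_
  rw [dist_eq_norm, dist_eq_norm, Real.coe_toNNReal _ (by positivity)]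
  rw [mem_closedBall_zero_iff] at hc hd
  have hc' : ‖c‖ ≤ |R| := hc.trans (le_abs_self R)
  have hd' : ‖d‖ ≤ |R| := hd.trans (le_abs_self R)
  have e1 : P v u c - P v u d = ∑ i, (c i - d i) • v i -
      ∑ i, ∑ j, (c i * c j - d i * d j) • u i j := by
    unfold P
    simp only [sub_smul, Finset.sum_sub_distrib]
    abel
  rw [e1]
  have hci : ∀ i, |c i| ≤ |R| := fun i => (norm_le_pi_norm c i).trans hc'
  have hdi : ∀ i, |d i| ≤ |R| := fun i => (norm_le_pi_norm d i).trans hd'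
  have hcd : ∀ i, |c i - d i| ≤ ‖c - d‖ := fun i => by
    have := norm_le_pi_norm (c - d) i
    simpa using this
  have h1 : ‖∑ i, (c i - d i) • v i‖ ≤ ‖c - d‖ * V := by
    refine (norm_sum_le _ _).trans ?_
    rw [hV, Finset.mul_sum]
    refine Finset.sum_le_sum fun i _ => ?_
    rw [norm_smul, Real.norm_eq_abs]
    exact mul_le_mul_of_nonneg_right (hcd i) (norm_nonneg _)
  have h2 : ‖∑ i, ∑ j, (c i * c j - d i * d j) • u i j‖ ≤ 2 * |R| * ‖c - d‖ * U := by
    refine (norm_sum_le _ _).trans ?_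
    rw [hU, Finset.mul_sum]
    refine Finset.sum_le_sum fun i _ => ?_
    refine (norm_sum_le _ _).trans ?_
    rw [Finset.mul_sum]
    refine Finset.sum_le_sum fun j _ => ?_
    rw [norm_smul, Real.norm_eq_abs]
    refine mul_le_mul_of_nonneg_right ?_ (norm_nonneg _)
    calc |c i * c j - d i * d j| = |(c i - d i) * c j + d i * (c j - d j)| := by ring_nf
      _ ≤ |(c i - d i) * c j| + |d i * (c j - d j)| := abs_add_le _ _
      _ = |c i - d i| * |c j| + |d i| * |c j - d j| := by rw [abs_mul, abs_mul]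
      _ ≤ ‖c - d‖ * |R| + |R| * ‖c - d‖ :=
        add_le_add (mul_le_mul (hcd i) (hci j) (abs_nonneg _) (norm_nonneg _))
          (mul_le_mul (hdi i) (hcd j) (abs_nonneg _) (abs_nonneg _))
      _ = 2 * |R| * ‖c - d‖ := by ring
  calc _ ≤ ‖∑ i, (c i - d i) • v i‖ + ‖∑ i, ∑ j, (c i * c j - d i * d j) • u i j‖ :=
        norm_sub_le _ _
    _ ≤ ‖c - d‖ * V + 2 * |R| * ‖c - d‖ * U := add_le_add h1 h2
    _ = (V + 2 * |R| * U) * ‖c - d‖ := by ring

end FdP

open FdP

theorem fd {N : ℕ} {X : Type} {T : ℝ} (hT : 0 < T) {ω lap : Fin N → X → ℝ} {nl : Fin N → Fin N → X → ℝ} (hli : ∀ c : Fin N → ℝ, (∀ x, ∑ i, c i * ω i x = 0) → c = 0) {a b a' b' : Fin N → ℝ → ℝ} (ha : ∀ i, ∀ t ∈ Ioo 0 T, HasDerivAt (a i) (a' i t) t) (hb : ∀ i, ∀ t ∈ Ioo 0 T, HasDerivAt (b i) (b' i t) t) (hac : ∀ i, ContinuousOn (a i) (Ioc 0 T)) (hbc : ∀ i, ContinuousOn (b i) (Ioc 0 T)) (hab : ∀ i, a i T = b i T) (ea : ∀ t ∈ Ioo 0 T, ∀ x, ∑ i, a' i t * ω i x = ∑ i, a i t * lap i x -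 ∑ i, ∑ j, a i t * a j t * nl i j x) (eb : ∀ t ∈ Ioo 0 T, ∀ x, ∑ i, b' i t * ω i x = ∑ i, b i t * lap i x - ∑ i, ∑ j, b i t * b j t * nl i j x) : ∀ t ∈ Ioc 0 T, ∀ i, a i t = b i t := by
  -- the linear map and its left inverse
  set Φ : (Fin N → ℝ) →ₗ[ℝ] (X → ℝ) :=
    { toFun := fun c x => ∑ i, c i * ω i x
      map_add' := fun c d => by
        funext x
        simp [add_mul, Finset.sum_add_distrib]
      map_smul' := fun r c => by
        funext x
        simp [Finset.mul_sum, mul_assoc] } with hΦ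
  have hΦv : ∀ c x, Φ c x = ∑ i, c i * ω i x := fun c x => rfl
  have hker : LinearMap.ker Φ = ⊥ := by
    rw [LinearMap.ker_eq_bot']
    intro c hc
    refine hli c fun x => ?_
    have := congrFun hc x
    rwa [hΦv] at this
  obtain ⟨g, hg⟩ := Φ.exists_leftInverse_of_injective hker
  have hgΦ : ∀ c, g (Φ c) = c := fun c => by
    have := LinearMap.congr_fun hg c
    simpa using this
  set v : Fin N → Fin N → ℝ := fun i => g (lap i) with hv
  set u : Fin N → Fin N → Fin N → ℝ := fun i j => g (nl i j) with hu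
  -- the equation
  have hode : ∀ (c c' : Fin N → ℝ), (∀ x, ∑ i, c' i * ω i x = ∑ i, c i * lap i x -
      ∑ i, ∑ j, c i * c j * nl i j x) → c' = P v u c := by
    intro c c' h
    have h1 : Φ c' = ∑ i, c i • lap i - ∑ i, ∑ j, (c i * c j) • nl i j := by
      funext x
      rw [hΦv, h x]
      simp [Finset.sum_apply]
    rw [← hgΦ c', h1, map_sub, map_sum, map_sum]
    unfold P
    congr 1
    · refine Finset.sum_congr rfl fun i _ => ?_
      rw [map_smul]
    · refine Finset.sum_congr rfl fun i _ => ?_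
      rw [map_sum]
      refine Finset.sum_congr rfl fun j _ => ?_
      rw [map_smul]
  set α : ℝ → Fin N → ℝ := fun t i => a i t with hα
  set β : ℝ → Fin N → ℝ := fun t i => b i t with hβ
  have hαd : ∀ t ∈ Ioo 0 T, HasDerivAt α (P v u (α t)) t := by
    intro t ht
    have h1 : HasDerivAt α (fun i => a' i t) t := hasDerivAt_pi.2 fun i => ha i t ht
    rwa [hode (α t) (fun i => a' i t) (ea t ht)] at h1
  have hβd : ∀ t ∈ Ioo 0 T, HasDerivAt β (P v u (β t)) t := by
    intro t ht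
    have h1 : HasDerivAt β (fun i => b' i t) t := hasDerivAt_pi.2 fun i => hb i t ht
    rwa [hode (β t) (fun i => b' i t) (eb t ht)] at h1
  have hαc : ContinuousOn α (Ioc 0 T) := continuousOn_pi.2 hac
  have hβc : ContinuousOn β (Ioc 0 T) := continuousOn_pi.2 hbc
  intro s hs
  rcases eq_or_lt_of_le hs.2 with hsT | hsT
  · intro i
    rw [hsT]
    exact hab i
  have hs0 : 0 < s := hs.1
  -- bounds
  have hsub : Icc s T ⊆ Ioc 0 T := fun t ht => ⟨hs0.trans_le ht.1, ht.2⟩
  obtain ⟨R1, hR1⟩ := isCompact_Icc.exists_bound_of_continuousOn (hαc.mono hsub)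
  obtain ⟨R2, hR2⟩ := isCompact_Icc.exists_bound_of_continuousOn (hβc.mono hsub)
  obtain ⟨K, hK⟩ := P_lip v u (max R1 R2)
  have hα' : ∀ t ∈ Icc s T, α t ∈ Metric.closedBall (0 : Fin N → ℝ) (max R1 R2) := fun t ht => by
    rw [mem_closedBall_zero_iff]
    exact (hR1 t ht).trans (le_max_left _ _)
  have hβ' : ∀ t ∈ Icc s T, β t ∈ Metric.closedBall (0 : Fin N → ℝ) (max R1 R2) := fun t ht => by
    rw [mem_closedBall_zero_iff]
    exact (hR2 t ht).trans (le_max_right _ _)
  have hKn : LipschitzOnWith K (fun c => -P v u c) (Metric.closedBall 0 (max R1 R2)) := by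
    refine LipschitzOnWith.of_dist_le_mul fun c hc d hd => ?_
    rw [dist_neg_neg]
    exact hK.dist_le_mul c hc d hd
  -- Gronwall backwards
  have hgr : ∀ T' ∈ Ioo s T, dist (α s) (β s) ≤
      dist (α T') (β T') * Real.exp (K * T) := by
    intro T' hT'
    have hT0 : 0 < T' - s := by linarith [hT'.1]
    have hmem : ∀ τ ∈ Icc 0 (T' - s), T' - τ ∈ Ioo 0 T := fun τ hτ =>
      ⟨by linarith [hτ.2], by linarith [hτ.1, hT'.2]⟩
    have hmem2 : ∀ τ ∈ Icc 0 (T' - s), T' - τ ∈ Icc s T := fun τ hτ =>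
      ⟨by linarith [hτ.2], by linarith [hτ.1, hT'.2]⟩
    have hd1 : ∀ τ ∈ Icc 0 (T' - s), HasDerivAt (fun x => α (T' - x))
        (-P v u (α (T' - τ))) τ := fun τ hτ =>
      HasDerivAt.comp_const_sub T' τ (hαd _ (hmem τ hτ))
    have hd2 : ∀ τ ∈ Icc 0 (T' - s), HasDerivAt (fun x => β (T' - x))
        (-P v u (β (T' - τ))) τ := fun τ hτ =>
      HasDerivAt.comp_const_sub T' τ (hβd _ (hmem τ hτ))
    have h := dist_le_of_trajectories_ODE_of_mem (v := fun _ c => -P v u c)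
      (s := fun _ => Metric.closedBall 0 (max R1 R2)) (K := K) (f := fun x => α (T' - x))
      (g := fun x => β (T' - x)) (a := 0) (b := T' - s) (δ := dist (α T') (β T'))
      (fun _ _ => hKn)
      (fun τ hτ => (hd1 τ hτ).continuousAt.continuousWithinAt)
      (fun τ hτ => (hd1 τ (Ico_subset_Icc_self hτ)).hasDerivWithinAt)
      (fun τ hτ => hα' _ (hmem2 τ (Ico_subset_Icc_self hτ)))
      (fun τ hτ => (hd2 τ hτ).continuousAt.continuousWithinAt)
      (fun τ hτ => (hd2 τ (Ico_subset_Icc_self hτ)).hasDerivWithinAt)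
      (fun τ hτ => hβ' _ (hmem2 τ (Ico_subset_Icc_self hτ)))
      (by simp) (T' - s) (right_mem_Icc.2 hT0.le)
    simp only [sub_sub_cancel, sub_zero] at h
    refine h.trans ?_
    refine mul_le_mul_of_nonneg_left (Real.exp_le_exp.2 ?_) dist_nonneg
    exact mul_le_mul_of_nonneg_left (by linarith [hT'.2]) K.2
  -- the limit
  have hTm : T ∈ Ioc 0 T := ⟨hT, le_rfl⟩
  have hlim : Tendsto (fun T' => dist (α T') (β T') * Real.exp (K * T)) (𝓝[Ioo s T] T) (𝓝 0) := by
    have h1 : ContinuousWithinAt (fun T' => dist (α T') (β T') * Real.exp (K * T)) (Ioc 0 T) T :=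
      ((hαc T hTm).dist (hβc T hTm)).mul continuousWithinAt_const
    have h2 : α T = β T := funext hab
    have h4 : Ioo s T ⊆ Ioc 0 T := fun t ht => ⟨hs0.trans ht.1, ht.2.le⟩
    have h3 := h1.mono h4
    have h5 : dist (α T) (β T) * Real.exp (K * T) = 0 := by rw [h2, dist_self, zero_mul]
    unfold ContinuousWithinAt at h3
    simp only [h5] at h3
    exact h3
  have hne : (𝓝[Ioo s T] T).NeBot := by
    rw [← mem_closure_iff_nhdsWithin_neBot, closure_Ioo hsT.ne]
    exact right_mem_Icc.2 hsT.le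
  have hfin : dist (α s) (β s) ≤ 0 :=
    ge_of_tendsto hlim (eventually_nhdsWithin_of_forall hgr)
  have heq : α s = β s := dist_le_zero.1 hfin
  intro i
  exact congrFun heq i

end Pool.Agent.W5h62.FW
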