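import Pool.Agent.W5h62.FW.DefsF

/-! Finite-dimensional families: the curl of the equation. -/

set_option autoImplicit false

namespace Pool.Agent.W5h62.FN

open Set Filter Topology

section fx
variable {V : Type*} [NormedAddCommGroup V] [NormedSpace ℝ V]

/-- Derivatives in space of a function of time and space. -/
theorem fx_space {F : ℝ × V → ℝ} {t : ℝ} {x : V} (h : DifferentiableAt ℝ F (t, x)) (e : V) :
    pd ((0 : ℝ), e) F (t, x) = pd e (fun y => F (t, y)) x := by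
  have h1 : HasFDerivAt (fun y : V => ((t, y) : ℝ × V))
      ((0 : V →L[ℝ] ℝ).prod (ContinuousLinearMap.id ℝ V)) x :=
    (hasFDerivAt_const t x).prodMk (hasFDerivAt_id x)
  have h2 : HasFDerivAt (fun y => F (t, y)) ((fderiv ℝ F (t, x)).comp
      ((0 : V →L[ℝ] ℝ).prod (ContinuousLinearMap.id ℝ V))) x :=
    HasFDerivAt.comp x (f := fun y : V => ((t, y) : ℝ × V)) h.hasFDerivAt h1
  unfold pd
  rw [h2.fderiv]
  rfl

/-- The derivative in time of a function of time and space. -/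
theorem fx_time {F : ℝ × V → ℝ} {t : ℝ} {x : V} (h : DifferentiableAt ℝ F (t, x)) {c : ℝ}
    (hc : HasDerivAt (fun s => F (s, x)) c t) : pd et F (t, x) = c := by
  have h1 : HasDerivAt (fun s : ℝ => ((s, x) : ℝ × V)) (1, 0) t :=
    (hasDerivAt_id t).prodMk (hasDerivAt_const t x)
  have h2 : HasDerivAt (fun s => F (s, x)) (fderiv ℝ F (t, x) (1, 0)) t :=
    HasFDerivAt.comp_hasDerivAt t (f := fun s : ℝ => ((s, x) : ℝ × V)) h.hasFDerivAt h1
  exact h2.unique hc

theorem fx_cmul {f : V → ℝ} {x : V} (h : DifferentiableAt ℝ f x) (c : ℝ) (e : V) :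
    pd e (fun y => c * f y) x = c * pd e f x := by
  unfold pd
  rw [fderiv_const_mul h]
  rfl

theorem fx_lin {ι : Type*} (s : Finset ι) (c : ι → ℝ) {f : ι → V → ℝ} {x : V}
    (h : ∀ i, DifferentiableAt ℝ (f i) x) (e : V) :
    pd e (fun y => ∑ i ∈ s, c i * f i y) x = ∑ i ∈ s, c i * pd e (f i) x := by
  rw [pd_sum' s e fun i _ => (h i).const_mul (c i)]
  exact Finset.sum_congr rfl fun i _ => fx_cmul (h i) (c i) e

theorem fx_pd {O : Set V} (hO : IsOpen O) {F : V → ℝ} (h : ContDiffOn ℝ 2 F O) {z : V}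
    (hz : z ∈ O) (e : V) : DifferentiableAt ℝ (pd e F) z := by
  have h2 : ContDiffOn ℝ 1 (fun z => fderiv ℝ F z) O :=
    h.fderiv_of_isOpen hO (by norm_num)
  have h3 : ContDiffOn ℝ 1 (pd e F) O := h2.clm_apply contDiffOn_const
  exact (h3.contDiffAt (hO.mem_nhds hz)).differentiableAt (by simp)

theorem fx_comm {O : Set V} (hO : IsOpen O) {F : V → ℝ} (h : ContDiffOn ℝ 2 F O) {z : V}
    (hz : z ∈ O) (e e' : V) : pd e (pd e' F) z = pd e' (pd e F) z := by
  have h1 : ContDiffAt ℝ 2 F z := h.contDiffAt (hO.mem_nhds hz)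
  have hs : IsSymmSndFDerivAt ℝ F z := h1.isSymmSndFDerivAt (by
    simp only [minSmoothness_of_isRCLikeNormedField]; exact le_rfl)
  have hd : DifferentiableAt ℝ (fun z => fderiv ℝ F z) z := by
    have h2 : ContDiffOn ℝ 1 (fun z => fderiv ℝ F z) O :=
      h.fderiv_of_isOpen hO (by norm_num)
    exact (h2.contDiffAt (hO.mem_nhds hz)).differentiableAt (by simp)
  have key : ∀ a b : V, pd a (pd b F) z = fderiv ℝ (fderiv ℝ F) z a b := by
    intro a b
    unfold pd
    rw [fderiv_clm_apply hd (differentiableAt_const b)]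
    simp
  rw [key, key]
  exact hs e e'

end fx

theorem fam_eq {d N : ℕ} {T : ℝ} {Ω : Set (Fin d → ℝ)} (hΩ : IsOpen Ω)
    {u : Fin d → ℝ × (Fin d → ℝ) → ℝ} {p : ℝ × (Fin d → ℝ) → ℝ} (ns : IsNS (Ioo 0 T ×ˢ Ω) u p)
    {W : Fin N → Fin d → (Fin d → ℝ) → ℝ} (hW : ∀ k i, ContDiffOn ℝ (⊤ : ℕ∞) (W k i) Ω)
    {a a' : Fin N → ℝ → ℝ} (ha : ∀ k, ∀ t ∈ Ioo 0 T, HasDerivAt (a k) (a' k t) t)
    (hu : ∀ i, ∀ t ∈ Ioo 0 T, ∀ x ∈ Ω, u i (t, x) = ∑ k, a k t * W k i x) :
    ∀ t ∈ Ioo 0 T, ∀ i j, ∀ x ∈ Ω,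
      ∑ k, a' k t * (pd (bv j) (W k i) x - pd (bv i) (W k j) x) =
        ∑ k, a k t * (pd (bv j) (Lp W k i) x - pd (bv i) (Lp W k j) x) -
        ∑ k, ∑ l, a k t * a l t * (pd (bv j) (Nl W k l i) x - pd (bv i) (Nl W k l j) x) := by
  intro t ht
  have hO : IsOpen (Ioo 0 T ×ˢ Ω) := isOpen_Ioo.prod hΩ
  have hWd : ∀ k i, ∀ x ∈ Ω, DifferentiableAt ℝ (W k i) x := fun k i x hx =>
    sm_diff hΩ (hW k i) hx
  have hWp : ∀ k i m, Sm Ω (pd (bv m) (W k i)) := fun k i m => sm_pd hΩ (hW k i) (bv m)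
  have hLp : ∀ k i, Sm Ω (Lp W k i) := fun k i =>
    sm_sum Finset.univ fun m => sm_pd hΩ (hWp k i m) (bv m)
  have hNl : ∀ k l i, Sm Ω (Nl W k l i) := fun k l i =>
    sm_sum Finset.univ fun m => (hW k m).mul (hWp l i m)
  have hud : ∀ i, ∀ x ∈ Ω, DifferentiableAt ℝ (u i) (t, x) := fun i x hx =>
    ((ns.smooth_u i).contDiffAt (hO.mem_nhds ⟨ht, hx⟩)).differentiableAt (by simp)
  -- first derivatives
  have e1 : ∀ i m, ∀ x ∈ Ω, pd (es m) (u i) (t, x) = ∑ k, a k t * pd (bv m) (W k i) x := by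
    intro i m x hx
    unfold es
    rw [fx_space (hud i x hx), pd_congr hΩ (fun y hy => hu i t ht y hy) hx,
      fx_lin _ _ fun k => hWd k i x hx]
  have e2 : ∀ i, ∀ x ∈ Ω, pd et (u i) (t, x) = ∑ k, a' k t * W k i x := by
    intro i x hx
    refine fx_time (hud i x hx) ?_
    have h1 : HasDerivAt (fun s => ∑ k, a k s * W k i x) (∑ k, a' k t * W k i x) t :=
      HasDerivAt.fun_sum fun k _ => (ha k t ht).mul_const (W k i x)
    refine h1.congr_of_eventuallyEq ?_
    filter_upwards [isOpen_Ioo.mem_nhds ht] with s hs using hu i s hs x hx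
  have e3 : ∀ i m, ∀ x ∈ Ω, pd (es m) (pd (es m) (u i)) (t, x) =
      ∑ k, a k t * pd (bv m) (pd (bv m) (W k i)) x := by
    intro i m x hx
    have h1 : DifferentiableAt ℝ (pd (es m) (u i)) (t, x) :=
      fx_pd hO (ns.smooth_u i) ⟨ht, hx⟩ (es m)
    have h2 : pd (es m) (pd (es m) (u i)) (t, x) =
        pd (bv m) (fun y => pd (es m) (u i) (t, y)) x := fx_space h1 (bv m)
    rw [h2, pd_congr hΩ (fun y hy => e1 i m y hy) hx,
      fx_lin _ _ fun k => sm_diff hΩ (hWp k i m) hx]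
  -- the pressure
  set R : Fin d → (Fin d → ℝ) → ℝ := fun i y => ∑ k, a' k t * W k i y +
    ∑ k, ∑ l, a k t * a l t * Nl W k l i y - ∑ k, a k t * Lp W k i y with hR
  have hpc : ContDiffOn ℝ 2 (fun y => p (t, y)) Ω := by
    refine ns.smooth_p.comp (contDiffOn_const.prodMk contDiffOn_id) ?_
    intro y hy
    exact ⟨ht, hy⟩
  have e4 : ∀ i, ∀ x ∈ Ω, pd (bv i) (fun y => p (t, y)) x = -R i x := by
    intro i x hx
    have h1 : DifferentiableAt ℝ p (t, x) :=
      (ns.smooth_p.contDiffAt (hO.mem_nhds ⟨ht, hx⟩)).differentiableAt (by simp)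
    rw [← fx_space h1]
    have h2 := ns.eq i (t, x) ⟨ht, hx⟩
    rw [e2 i x hx] at h2
    have h3 : ∑ j, u j (t, x) * pd (es j) (u i) (t, x) =
        ∑ k, ∑ l, a k t * a l t * Nl W k l i x := by
      have h4 : ∀ j, u j (t, x) * pd (es j) (u i) (t, x) =
          ∑ k, ∑ l, a k t * a l t * (W k j x * pd (bv j) (W l i) x) := by
        intro j
        rw [hu j t ht x hx, e1 i j x hx, Finset.sum_mul_sum]
        exact Finset.sum_congr rfl fun k _ => Finset.sum_congr rfl fun l _ => by ring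
      rw [Finset.sum_congr rfl fun j _ => h4 j, Finset.sum_comm]
      refine Finset.sum_congr rfl fun k _ => ?_
      rw [Finset.sum_comm]
      refine Finset.sum_congr rfl fun l _ => ?_
      unfold Nl
      rw [Finset.mul_sum]
    have h5 : ∑ j, pd (es j) (pd (es j) (u i)) (t, x) = ∑ k, a k t * Lp W k i x := by
      rw [Finset.sum_congr rfl fun j _ => e3 i j x hx, Finset.sum_comm]
      refine Finset.sum_congr rfl fun k _ => ?_
      unfold Lp
      rw [Finset.mul_sum]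
    rw [h3, h5] at h2
    have h6 : pd (es i) p (t, x) = pd ((0 : ℝ), bv i) p (t, x) := rfl
    rw [h6] at h2
    simp only [hR]
    linarith
  -- derivatives of R
  have e5 : ∀ i m, ∀ x ∈ Ω, pd (bv m) (fun y => -R i y) x =
      -(∑ k, a' k t * pd (bv m) (W k i) x + ∑ k, ∑ l, a k t * a l t * pd (bv m) (Nl W k l i) x -
        ∑ k, a k t * pd (bv m) (Lp W k i) x) := by
    intro i m x hx
    have d1 : DifferentiableAt ℝ (fun y => ∑ k, a' k t * W k i y) x :=
      DifferentiableAt.fun_sum fun k _ => (hWd k i x hx).const_mul _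
    have d2 : ∀ k, DifferentiableAt ℝ (fun y => ∑ l, a k t * a l t * Nl W k l i y) x := fun k =>
      DifferentiableAt.fun_sum fun l _ => (sm_diff hΩ (hNl k l i) hx).const_mul _
    have d2' : DifferentiableAt ℝ (fun y => ∑ k, ∑ l, a k t * a l t * Nl W k l i y) x :=
      DifferentiableAt.fun_sum fun k _ => d2 k
    have d3 : DifferentiableAt ℝ (fun y => ∑ k, a k t * Lp W k i y) x :=
      DifferentiableAt.fun_sum fun k _ => (sm_diff hΩ (hLp k i) hx).const_mul _
    have hneg : pd (bv m) (fun y => -R i y) x = -pd (bv m) (R i) x := by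
      unfold pd
      rw [fderiv_fun_neg]
      rfl
    rw [hneg]
    congr 1
    simp only [hR]
    rw [pd_sub' (bv m) (d1.fun_add d2') d3, pd_add' (bv m) d1 d2',
      pd_sum' Finset.univ (bv m) fun k _ => d2 k, fx_lin _ _ fun k => hWd k i x hx,
      fx_lin _ _ fun k => sm_diff hΩ (hLp k i) hx]
    congr 2
    exact Finset.sum_congr rfl fun k _ => fx_lin _ _ (fun l => sm_diff hΩ (hNl k l i) hx) _
  intro i j x hx
  have h7 := fx_comm hΩ hpc hx (bv j) (bv i)
  rw [pd_congr hΩ (fun y hy => e4 i y hy) hx, pd_congr hΩ (fun y hy => e4 j y hy) hx,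
    e5 i j x hx, e5 j i x hx] at h7
  simp only [mul_sub, Finset.sum_sub_distrib]
  linarith

end Pool.Agent.W5h62.FN
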