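import Pool.Agent.Q176.WL.A1

/-! Vorticity equation for a finite-dimensional family of velocity fields (for MP_79abb3_an). -/

namespace Pool.Agent.W5h62.FW

open Set Pool.Agent.Q176.WL

noncomputable def vo {N : ℕ} (A B : Fin N → ℝ × ℝ → ℝ) (i : Fin N) : ℝ × ℝ → ℝ :=
  fun z => dx (B i) z - dy (A i) z

/-- derivative of a separated sum -/
theorem sep_fderiv {N : ℕ} {a a' : Fin N → ℝ → ℝ} {F : Fin N → ℝ × ℝ → ℝ} {t : ℝ} {z : ℝ × ℝ}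
    (ha : ∀ i, HasDerivAt (a i) (a' i t) t) (hF : ∀ i, DifferentiableAt ℝ (F i) z) (e : E) :
    pd e (fun q : E => ∑ i, a i q.1 * F i q.2) (t, z) =
      e.1 * ∑ i, a' i t * F i z + ∑ i, a i t * fderiv ℝ (F i) z e.2 := by
  have h1 : ∀ i, HasFDerivAt (fun q : E => a i q.1)
      ((ContinuousLinearMap.toSpanSingleton ℝ (a' i t)).comp
        (ContinuousLinearMap.fst ℝ ℝ (ℝ × ℝ))) (t, z) := by
    intro i
    exact HasFDerivAt.comp (g := a i) (f := fun q : E => q.1) (t, z) (ha i).hasFDerivAt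
      hasFDerivAt_fst
  have h2 : ∀ i, HasFDerivAt (fun q : E => F i q.2)
      ((fderiv ℝ (F i) z).comp (ContinuousLinearMap.snd ℝ ℝ (ℝ × ℝ))) (t, z) := by
    intro i
    exact HasFDerivAt.comp (g := F i) (f := fun q : E => q.2) (t, z) (hF i).hasFDerivAt
      hasFDerivAt_snd
  have h3 := HasFDerivAt.fun_sum (u := Finset.univ) (fun i _ => (h1 i).fun_mul (h2 i))
  unfold pd
  rw [h3.fderiv]
  simp only [ContinuousLinearMap.sum_apply, ContinuousLinearMap.add_apply,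
    ContinuousLinearMap.smul_apply, ContinuousLinearMap.comp_apply,
    ContinuousLinearMap.coe_fst', ContinuousLinearMap.coe_snd', smul_eq_mul,
    ContinuousLinearMap.toSpanSingleton_apply]
  rw [Finset.sum_add_distrib, add_comm, Finset.mul_sum]
  congr 1
  refine Finset.sum_congr rfl fun i _ => ?_
  ring

theorem sep_et {N : ℕ} {a a' : Fin N → ℝ → ℝ} {F : Fin N → ℝ × ℝ → ℝ} {t : ℝ} {z : ℝ × ℝ}
    (ha : ∀ i, HasDerivAt (a i) (a' i t) t) (hF : ∀ i, DifferentiableAt ℝ (F i) z) :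
    pd et (fun q : E => ∑ i, a i q.1 * F i q.2) (t, z) = ∑ i, a' i t * F i z := by
  rw [sep_fderiv ha hF et]
  have : ∀ i, fderiv ℝ (F i) z (et.2) = 0 := by
    intro i
    have : (et.2 : ℝ × ℝ) = 0 := rfl
    rw [this, map_zero]
  simp only [this, mul_zero, Finset.sum_const_zero, add_zero]
  show (1 : ℝ) * _ = _
  rw [one_mul]

theorem sep_ex {N : ℕ} {a a' : Fin N → ℝ → ℝ} {F : Fin N → ℝ × ℝ → ℝ} {t : ℝ} {z : ℝ × ℝ}
    (ha : ∀ i, HasDerivAt (a i) (a' i t) t) (hF : ∀ i, DifferentiableAt ℝ (F i) z) :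
    pd ex (fun q : E => ∑ i, a i q.1 * F i q.2) (t, z) = ∑ i, a i t * dx (F i) z := by
  rw [sep_fderiv ha hF ex]
  show (0 : ℝ) * _ + _ = _
  rw [zero_mul, zero_add]
  rfl

theorem sep_ey {N : ℕ} {a a' : Fin N → ℝ → ℝ} {F : Fin N → ℝ × ℝ → ℝ} {t : ℝ} {z : ℝ × ℝ}
    (ha : ∀ i, HasDerivAt (a i) (a' i t) t) (hF : ∀ i, DifferentiableAt ℝ (F i) z) :
    pd ey (fun q : E => ∑ i, a i q.1 * F i q.2) (t, z) = ∑ i, a i t * dy (F i) z := by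
  rw [sep_fderiv ha hF ey]
  show (0 : ℝ) * _ + _ = _
  rw [zero_mul, zero_add]
  rfl

theorem d_smooth {Ω : Set (ℝ × ℝ)} (hΩ : IsOpen Ω) {f : ℝ × ℝ → ℝ} {n : ℕ}
    (h : ContDiffOn ℝ ((n + 1 : ℕ) : ℕ∞) f Ω) :
    ContDiffOn ℝ (n : ℕ∞) (dx f) Ω ∧ ContDiffOn ℝ (n : ℕ∞) (dy f) Ω := by
  have h1 : ContDiffOn ℝ (n : ℕ∞) (fun z => fderiv ℝ f z) Ω :=
    h.fderiv_of_isOpen hΩ (by norm_cast)
  exact ⟨h1.clm_apply contDiffOn_const, h1.clm_apply contDiffOn_const⟩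

theorem d_diff {Ω : Set (ℝ × ℝ)} (hΩ : IsOpen Ω) {f : ℝ × ℝ → ℝ} {n : ℕ} (hn : n ≠ 0)
    (h : ContDiffOn ℝ (n : ℕ∞) f Ω) {z : ℝ × ℝ} (hz : z ∈ Ω) : DifferentiableAt ℝ f z := by
  have h1 : ContDiffAt ℝ (n : ℕ∞) f z := h.contDiffAt (hΩ.mem_nhds hz)
  exact h1.differentiableAt (by exact_mod_cast hn)

theorem fdns {Ω : Set (ℝ × ℝ)} (hΩ : IsOpen Ω) {N : ℕ} {A B : Fin N → ℝ × ℝ → ℝ}
    (hA : ∀ i, ContDiffOn ℝ 3 (A i) Ω) (hB : ∀ i, ContDiffOn ℝ 3 (B i) Ω) {T : ℝ}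
    {u v p : E → ℝ} (hns : IsNS (Ioo 0 T ×ˢ Ω) u v p) {a a' : Fin N → ℝ → ℝ}
    (ha : ∀ i, ∀ t ∈ Ioo 0 T, HasDerivAt (a i) (a' i t) t)
    (hu : ∀ t ∈ Ioo 0 T, ∀ z ∈ Ω, u (t, z) = ∑ i, a i t * A i z)
    (hv : ∀ t ∈ Ioo 0 T, ∀ z ∈ Ω, v (t, z) = ∑ i, a i t * B i z) :
    ∀ t ∈ Ioo 0 T, ∀ z ∈ Ω, ∑ i, a' i t * vo A B i z =
      ∑ i, a i t * (dx (dx (vo A B i)) z + dy (dy (vo A B i)) z) -
      ∑ i, ∑ j, a i t * a j t * (A i z * dx (vo A B j) z + B i z * dy (vo A B j) z) := by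
  have hO : IsOpen (Ioo 0 T ×ˢ Ω : Set E) := isOpen_Ioo.prod hΩ
  have A3 : ∀ i, ContDiffOn ℝ ((3 : ℕ) : ℕ∞) (A i) Ω := fun i => by exact_mod_cast hA i
  have B3 : ∀ i, ContDiffOn ℝ ((3 : ℕ) : ℕ∞) (B i) Ω := fun i => by exact_mod_cast hB i
  have V2 : ∀ i, ContDiffOn ℝ ((2 : ℕ) : ℕ∞) (vo A B i) Ω := fun i =>
    (d_smooth hΩ (B3 i)).1.sub (d_smooth hΩ (A3 i)).2
  have V1x : ∀ i, ContDiffOn ℝ ((1 : ℕ) : ℕ∞) (dx (vo A B i)) Ω := fun i => (d_smooth hΩ (V2 i)).1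
  have V1y : ∀ i, ContDiffOn ℝ ((1 : ℕ) : ℕ∞) (dy (vo A B i)) Ω := fun i => (d_smooth hΩ (V2 i)).2
  set w : E → ℝ := fun q => ∑ i, a i q.1 * vo A B i q.2 with hwdef
  have hw : ∀ q ∈ (Ioo 0 T ×ˢ Ω : Set E), w q = pd ex v q - pd ey u q := by
    rintro ⟨t, z⟩ ⟨ht, hz⟩
    have e1 : pd ex v (t, z) = ∑ i, a i t * dx (B i) z := by
      rw [pd_congr hO (G := fun q : E => ∑ i, a i q.1 * B i q.2)
        (fun q hq => hv q.1 hq.1 q.2 hq.2) ⟨ht, hz⟩ ex]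
      exact sep_ex (a' := a') (fun i => ha i t ht) (fun i => d_diff hΩ (by norm_num) (B3 i) hz)
    have e2 : pd ey u (t, z) = ∑ i, a i t * dy (A i) z := by
      rw [pd_congr hO (G := fun q : E => ∑ i, a i q.1 * A i q.2)
        (fun q hq => hu q.1 hq.1 q.2 hq.2) ⟨ht, hz⟩ ey]
      exact sep_ey (a' := a') (fun i => ha i t ht) (fun i => d_diff hΩ (by norm_num) (A3 i) hz)
    rw [e1, e2, ← Finset.sum_sub_distrib]
    refine Finset.sum_congr rfl fun i _ => ?_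
    simp only [vo]
    ring
  obtain ⟨-, hvor⟩ := vorticity_eq hO hns hw
  intro t ht z hz
  have key := hvor (t, z) ⟨ht, hz⟩
  have wt : pd et w (t, z) = ∑ i, a' i t * vo A B i z :=
    sep_et (fun i => ha i t ht) (fun i => d_diff hΩ (by norm_num) (V2 i) hz)
  have wx : ∀ q ∈ (Ioo 0 T ×ˢ Ω : Set E), pd ex w q = ∑ i, a i q.1 * dx (vo A B i) q.2 := by
    rintro ⟨s, y⟩ ⟨hs, hy⟩
    exact sep_ex (a' := a') (fun i => ha i s hs) (fun i => d_diff hΩ (by norm_num) (V2 i) hy)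
  have wy : ∀ q ∈ (Ioo 0 T ×ˢ Ω : Set E), pd ey w q = ∑ i, a i q.1 * dy (vo A B i) q.2 := by
    rintro ⟨s, y⟩ ⟨hs, hy⟩
    exact sep_ey (a' := a') (fun i => ha i s hs) (fun i => d_diff hΩ (by norm_num) (V2 i) hy)
  have wxx : pd ex (pd ex w) (t, z) = ∑ i, a i t * dx (dx (vo A B i)) z := by
    rw [pd_congr hO wx ⟨ht, hz⟩ ex]
    exact sep_ex (a' := a') (fun i => ha i t ht) (fun i => d_diff hΩ (by norm_num) (V1x i) hz)
  have wyy : pd ey (pd ey w) (t, z) = ∑ i, a i t * dy (dy (vo A B i)) z := by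
    rw [pd_congr hO wy ⟨ht, hz⟩ ey]
    exact sep_ey (a' := a') (fun i => ha i t ht) (fun i => d_diff hΩ (by norm_num) (V1y i) hz)
  rw [wt, wx _ ⟨ht, hz⟩, wy _ ⟨ht, hz⟩, wxx, wyy, hu t ht z hz, hv t ht z hz,
    Finset.sum_mul_sum, Finset.sum_mul_sum] at key
  have r1 : ∑ i, a i t * (dx (dx (vo A B i)) z + dy (dy (vo A B i)) z) =
      ∑ i, a i t * dx (dx (vo A B i)) z + ∑ i, a i t * dy (dy (vo A B i)) z := by
    rw [← Finset.sum_add_distrib]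
    exact Finset.sum_congr rfl fun i _ => by ring
  have r2 : ∑ i, ∑ j, a i t * a j t * (A i z * dx (vo A B j) z + B i z * dy (vo A B j) z) =
      ∑ i, ∑ j, a i t * A i z * (a j t * dx (vo A B j) z) +
      ∑ i, ∑ j, a i t * B i z * (a j t * dy (vo A B j) z) := by
    rw [← Finset.sum_add_distrib]
    refine Finset.sum_congr rfl fun i _ => ?_
    rw [← Finset.sum_add_distrib]
    exact Finset.sum_congr rfl fun j _ => by ring
  rw [r1, r2]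
  simp only at key
  linear_combination key

end Pool.Agent.W5h62.FW
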