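import Pool.Agent.W5h62.FW.DefsN

/-! Gradient bound for harmonic functions in a cube (Gilbarg-Trudinger 3.4). -/

namespace Pool.Agent.W5h62.FN

open Set Filter Topology

namespace Gr

/-- `f` has second derivative `c` at `y` in the direction `e`. -/
def D2 {V : Type*} [NormedAddCommGroup V] [NormedSpace ℝ V] (f : V → ℝ) (y e : V) (c : ℝ) : Prop :=
  ∃ f' : ℝ → ℝ, (∀ᶠ s in 𝓝 (0 : ℝ), HasDerivAt (fun s : ℝ => f (y + s • e)) (f' s) s) ∧
    HasDerivAt f' c 0

section

variable {V : Type*} [NormedAddCommGroup V] [NormedSpace ℝ V]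

theorem D2.add {f g : V → ℝ} {y e : V} {a b : ℝ} (hf : D2 f y e a) (hg : D2 g y e b) :
    D2 (fun z => f z + g z) y e (a + b) := by
  obtain ⟨f', hf1, hf2⟩ := hf
  obtain ⟨g', hg1, hg2⟩ := hg
  refine ⟨fun s => f' s + g' s, ?_, hf2.add hg2⟩
  filter_upwards [hf1, hg1] with s h1 h2
  exact h1.add h2

theorem D2.const_mul {f : V → ℝ} {y e : V} {a : ℝ} (k : ℝ) (hf : D2 f y e a) :
    D2 (fun z => k * f z) y e (k * a) := by
  obtain ⟨f', hf1, hf2⟩ := hf
  refine ⟨fun s => k * f' s, ?_, hf2.const_mul k⟩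
  filter_upwards [hf1] with s h1
  exact h1.const_mul k

theorem D2.nonpos {f : V → ℝ} {y e : V} {c : ℝ} (hf : D2 f y e c) (hm : IsLocalMax f y) :
    c ≤ 0 := by
  obtain ⟨f', hf1, hf2⟩ := hf
  by_contra hc
  push Not at hc
  set φ : ℝ → ℝ := fun s => f (y + s • e) with hφ
  have hcont : ContinuousAt (fun s : ℝ => y + s • e) 0 := by fun_prop
  have hmax : IsLocalMax φ 0 := by
    have hm' : ∀ᶠ z in 𝓝 (y + (0 : ℝ) • e), f z ≤ f y := by
      rw [zero_smul, add_zero]; exact hm
    have := hcont.eventually hm'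
    filter_upwards [this] with s hs
    simpa [hφ] using hs
  have hd0 : HasDerivAt φ (f' 0) 0 := hf1.self_of_nhds
  have h0 : f' 0 = 0 := hmax.hasDerivAt_eq_zero hd0
  have hdd : deriv φ =ᶠ[𝓝 0] f' := by
    filter_upwards [hf1] with s hs
    exact hs.deriv
  have h2 : deriv (deriv φ) 0 = c := by
    rw [hdd.deriv_eq, hf2.deriv]
  have hmin : IsLocalMin φ 0 :=
    isLocalMin_of_deriv_deriv_pos (by rw [h2]; exact hc) (by rw [hd0.deriv, h0])
      hd0.continuousAt
  have hconst : φ =ᶠ[𝓝 0] fun _ => φ 0 := by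
    filter_upwards [hmax, hmin] with s h1 h3
    exact le_antisymm h1 h3
  have h3 : deriv φ =ᶠ[𝓝 0] fun _ => (0 : ℝ) := by
    have := hconst.deriv
    simpa using this
  have h4 : deriv (deriv φ) 0 = 0 := by
    rw [h3.deriv_eq]; simp
  linarith

end

variable {d : ℕ}

theorem pd_hasDerivAt {U : Set (Fin d → ℝ)} (hU : IsOpen U) {h : (Fin d → ℝ) → ℝ}
    (hh : ContDiffOn ℝ (⊤ : ℕ∞) h U) {y : Fin d → ℝ} (hy : y ∈ U) (e : Fin d → ℝ) :
    D2 h y e (pd e (pd e h) y) := by
  have hd : ∀ z ∈ U, HasFDerivAt h (fderiv ℝ h z) z := by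
    intro z hz
    have := (hh.contDiffAt (hU.mem_nhds hz)).differentiableAt (by simp)
    exact this.hasFDerivAt
  have hline : ∀ s : ℝ, HasDerivAt (fun s : ℝ => y + s • e) e s := by
    intro s
    have := ((hasDerivAt_id s).smul_const e).const_add y
    simpa using this
  have hcont : ContinuousAt (fun s : ℝ => y + s • e) 0 := by fun_prop
  have hev : ∀ᶠ s in 𝓝 (0 : ℝ), y + s • e ∈ U := by
    apply hcont.eventually
    simpa using hU.mem_nhds hy
  have hfd : ContDiffOn ℝ 1 (fderiv ℝ h) U :=
    hh.fderiv_of_isOpen hU (by norm_cast)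
  have hpd : ContDiffOn ℝ 1 (pd e h) U := by
    have : ContDiffOn ℝ 1 (fun z => fderiv ℝ h z e) U := hfd.clm_apply contDiffOn_const
    exact this
  have hpdd : HasFDerivAt (pd e h) (fderiv ℝ (pd e h) (y + (0 : ℝ) • e)) (y + (0 : ℝ) • e) := by
    have := (hpd.contDiffAt (hU.mem_nhds hy)).differentiableAt (by simp)
    simpa using this.hasFDerivAt
  refine ⟨fun s => pd e h (y + s • e), ?_, ?_⟩
  · filter_upwards [hev] with s hs
    exact (hd _ hs).comp_hasDerivAt s (hline s)
  · have := hpdd.comp_hasDerivAt (0 : ℝ) (hline 0)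
    have h2 : (fderiv ℝ (pd e h) (y + (0 : ℝ) • e)) e = pd e (pd e h) y := by
      simp [pd]
    rw [h2] at this
    exact this

/-- Reflection in the hyperplane `y_i = x_i`. -/
def refl (x : Fin d → ℝ) (i : Fin d) (y : Fin d → ℝ) : Fin d → ℝ :=
  fun j => if j = i then 2 * x i - y i else y j

theorem refl_line_ne (x : Fin d → ℝ) {i j : Fin d} (hij : j ≠ i) (y : Fin d → ℝ) (s : ℝ) :
    refl x i (y + s • bv j) = refl x i y + s • bv j := by
  ext m
  by_cases hm : m = i
  · subst hm
    simp [refl, bv, Pi.single_eq_of_ne hij.symm]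
  · simp [refl, hm]

theorem refl_line_eq (x : Fin d → ℝ) (i : Fin d) (y : Fin d → ℝ) (s : ℝ) :
    refl x i (y + s • bv i) = refl x i y + s • (-bv i) := by
  ext m
  by_cases hm : m = i
  · subst hm
    simp [refl, bv]
    ring
  · simp [refl, bv, hm]

theorem continuous_refl (x : Fin d → ℝ) (i : Fin d) : Continuous (refl x i) := by
  refine continuous_pi fun j => ?_
  unfold refl
  by_cases hj : j = i
  · simp only [hj, if_true]
    fun_prop
  · simp only [hj, if_false]
    fun_prop

theorem refl_mem {x : Fin d → ℝ} {r : ℝ} (hr : 0 < r) (i : Fin d) {y : Fin d → ℝ}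
    (hy : y ∈ Metric.closedBall x r) : refl x i y ∈ Metric.closedBall x r := by
  rw [Metric.mem_closedBall, dist_pi_le_iff hr.le] at hy ⊢
  intro j
  by_cases hj : j = i
  · subst hj
    have := hy j
    rw [Real.dist_eq] at this ⊢
    simp only [refl, if_true]
    rw [show 2 * x j - y j - x j = -(y j - x j) by ring, abs_neg]
    exact this
  · simp only [refl, hj, if_false]
    exact hy j

theorem pd_neg (h : (Fin d → ℝ) → ℝ) (e y : Fin d → ℝ) :
    pd (-e) (pd (-e) h) y = pd e (pd e h) y := by
  have h1 : pd (-e) h = fun z => - pd e h z := by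
    funext z; simp [pd]
  rw [h1]
  unfold pd
  rw [fderiv_fun_neg]
  simp

theorem D2_refl {U : Set (Fin d → ℝ)} (hU : IsOpen U) {h : (Fin d → ℝ) → ℝ}
    (hh : ContDiffOn ℝ (⊤ : ℕ∞) h U) {x y : Fin d → ℝ} {i : Fin d} (hy : refl x i y ∈ U)
    (j : Fin d) :
    D2 (fun z => h (refl x i z)) y (bv j) (pd (bv j) (pd (bv j) h) (refl x i y)) := by
  by_cases hj : j = i
  · subst hj
    obtain ⟨f', h1, h2⟩ := pd_hasDerivAt hU hh hy (-bv j)
    rw [pd_neg] at h2
    refine ⟨f', ?_, h2⟩
    simpa only [refl_line_eq] using h1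
  · obtain ⟨f', h1, h2⟩ := pd_hasDerivAt hU hh hy (bv j)
    refine ⟨f', ?_, h2⟩
    simpa only [refl_line_ne x hj] using h1

/-- The quadratic polynomial. -/
def quad (x : Fin d → ℝ) (i : Fin d) (a b k : ℝ) (y : Fin d → ℝ) : ℝ :=
  a * ∑ m, (y m - x m) ^ 2 + (b * (y i - x i) ^ 2 + k * (y i - x i))

theorem D2_quad (x : Fin d → ℝ) (i : Fin d) (a b k : ℝ) (y : Fin d → ℝ) (j : Fin d) :
    D2 (quad x i a b k) y (bv j) (2 * a + if j = i then 2 * b else 0) := by
  have hco : ∀ (m : Fin d) (s : ℝ), HasDerivAt (fun s : ℝ => (y + s • bv j) m - x m)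
      ((bv j : Fin d → ℝ) m) s := by
    intro m s
    have := (((hasDerivAt_id s).mul_const ((bv j : Fin d → ℝ) m)).const_add (y m)).sub_const (x m)
    simpa using this
  refine ⟨fun s => a * ∑ m, (2 * ((y + s • bv j) m - x m) * (bv j : Fin d → ℝ) m)
      + (b * (2 * ((y + s • bv j) i - x i) * (bv j : Fin d → ℝ) i)
        + k * (bv j : Fin d → ℝ) i), ?_, ?_⟩
  · refine Eventually.of_forall fun s => ?_
    have h1 : HasDerivAt (fun s : ℝ => ∑ m, ((y + s • bv j) m - x m) ^ 2)
        (∑ m, (2 * ((y + s • bv j) m - x m) * (bv j : Fin d → ℝ) m)) s := by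
      have := HasDerivAt.fun_sum (u := (Finset.univ : Finset (Fin d)))
        (A := fun m (s : ℝ) => ((y + s • bv j) m - x m) ^ 2)
        (A' := fun m => 2 * ((y + s • bv j) m - x m) * (bv j : Fin d → ℝ) m) (x := s)
        (fun m _ => by
          have := (hco m s).fun_pow 2
          simpa using this)
      exact this
    have h2 : HasDerivAt (fun s : ℝ => ((y + s • bv j) i - x i) ^ 2)
        (2 * ((y + s • bv j) i - x i) * (bv j : Fin d → ℝ) i) s := by
      have := (hco i s).fun_pow 2
      simpa using this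
    have := (h1.const_mul a).add ((h2.const_mul b).add ((hco i s).const_mul k))
    exact this
  · have h1 : HasDerivAt (fun s : ℝ => ∑ m, (2 * ((y + s • bv j) m - x m) * (bv j : Fin d → ℝ) m))
        (∑ m, (2 * (bv j : Fin d → ℝ) m * (bv j : Fin d → ℝ) m)) 0 := by
      have := HasDerivAt.fun_sum (u := (Finset.univ : Finset (Fin d)))
        (A := fun m (s : ℝ) => 2 * ((y + s • bv j) m - x m) * (bv j : Fin d → ℝ) m)
        (A' := fun m => 2 * (bv j : Fin d → ℝ) m * (bv j : Fin d → ℝ) m) (x := (0 : ℝ))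
        (fun m _ => ((hco m 0).const_mul 2).mul_const _)
      exact this
    have h2 : HasDerivAt (fun s : ℝ => 2 * ((y + s • bv j) i - x i) * (bv j : Fin d → ℝ) i)
        (2 * (bv j : Fin d → ℝ) i * (bv j : Fin d → ℝ) i) 0 :=
      ((hco i 0).const_mul 2).mul_const _
    have h3 := (h1.const_mul a).add ((h2.const_mul b).add_const (k * (bv j : Fin d → ℝ) i))
    have hval : a * ∑ m, (2 * (bv j : Fin d → ℝ) m * (bv j : Fin d → ℝ) m)
        + b * (2 * (bv j : Fin d → ℝ) i * (bv j : Fin d → ℝ) i)
        = 2 * a + if j = i then 2 * b else 0 := by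
      have e1 : ∑ m, (2 * (bv j : Fin d → ℝ) m * (bv j : Fin d → ℝ) m) = 2 := by
        rw [Finset.sum_eq_single j]
        · simp [bv]
        · intro m _ hm
          simp [bv, Pi.single_eq_of_ne hm]
        · intro hn; exact absurd (Finset.mem_univ j) hn
      rw [e1]
      by_cases hj : j = i
      · subst hj
        simp [bv]; ring
      · simp [bv, hj]; ring
    rw [hval] at h3
    exact h3

theorem main {U : Set (Fin d → ℝ)} (hU : IsOpen U) {h : (Fin d → ℝ) → ℝ}
    (hh : Harm U h) {x : Fin d → ℝ} {r S : ℝ} (hr : 0 < r) (hx : Metric.closedBall x r ⊆ U)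
    (hb : ∀ y ∈ Metric.closedBall x r, |h y| ≤ S) (i : Fin d) (τ : ℝ) (hτ : |τ| = 1)
    (y : Fin d → ℝ) (hy : y ∈ Metric.closedBall x r) (hyi : x i ≤ y i) :
    τ * ((h y - h (refl x i y)) / 2)
      ≤ S / r ^ 2 * (∑ m, (y m - x m) ^ 2 + d * ((y i - x i) * (r - (y i - x i)))) := by
  have hS : 0 ≤ S := le_trans (abs_nonneg _) (hb x (Metric.mem_closedBall_self hr.le))
  set q : ℝ := S / r ^ 2 with hq
  have hq0 : 0 ≤ q := by positivity
  have hd1 : (0 : ℝ) < d := by
    have : 0 < d := Fin.pos i
    exact_mod_cast this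
  -- it suffices to have the inequality up to `ε`
  refine le_of_forall_pos_le_add fun η hη => ?_
  set ε : ℝ := η / (d * r ^ 2) with hε
  have hε0 : 0 < ε := by positivity
  set w : (Fin d → ℝ) → ℝ := fun z =>
    (τ / 2) * h z + ((-(τ / 2)) * h (refl x i z) + quad x i (ε - q) (q * d) (-(q * d * r)) z)
    with hw
  have hwval : ∀ z, w z = τ * ((h z - h (refl x i z)) / 2)
      - q * (∑ m, (z m - x m) ^ 2 + d * ((z i - x i) * (r - (z i - x i))))
      + ε * ∑ m, (z m - x m) ^ 2 := by
    intro z
    simp only [hw, quad]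
    ring
  set Q : Set (Fin d → ℝ) := Metric.closedBall x r ∩ {z | x i ≤ z i} with hQ
  have hQc : IsCompact Q :=
    (isCompact_closedBall x r).inter_right (isClosed_le continuous_const (continuous_apply i))
  have hhc : ContinuousOn h (Metric.closedBall x r) := hh.1.continuousOn.mono hx
  have hquad : Continuous (quad x i (ε - q) (q * d) (-(q * d * r))) := by
    unfold quad; fun_prop
  have hwc : ContinuousOn w Q := by
    have h1 : ContinuousOn h Q := hhc.mono inter_subset_left
    have h2 : ContinuousOn (fun z => h (refl x i z)) Q :=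
      hhc.comp (continuous_refl x i).continuousOn (fun z hz => refl_mem hr i hz.1)
    exact (continuousOn_const.mul h1).add ((continuousOn_const.mul h2).add hquad.continuousOn)
  have hQne : Q.Nonempty := ⟨x, Metric.mem_closedBall_self hr.le, by simp⟩
  obtain ⟨z, hzQ, hzmax⟩ := hQc.exists_isMaxOn hQne hwc
  -- bounds for coordinates in the cube
  have hcoord : ∀ z ∈ Metric.closedBall x r, ∀ m, |z m - x m| ≤ r := by
    intro z hz m
    rw [Metric.mem_closedBall, dist_pi_le_iff hr.le] at hz
    have := hz m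
    rwa [Real.dist_eq] at this
  have hsumle : ∀ z ∈ Metric.closedBall x r, ∑ m, (z m - x m) ^ 2 ≤ d * r ^ 2 := by
    intro z hz
    have : ∑ m : Fin d, (z m - x m) ^ 2 ≤ ∑ _m : Fin d, r ^ 2 := by
      refine Finset.sum_le_sum fun m _ => ?_
      have := hcoord z hz m
      rw [← sq_abs]
      exact pow_le_pow_left₀ (abs_nonneg _) this 2
    simpa using this
  have hsum0 : ∀ z : Fin d → ℝ, 0 ≤ ∑ m, (z m - x m) ^ 2 :=
    fun z => Finset.sum_nonneg fun m _ => sq_nonneg _
  -- the value at the maximum point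
  have hzval : w z ≤ η := by
    by_cases hint : z ∈ Metric.ball x r ∧ x i < z i
    · -- interior: contradiction
      exfalso
      have hloc : IsLocalMax w z := by
        have ho : IsOpen (Metric.ball x r ∩ {z : Fin d → ℝ | x i < z i}) :=
          Metric.isOpen_ball.inter (isOpen_lt continuous_const (continuous_apply i))
        filter_upwards [ho.mem_nhds ⟨hint.1, hint.2⟩] with u hu
        have hu2 : x i < u i := hu.2
        exact hzmax ⟨Metric.ball_subset_closedBall hu.1, (le_of_lt hu2 : x i ≤ u i)⟩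
      have hzU : z ∈ U := hx hzQ.1
      have hzU' : refl x i z ∈ U := hx (refl_mem hr i hzQ.1)
      have hj : ∀ j : Fin d, (τ / 2) * pd (bv j) (pd (bv j) h) z
          + ((-(τ / 2)) * pd (bv j) (pd (bv j) h) (refl x i z)
            + (2 * (ε - q) + if j = i then 2 * (q * d) else 0)) ≤ 0 := by
        intro j
        have h1 := (pd_hasDerivAt hU hh.1 hzU (bv j)).const_mul (τ / 2)
        have h2 := (D2_refl hU hh.1 hzU' j).const_mul (-(τ / 2))
        have h3 := D2_quad x i (ε - q) (q * d) (-(q * d * r)) z j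
        exact (h1.add (h2.add h3)).nonpos hloc
      have hsum := Finset.sum_nonpos fun j (_ : j ∈ (Finset.univ : Finset (Fin d))) => hj j
      rw [Finset.sum_add_distrib, Finset.sum_add_distrib, Finset.sum_add_distrib,
        ← Finset.mul_sum, ← Finset.mul_sum, hh.2 z hzU, hh.2 _ hzU'] at hsum
      simp at hsum
      nlinarith [mul_pos hd1 hε0]
    · -- boundary
      rw [hwval]
      have hz1 := hzQ.1
      have hz2 : x i ≤ z i := hzQ.2
      have hzi := hcoord z hz1 i
      have hzi' : z i - x i ≤ r := (abs_le.mp hzi).2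
      have hprod : 0 ≤ (d : ℝ) * ((z i - x i) * (r - (z i - x i))) := by
        apply mul_nonneg hd1.le
        apply mul_nonneg <;> linarith
      have hlast : ε * ∑ m, (z m - x m) ^ 2 ≤ η := by
        calc ε * ∑ m, (z m - x m) ^ 2 ≤ ε * (d * r ^ 2) :=
              mul_le_mul_of_nonneg_left (hsumle z hz1) hε0.le
          _ = η := by rw [hε]; field_simp
      have hmain : τ * ((h z - h (refl x i z)) / 2)
          ≤ q * (∑ m, (z m - x m) ^ 2 + d * ((z i - x i) * (r - (z i - x i)))) := by
        by_cases heq : z i = x i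
        · have : refl x i z = z := by
            ext m
            by_cases hm : m = i
            · subst hm; simp [refl]; linarith
            · simp [refl, hm]
          rw [this]
          simp only [sub_self, zero_div, mul_zero]
          apply mul_nonneg hq0
          have := hsum0 z
          linarith
        · have hlt : x i < z i := lt_of_le_of_ne hz2 (Ne.symm heq)
          have hnb : z ∉ Metric.ball x r := fun hcon => hint ⟨hcon, hlt⟩
          rw [Metric.mem_ball, dist_pi_lt_iff hr] at hnb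
          push Not at hnb
          obtain ⟨m, hm⟩ := hnb
          rw [Real.dist_eq] at hm
          have h1 : r ^ 2 ≤ ∑ m, (z m - x m) ^ 2 := by
            calc r ^ 2 ≤ (z m - x m) ^ 2 := by
                  rw [← sq_abs (z m - x m)]
                  exact pow_le_pow_left₀ hr.le hm 2
              _ ≤ _ := Finset.single_le_sum (f := fun m => (z m - x m) ^ 2)
                  (fun m _ => sq_nonneg _) (Finset.mem_univ m)
          have h2 : q * r ^ 2 = S := by rw [hq]; field_simp
          have h3 : τ * ((h z - h (refl x i z)) / 2) ≤ S := by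
            have ha := abs_le.mp (hb z hz1)
            have hb' := abs_le.mp (hb _ (refl_mem hr i hz1))
            have hc : |(h z - h (refl x i z)) / 2| ≤ S := by
              rw [abs_le]; constructor <;> linarith [ha.1, ha.2, hb'.1, hb'.2]
            calc τ * ((h z - h (refl x i z)) / 2) ≤ |τ * ((h z - h (refl x i z)) / 2)| :=
                  le_abs_self _
              _ = |(h z - h (refl x i z)) / 2| := by rw [abs_mul, hτ, one_mul]
              _ ≤ S := hc
          calc τ * ((h z - h (refl x i z)) / 2) ≤ S := h3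
            _ = q * r ^ 2 := h2.symm
            _ ≤ _ := by
              apply mul_le_mul_of_nonneg_left _ hq0
              linarith
      linarith
  have hyval : w y ≤ η := le_trans (hzmax ⟨hy, hyi⟩) hzval
  rw [hwval] at hyval
  have := mul_nonneg hε0.le (hsum0 y)
  linarith

end Gr

theorem grad_bound {d : ℕ} {U : Set (Fin d → ℝ)} (hU : IsOpen U) {h : (Fin d → ℝ) → ℝ}
    (hh : Harm U h) {x : Fin d → ℝ} {r S : ℝ} (hr : 0 < r) (hx : Metric.closedBall x r ⊆ U)
    (hb : ∀ y ∈ Metric.closedBall x r, |h y| ≤ S) (i : Fin d) :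
    |pd (bv i) h x| ≤ d * S / r := by
  have hS : 0 ≤ S := le_trans (abs_nonneg _) (hb x (Metric.mem_closedBall_self hr.le))
  have hd1 : (0 : ℝ) < d := by
    have : 0 < d := Fin.pos i
    exact_mod_cast this
  set C : ℝ := d * S / r with hC
  have hC0 : 0 ≤ C := by positivity
  set ψ : ℝ → ℝ := fun s => (h (x + s • bv i) - h (x + s • (-bv i))) / 2 with hψ
  have hdiff : HasFDerivAt h (fderiv ℝ h (x + (0 : ℝ) • bv i)) (x + (0 : ℝ) • bv i) := by
    have hxU : x ∈ U := hx (Metric.mem_closedBall_self hr.le)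
    have := (hh.1.contDiffAt (hU.mem_nhds hxU)).differentiableAt (by simp)
    simpa using this.hasFDerivAt
  have hdiff' : HasFDerivAt h (fderiv ℝ h (x + (0 : ℝ) • (-bv i))) (x + (0 : ℝ) • (-bv i)) := by
    simpa using hdiff
  have hline : ∀ e : Fin d → ℝ, HasDerivAt (fun s : ℝ => x + s • e) e 0 := by
    intro e
    have := ((hasDerivAt_id (0 : ℝ)).smul_const e).const_add x
    simpa using this
  have hder : HasDerivAt ψ (pd (bv i) h x) 0 := by
    have h1 := hdiff.comp_hasDerivAt (0 : ℝ) (hline (bv i))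
    have h2 := hdiff'.comp_hasDerivAt (0 : ℝ) (hline (-bv i))
    have h3 := (h1.sub h2).div_const 2
    have hval : ((fderiv ℝ h (x + (0 : ℝ) • bv i)) (bv i)
        - (fderiv ℝ h (x + (0 : ℝ) • (-bv i))) (-bv i)) / 2 = pd (bv i) h x := by
      simp [pd]
    rw [hval] at h3
    exact h3
  have hpos : ∀ s : ℝ, 0 ≤ s → s ≤ r → |ψ s| ≤ C * s := by
    intro s hs hsr
    have hy : x + s • bv i ∈ Metric.closedBall x r := by
      rw [Metric.mem_closedBall, dist_pi_le_iff hr.le]
      intro m
      rw [Real.dist_eq]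
      by_cases hm : m = i
      · subst hm
        simp [bv, abs_of_nonneg hs, hsr]
      · simp [bv, hm, hr.le]
    have hyi : x i ≤ (x + s • bv i) i := by
      simp [bv, hs]
    have hrefl : Gr.refl x i (x + s • bv i) = x + s • (-bv i) := by
      ext m
      by_cases hm : m = i
      · subst hm
        simp [Gr.refl, bv]; ring
      · simp [Gr.refl, bv, hm]
    have hsum : ∑ m, ((x + s • bv i) m - x m) ^ 2 = s ^ 2 := by
      rw [Finset.sum_eq_single i]
      · simp [bv]
      · intro m _ hm
        simp [bv, hm]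
      · intro hn; exact absurd (Finset.mem_univ i) hn
    have hi : (x + s • bv i) i - x i = s := by simp [bv]
    have hbd : S / r ^ 2 * (s ^ 2 + d * (s * (r - s))) ≤ C * s := by
      have h1 : s ^ 2 + d * (s * (r - s)) ≤ d * (s * r) := by
        have : (1 : ℝ) ≤ d := by
          have : 1 ≤ d := Fin.pos i
          exact_mod_cast this
        nlinarith [mul_nonneg hs hs]
      calc S / r ^ 2 * (s ^ 2 + d * (s * (r - s))) ≤ S / r ^ 2 * (d * (s * r)) :=
            mul_le_mul_of_nonneg_left h1 (by positivity)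
        _ = C * s := by rw [hC]; field_simp
    have hp := Gr.main hU hh hr hx hb i 1 (by simp) _ hy hyi
    have hn := Gr.main hU hh hr hx hb i (-1) (by simp) _ hy hyi
    rw [hrefl, hsum, hi] at hp hn
    rw [abs_le]
    constructor
    · show -(C * s) ≤ (h (x + s • bv i) - h (x + s • (-bv i))) / 2
      linarith
    · show (h (x + s • bv i) - h (x + s • (-bv i))) / 2 ≤ C * s
      linarith
  have hodd : ∀ s : ℝ, ψ (-s) = - ψ s := by
    intro s
    simp only [hψ]
    rw [show x + (-s) • bv i = x + s • (-bv i) by simp,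
      show x + (-s) • (-bv i) = x + s • bv i by simp]
    ring
  have hall : ∀ s : ℝ, |s| ≤ r → |ψ s| ≤ C * |s| := by
    intro s hs
    rcases le_total 0 s with h0 | h0
    · rw [abs_of_nonneg h0] at hs ⊢
      exact hpos s h0 hs
    · rw [abs_of_nonpos h0] at hs ⊢
      have := hpos (-s) (by linarith) hs
      rw [hodd, abs_neg] at this
      exact this
  have hψ0 : ψ 0 = 0 := by simp [hψ]
  have := hder.le_of_lip' hC0 (by
    filter_upwards [Metric.ball_mem_nhds (0 : ℝ) hr] with s hs
    have hs' : |s| ≤ r := by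
      have := Metric.mem_ball.mp hs
      rw [Real.dist_eq, sub_zero] at this
      exact this.le
    rw [hψ0, sub_zero, sub_zero, Real.norm_eq_abs, Real.norm_eq_abs]
    exact hall s hs')
  rwa [Real.norm_eq_abs] at this

end Pool.Agent.W5h62.FN
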