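import Pool.Agent.W5h62.FW.Line
import Pool.Agent.W5h62.FW.Grad

/-!
# Unique continuation for harmonic functions (lemma (R) for helper62)

Written by helper68.
-/

set_option autoImplicit false

namespace Pool.Agent.W5h62.FN

open Set Filter Topology Metric

/-- the directional derivatives of a function which vanishes near a point vanish near it -/
theorem iter_zero {d : ℕ} {h : (Fin d → ℝ) → ℝ} {y : Fin d → ℝ} (hy : h =ᶠ[𝓝 y] fun _ => 0)
    (e : Fin d → ℝ) (k : ℕ) : (pd e)^[k] h =ᶠ[𝓝 y] fun _ => 0 := by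
  induction k with
  | zero => exact hy
  | succ k ih =>
    rw [Function.iterate_succ_apply']
    filter_upwards [ih.eventuallyEq_nhds] with w hw
    rw [pd, hw.fderiv_eq]
    simp

/-- (R) with (P) as a hypothesis -/
theorem ident' {d : ℕ} (hP : GradBound d) {Ω : Set (Fin d → ℝ)} (hΩ : IsOpen Ω)
    (hc : IsPreconnected Ω) {h : (Fin d → ℝ) → ℝ} (hh : Harm Ω h) {z : Fin d → ℝ} (hz : z ∈ Ω)
    (h0 : ∀ᶠ x in nhds z, h x = 0) : ∀ x ∈ Ω, h x = 0 := by
  have hV : IsOpen {x : Fin d → ℝ | ∀ᶠ y in 𝓝 x, h y = 0} := isOpen_setOfPred_eventually_nhds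
  have hsub : Ω ⊆ {x : Fin d → ℝ | ∀ᶠ y in 𝓝 x, h y = 0} := by
    refine hc.subset_of_closure_inter_subset hV ⟨z, hz, h0⟩ ?_
    rintro x ⟨hxc, hxΩ⟩
    obtain ⟨r, hr, hrΩ⟩ := Metric.isOpen_iff.1 hΩ x hxΩ
    have hρ : 0 < r / 3 := by positivity
    obtain ⟨y, hyV, hyx⟩ := Metric.mem_closure_iff.1 hxc (r / 3) hρ
    have hyx' : y ∈ ball x (r / 3) := by rwa [mem_ball, dist_comm]
    have hmem : ball x (r / 3) ∈ 𝓝 x := ball_mem_nhds x hρ
    filter_upwards [hmem] with w hw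
    have hl := line_zero' (z := y) (e := w - y) hP hΩ hh hρ (by
      intro t ht v hv
      refine hrΩ ?_
      have h1 : y + t • (w - y) ∈ ball x (r / 3) := by
        have h2 := (convex_ball x (r / 3)).add_smul_sub_mem hyx' hw ht
        exact h2
      rw [mem_closedBall] at hv
      rw [mem_ball] at h1 ⊢
      have h3 := dist_triangle v (y + t • (w - y)) x
      linarith) (fun k => (iter_zero hyV (w - y) k).self_of_nhds)
    rwa [add_sub_cancel] at hl
  intro x hx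
  exact (hsub hx).self_of_nhds

/-- the gradient bound (P) as a `GradBound` -/
theorem gradBound (d : ℕ) : GradBound d := fun hU _ hh _ _ _ hr hx hb i =>
  grad_bound hU hh hr hx hb i

/-- (Q) -/
theorem line_zero {d : ℕ} {U : Set (Fin d → ℝ)} (hU : IsOpen U) {h : (Fin d → ℝ) → ℝ}
    (hh : Harm U h) {z e : Fin d → ℝ} {ρ : ℝ} (hρ : 0 < ρ)
    (hz : ∀ t ∈ Set.Icc (0:ℝ) 1, Metric.closedBall (z + t • e) ρ ⊆ U)
    (h0 : ∀ k : ℕ, ((pd e)^[k] h) z = 0) : h (z + e) = 0 :=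
  line_zero' (gradBound d) hU hh hρ hz h0

/-- (R) -/
theorem ident {d : ℕ} {Ω : Set (Fin d → ℝ)} (hΩ : IsOpen Ω) (hc : IsPreconnected Ω)
    {h : (Fin d → ℝ) → ℝ} (hh : Harm Ω h) {z : Fin d → ℝ} (hz : z ∈ Ω)
    (h0 : ∀ᶠ x in nhds z, h x = 0) : ∀ x ∈ Ω, h x = 0 :=
  ident' (gradBound d) hΩ hc hh hz h0

end Pool.Agent.W5h62.FN
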