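import Pool.Agent.W5h62.FW.StepN
import Pool.Agent.W5h62.FW.Ext
import Pool.Agent.W5h62.FW.Ident

/-! Two trajectories which are equal at the time `T` have the same time derivatives there; any
dimension. -/

namespace Pool.Agent.W5h62.FN

open Set Filter Topology

variable {d : ℕ} {T T' : ℝ} {Ω U : Set (Fin d → ℝ)} {ψ : (Fin d → ℝ) → ℝ}

/-- Unique continuation from a smooth wall. -/
theorem pot_zero (hΩ : IsOpen Ω) (hc : IsPreconnected Ω) (hS : SmoothWall Ω U ψ)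
    {w : Fin d → ℝ} (hw : w ∈ U) (hw0 : ψ w = 0) {F : Fin d → (Fin d → ℝ) → ℝ}
    (hF : PotFlow Ω U ψ F) (hFΩ : ∀ i, Harm Ω (F i)) : ∀ i, ∀ z ∈ Ω, F i z = 0 := by
  intro i
  have hG := ext_harm hS hF i
  obtain ⟨ρ, hρ, hball⟩ := Metric.isOpen_iff.1 hS.isOpen w hw
  have hψc : ∀ y ∈ U, ContinuousAt ψ y := fun y hy =>
    (hS.smooth.continuousOn).continuousAt (hS.isOpen.mem_nhds hy)
  have hneg : ∃ᶠ y in 𝓝 w, ψ y < 0 := by
    intro h
    apply hS.regular w hw hw0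
    have : IsLocalMin ψ w := by
      filter_upwards [h] with y hy
      rw [hw0]; exact not_lt.1 hy
    exact this.fderiv_eq_zero
  have hpos : ∃ᶠ y in 𝓝 w, 0 < ψ y := by
    intro h
    apply hS.regular w hw hw0
    have : IsLocalMax ψ w := by
      filter_upwards [h] with y hy
      rw [hw0]; exact not_lt.1 hy
    exact this.fderiv_eq_zero
  obtain ⟨y, hy, hyb⟩ := (hneg.and_eventually (Metric.ball_mem_nhds w hρ)).exists
  obtain ⟨x, hx, hxb⟩ := (hpos.and_eventually (Metric.ball_mem_nhds w hρ)).exists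
  have hGball : Harm (Metric.ball w ρ) (Set.indicator Ω (F i)) :=
    ⟨hG.1.mono hball, fun x hx => hG.2 x (hball hx)⟩
  have hG0 : ∀ᶠ y' in 𝓝 y, Set.indicator Ω (F i) y' = 0 := by
    filter_upwards [(hψc y (hball hyb)).eventually (gt_mem_nhds hy),
      hS.isOpen.mem_nhds (hball hyb)] with y' hy' hyU
    have : y' ∉ Ω := fun h => by
      have := (hS.inside y' hyU).1 h
      linarith
    exact Set.indicator_of_notMem this _
  have hGz := ident Metric.isOpen_ball (convex_ball w ρ).isPreconnected hGball hyb hG0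
  have hxΩ : x ∈ Ω := (hS.inside x (hball hxb)).2 hx
  refine ident hΩ hc (hFΩ i) hxΩ ?_
  filter_upwards [Metric.isOpen_ball.mem_nhds hxb, hΩ.mem_nhds hxΩ] with x' hx' hx'Ω
  have := hGz x' hx'
  rwa [Set.indicator_of_mem hx'Ω] at this

lemma slice_pd {H : ℝ × (Fin d → ℝ) → ℝ} {z : Fin d → ℝ} (hd : DifferentiableAt ℝ H (T, z))
    (i : Fin d) : pd (bv i) (fun z => H (T, z)) z = pd (es i) H (T, z) := by
  have h1 : HasFDerivAt (fun z : Fin d → ℝ => ((T, z) : ℝ × (Fin d → ℝ)))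
      ((0 : (Fin d → ℝ) →L[ℝ] ℝ).prod (ContinuousLinearMap.id ℝ (Fin d → ℝ))) z :=
    (hasFDerivAt_const T z).prodMk (hasFDerivAt_id z)
  have h2 := hd.hasFDerivAt.comp z h1
  have h3 : HasFDerivAt (fun z => H (T, z)) ((fderiv ℝ H (T, z)).comp
    ((0 : (Fin d → ℝ) →L[ℝ] ℝ).prod (ContinuousLinearMap.id ℝ (Fin d → ℝ)))) z := h2
  unfold pd
  rw [h3.fderiv]
  simp [es]

lemma hasDerivAt_time {V : Type*} [NormedAddCommGroup V] [NormedSpace ℝ V] {F : ℝ × V → ℝ} {t : ℝ}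
    {z : V} (h : DifferentiableAt ℝ F (t, z)) : HasDerivAt (fun s => F (s, z)) (pd et F (t, z)) t := by
  have h1 : HasDerivAt (fun s : ℝ => ((s, z) : ℝ × V)) et t :=
    (hasDerivAt_id t).prodMk (hasDerivAt_const t z)
  exact h.hasFDerivAt.comp_hasDerivAt t h1

lemma wall_time {O : Set (Fin d → ℝ)} (hO : IsOpen O) (hT : T ∈ Ioo 0 T') {x : Fin d → ℝ}
    (hx : x ∈ O) (k : ℕ) : ∀ {F : ℝ × (Fin d → ℝ) → ℝ}, Sm (Ioo 0 T' ×ˢ O) F →
    (∀ t ∈ Ioo 0 T, F (t, x) = 0) → ∀ t ∈ Ioo 0 T, ((pd et)^[k] F) (t, x) = 0 := by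
  have hO' : IsOpen (Ioo 0 T' ×ˢ O) := isOpen_Ioo.prod hO
  induction k with
  | zero => intro F _ h; exact h
  | succ k ih =>
    intro F hF h t ht
    rw [Function.iterate_succ_apply]
    refine ih (sm_pd hO' hF et) (fun t ht => ?_) t ht
    have h1 := hasDerivAt_time (sm_diff hO' hF
      (show ((t, x) : ℝ × (Fin d → ℝ)) ∈ Ioo 0 T' ×ˢ O from ⟨⟨ht.1, ht.2.trans hT.2⟩, hx⟩))
    have h2 : HasDerivAt (fun s => F (s, x)) 0 t := by
      refine (hasDerivAt_const t (0 : ℝ)).congr_of_eventuallyEq ?_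
      filter_upwards [isOpen_Ioo.mem_nhds ht] with s hs using h s hs
    exact h1.unique h2

theorem rigidN (hΩ : IsOpen Ω) (hc : IsPreconnected Ω) (hS : SmoothWall Ω U ψ)
    {w : Fin d → ℝ} (hw : w ∈ U) (hw0 : ψ w = 0) (hT : 0 < T)
    {u1 u2 : Fin d → ℝ × (Fin d → ℝ) → ℝ} {p1 p2 : ℝ × (Fin d → ℝ) → ℝ}
    (h1 : Traj Ω U ψ T u1 p1) (h2 : Traj Ω U ψ T u2 p2)
    (hu : ∀ i, ∀ z ∈ Ω, u1 i (T, z) = u2 i (T, z)) :
    ∃ T' > T, (∀ i, Sm (Ioo 0 T' ×ˢ Ω) (u1 i)) ∧ (∀ i, Sm (Ioo 0 T' ×ˢ Ω) (u2 i)) ∧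
      ∀ n i, Z T Ω n (fun q => u1 i q - u2 i q) := by
  obtain ⟨T1, hT1, s1, r1⟩ := h1.ext
  obtain ⟨T2, hT2, s2, r2⟩ := h2.ext
  obtain ⟨T', hT'⟩ : ∃ T', T' = min T1 T2 := ⟨_, rfl⟩
  have hl1 : T' ≤ T1 := by rw [hT']; exact min_le_left _ _
  have hl2 : T' ≤ T2 := by rw [hT']; exact min_le_right _ _
  have hTT : T < T' := by rw [hT']; exact lt_min hT1 hT2
  have hTm : T ∈ Ioo 0 T' := ⟨hT, hTT⟩
  have sub1 : ∀ S S' : Set (Fin d → ℝ), S ⊆ S' → Ioo 0 T' ×ˢ S ⊆ Ioo 0 T1 ×ˢ S' := fun S S' h =>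
    prod_mono (Ioo_subset_Ioo_right hl1) h
  have sub2 : ∀ S S' : Set (Fin d → ℝ), S ⊆ S' → Ioo 0 T' ×ˢ S ⊆ Ioo 0 T2 ×ˢ S' := fun S S' h =>
    prod_mono (Ioo_subset_Ioo_right hl2) h
  have s1' : ∀ i, Sm (Ioo 0 T' ×ˢ Ω) (u1 i) := fun i => (s1 i).mono (sub1 _ _ subset_union_left)
  have s2' : ∀ i, Sm (Ioo 0 T' ×ˢ Ω) (u2 i) := fun i => (s2 i).mono (sub2 _ _ subset_union_left)
  have r1' : Sm (Ioo 0 T' ×ˢ Ω) p1 := r1.mono (sub1 _ _ subset_rfl)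
  have r2' : Sm (Ioo 0 T' ×ˢ Ω) p2 := r2.mono (sub2 _ _ subset_rfl)
  have s1'' : ∀ i, Sm (Ioo 0 T' ×ˢ (Ω ∪ U)) (u1 i) := fun i => (s1 i).mono (sub1 _ _ subset_rfl)
  have s2'' : ∀ i, Sm (Ioo 0 T' ×ˢ (Ω ∪ U)) (u2 i) := fun i => (s2 i).mono (sub2 _ _ subset_rfl)
  have hO : IsOpen (Ioo 0 T' ×ˢ Ω) := isOpen_Ioo.prod hΩ
  have hOU : IsOpen (Ω ∪ U) := hΩ.union hS.isOpen
  have hO2 : IsOpen (Ioo 0 T' ×ˢ (Ω ∪ U)) := isOpen_Ioo.prod hOU
  refine ⟨T', hTT, s1', s2', ?_⟩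
  intro n
  induction n with
  | zero =>
    intro i j hj z hz
    obtain rfl : j = 0 := by omega
    show u1 i (T, z) - u2 i (T, z) = 0
    rw [hu i z hz, sub_self]
  | succ n ih =>
    obtain ⟨a, hadef⟩ : ∃ a : Fin d → ℝ × (Fin d → ℝ) → ℝ, a = fun i q => u1 i q - u2 i q :=
      ⟨_, rfl⟩
    have sa : ∀ i, Sm (Ioo 0 T' ×ˢ (Ω ∪ U)) (a i) := fun i => by
      rw [hadef]; exact (s1'' i).sub (s2'' i)
    obtain ⟨Pn, hPn⟩ : ∃ Pn : ℝ × (Fin d → ℝ) → ℝ, Pn = (pd et)^[n] (fun q => p1 q - p2 q) := ⟨_, rfl⟩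
    have sPn : Sm (Ioo 0 T' ×ˢ Ω) Pn := by rw [hPn]; exact sm_iter hO et n (r1'.sub r2')
    obtain ⟨H, hH⟩ : ∃ H : Fin d → ℝ × (Fin d → ℝ) → ℝ, H = fun i => (pd et)^[n + 1] (a i) :=
      ⟨_, rfl⟩
    have sH : ∀ i, Sm (Ioo 0 T' ×ˢ (Ω ∪ U)) (H i) := fun i => by
      rw [hH]; exact sm_iter hO2 et (n + 1) (sa i)
    obtain ⟨F, hF⟩ : ∃ F : Fin d → (Fin d → ℝ) → ℝ, F = fun i z => H i (T, z) := ⟨_, rfl⟩
    have sF : ∀ i, ContDiffOn ℝ (⊤ : ℕ∞) (F i) (Ω ∪ U) := fun i => by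
      rw [hF]
      have hm : ContDiff ℝ (⊤ : ℕ∞) (fun z : Fin d → ℝ => ((T, z) : ℝ × (Fin d → ℝ))) :=
        contDiff_const.prodMk contDiff_id
      exact (sH i).comp hm.contDiffOn fun z hz => ⟨hTm, hz⟩
    have hFe : ∀ i, ∀ z ∈ Ω, F i z = - pd (es i) Pn (T, z) := fun i z hz => by
      rw [hF, hH, hadef, hPn]
      exact stepN hΩ hTm h1.ns h2.ns s1' s2' r1' r2' ih i hz
    have fH : ∀ i, ∀ z ∈ Ω ∪ U, DifferentiableAt ℝ (H i) (T, z) := fun i z hz =>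
      sm_diff hO2 (sH i) ⟨hTm, hz⟩
    have curl : ∀ z ∈ Ω, ∀ i j, pd (bv i) (F j) z = pd (bv j) (F i) z := by
      have key : ∀ z ∈ Ω, ∀ i j, pd (bv i) (F j) z = - pd (es i) (pd (es j) Pn) (T, z) := by
        intro z hz i j
        rw [pd_congr hΩ (hFe j) hz (bv i)]
        have hd : DifferentiableAt ℝ (pd (es j) Pn) (T, z) :=
          sm_diff hO (sm_pd hO sPn (es j)) ⟨hTm, hz⟩
        rw [← slice_pd hd i]
        unfold pd
        rw [fderiv_fun_neg]; rfl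
      intro z hz i j
      rw [key z hz i j, key z hz j i, sm_comm hO sPn (show ((T, z) : ℝ × (Fin d → ℝ)) ∈
        Ioo 0 T' ×ˢ Ω from ⟨hTm, hz⟩)]
    have div : ∀ z ∈ Ω, ∑ i, pd (bv i) (F i) z = 0 := by
      intro z hz
      have h := divN hΩ hTm h1.ns h2.ns s1' s2' (n + 1) hz
      rw [← h]
      refine Finset.sum_congr rfl fun i _ => ?_
      rw [hF]
      show pd (bv i) (fun z => H i (T, z)) z = _
      rw [slice_pd (fH i z (Or.inl hz)) i, hH, hadef]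
    have harm : ∀ i, Harm Ω (F i) := by
      intro i
      refine ⟨(sF i).mono subset_union_left, fun z hz => ?_⟩
      have sF' : ∀ j, Sm Ω (F j) := fun j => (sF j).mono subset_union_left
      have k1 : ∀ j, pd (bv j) (pd (bv j) (F i)) z = pd (bv i) (pd (bv j) (F j)) z := fun j => by
        rw [pd_congr hΩ (fun z hz => curl z hz j i) hz (bv j)]
        exact sm_comm hΩ (sF' j) hz _ _
      rw [Finset.sum_congr rfl fun j _ => k1 j, ← pd_sum' _ _ fun j _ =>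
        sm_diff hΩ (sm_pd hΩ (sF' j) _) hz, pd_congr hΩ (G := fun _ => 0) div hz]
      simp [pd]
    have hPot : PotFlow Ω U ψ F := by
      refine ⟨fun i => (sF i).mono subset_union_right, fun x hx => curl x hx.2,
        fun x hx => div x hx.2, fun x hx hx0 i => ?_⟩
      rw [hF, hH, hadef]
      have hz : ∀ t ∈ Ioo 0 T, ((pd et)^[n + 1] (fun q => u1 i q - u2 i q)) (t, x) = 0 :=
        wall_time hOU hTm (Or.inr hx) (n + 1) ((s1'' i).sub (s2'' i)) fun t ht => by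
          rw [h1.wall t ht x hx hx0 i, h2.wall t ht x hx hx0 i, sub_self]
      exact past_zero hOU hTm (sm_iter hO2 et (n + 1) ((s1'' i).sub (s2'' i))) (Or.inr hx) hz
    have hzero := pot_zero hΩ hc hS hw hw0 hPot harm
    intro i j hj z hz
    rcases Nat.lt_or_ge n j with hj' | hj'
    · obtain rfl : j = n + 1 := by omega
      have := hzero i z hz
      rwa [hF, hH, hadef] at this
    · exact ih i j hj' z hz

end Pool.Agent.W5h62.FN
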