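import Pool.Agent.W5h62.FW.FdN
import Pool.Agent.W5h62.FW.Fd
import Pool.Agent.W5h62.FW.RigN

/-! Trajectories with values in a finite-dimensional space of velocity fields. -/

namespace Pool.Agent.W5h62.FN

open Set Filter Topology

theorem famN {d N : ℕ} {T : ℝ} {Ω U : Set (Fin d → ℝ)} {ψ : (Fin d → ℝ) → ℝ} (hΩ : IsOpen Ω)
    (hc : IsPreconnected Ω) (hS : SmoothWall Ω U ψ) {w : Fin d → ℝ} (hw : w ∈ U) (hw0 : ψ w = 0)
    (hT : 0 < T) {W : Fin N → Fin d → (Fin d → ℝ) → ℝ} (hW : Fam Ω U ψ W)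
    {u1 u2 : Fin d → ℝ × (Fin d → ℝ) → ℝ} {p1 p2 : ℝ × (Fin d → ℝ) → ℝ}
    (n1 : IsNS (Ioo 0 T ×ˢ Ω) u1 p1) (n2 : IsNS (Ioo 0 T ×ˢ Ω) u2 p2) {a b : Fin N → ℝ → ℝ}
    (ha : ∀ k, DifferentiableOn ℝ (a k) (Ioo 0 T)) (hb : ∀ k, DifferentiableOn ℝ (b k) (Ioo 0 T))
    (hac : ∀ k, ContinuousOn (a k) (Ioc 0 T)) (hbc : ∀ k, ContinuousOn (b k) (Ioc 0 T))
    (hab : ∀ k, a k T = b k T)
    (hu1 : ∀ i, ∀ t ∈ Ioo 0 T, ∀ x ∈ Ω, u1 i (t, x) = ∑ k, a k t * W k i x)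
    (hu2 : ∀ i, ∀ t ∈ Ioo 0 T, ∀ x ∈ Ω, u2 i (t, x) = ∑ k, b k t * W k i x) :
    ∀ t ∈ Ioc 0 T, ∀ k, a k t = b k t := by
  have sW : ∀ k i, Sm Ω (W k i) := fun k i => (hW.smooth k i).mono subset_union_left
  have da : ∀ k, ∀ t ∈ Ioo 0 T, HasDerivAt (a k) (deriv (a k) t) t := fun k t ht =>
    ((ha k).differentiableAt (isOpen_Ioo.mem_nhds ht)).hasDerivAt
  have db : ∀ k, ∀ t ∈ Ioo 0 T, HasDerivAt (b k) (deriv (b k) t) t := fun k t ht =>
    ((hb k).differentiableAt (isOpen_Ioo.mem_nhds ht)).hasDerivAt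
  refine Pool.Agent.W5h62.FW.fd (X := Fin d × Fin d × Ω)
    (ω := fun k x => pd (bv x.2.1) (W k x.1) x.2.2 - pd (bv x.1) (W k x.2.1) x.2.2)
    (lap := fun k x => pd (bv x.2.1) (Lp W k x.1) x.2.2 - pd (bv x.1) (Lp W k x.2.1) x.2.2)
    (nl := fun k l x => pd (bv x.2.1) (Nl W k l x.1) x.2.2 - pd (bv x.1) (Nl W k l x.2.1) x.2.2)
    hT ?_ (a' := fun k t => deriv (a k) t) (b' := fun k t => deriv (b k) t) da db hac hbc hab ?_ ?_
  · intro c h0
    apply hW.indep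
    obtain ⟨F, hF⟩ : ∃ F : Fin d → (Fin d → ℝ) → ℝ, F = fun i x => ∑ k, c k * W k i x := ⟨_, rfl⟩
    have sF : ∀ i, ContDiffOn ℝ (⊤ : ℕ∞) (F i) (Ω ∪ U) := fun i => by
      rw [hF]
      exact ContDiffOn.sum fun k _ => contDiffOn_const.mul (hW.smooth k i)
    have sF' : ∀ i, Sm Ω (F i) := fun i => (sF i).mono subset_union_left
    have dF : ∀ i j, ∀ x ∈ Ω, pd (bv j) (F i) x = ∑ k, c k * pd (bv j) (W k i) x := by
      intro i j x hx
      rw [hF]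
      show pd (bv j) (fun x => ∑ k, c k * W k i x) x = _
      rw [pd_sum' _ _ fun k _ => (sm_diff hΩ (sW k i) hx).const_mul (c k)]
      refine Finset.sum_congr rfl fun k _ => ?_
      unfold pd
      rw [fderiv_const_mul (sm_diff hΩ (sW k i) hx)]
      simp
    have curl : ∀ z ∈ Ω, ∀ i j, pd (bv i) (F j) z = pd (bv j) (F i) z := by
      intro z hz i j
      rw [dF j i z hz, dF i j z hz]
      have h := h0 (i, j, ⟨z, hz⟩)
      simp only [mul_sub, Finset.sum_sub_distrib] at h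
      linarith
    have div : ∀ z ∈ Ω, ∑ i, pd (bv i) (F i) z = 0 := by
      intro z hz
      have k1 : ∀ i, pd (bv i) (F i) z = ∑ k, c k * pd (bv i) (W k i) z := fun i => dF i i z hz
      rw [Finset.sum_congr rfl fun i _ => k1 i, Finset.sum_comm]
      refine Finset.sum_eq_zero fun k _ => ?_
      rw [← Finset.mul_sum, hW.div k z hz, mul_zero]
    have harm : ∀ i, Harm Ω (F i) := by
      intro i
      refine ⟨sF' i, fun z hz => ?_⟩
      have k1 : ∀ j, pd (bv j) (pd (bv j) (F i)) z = pd (bv i) (pd (bv j) (F j)) z := fun j => by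
        rw [pd_congr hΩ (fun z hz => curl z hz j i) hz (bv j)]
        exact sm_comm hΩ (sF' j) hz _ _
      rw [Finset.sum_congr rfl fun j _ => k1 j, ← pd_sum' _ _ fun j _ =>
        sm_diff hΩ (sm_pd hΩ (sF' j) _) hz, pd_congr hΩ (G := fun _ => 0) div hz]
      simp [pd]
    have hPot : PotFlow Ω U ψ F := by
      refine ⟨fun i => (sF i).mono subset_union_right, fun x hx => curl x hx.2,
        fun x hx => div x hx.2, fun x hx hx0 i => ?_⟩
      rw [hF]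
      show ∑ k, c k * W k i x = 0
      exact Finset.sum_eq_zero fun k _ => by rw [hW.wall k i x hx hx0, mul_zero]
    have hz := pot_zero hΩ hc hS hw hw0 hPot harm
    intro i x hx
    have := hz i x hx
    rwa [hF] at this
  · intro t ht x
    exact fam_eq hΩ n1 sW da hu1 t ht x.1 x.2.1 x.2.2 x.2.2.2
  · intro t ht x
    exact fam_eq hΩ n2 sW db hu2 t ht x.1 x.2.1 x.2.2 x.2.2.2

lemma pd_zero {V : Type*} [NormedAddCommGroup V] [NormedSpace ℝ V] (e : V) :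
    pd e (fun _ => (0 : ℝ)) = fun _ => 0 := by
  funext x; simp [pd]

/-- The flow at rest. -/
lemma ns_zero {d : ℕ} (O : Set (ℝ × (Fin d → ℝ))) :
    IsNS O (fun _ _ => 0) (fun _ => 0) :=
  ⟨fun _ => contDiffOn_const, contDiffOn_const, fun i x _ => by simp [pd_zero],
    fun x _ => by simp [pd_zero]⟩

lemma traj_zero {d : ℕ} (Ω U : Set (Fin d → ℝ)) (ψ : (Fin d → ℝ) → ℝ) (T : ℝ) :
    Traj Ω U ψ T (fun _ _ => 0) (fun _ => 0) :=
  ⟨ns_zero _, ⟨T + 1, by linarith, fun _ => contDiffOn_const, contDiffOn_const⟩,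
    fun _ _ _ _ _ _ => rfl⟩

end Pool.Agent.W5h62.FN
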