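import Pool.Agent.W5h62.FW.Rig

/-! Bounds for the difference of two trajectories which are equal at the time `T`. -/

namespace Pool.Agent.W5h62.FW

open Set Filter Topology Pool.Agent.Q176.WL

variable {T T' : ℝ} {Ω : Set (ℝ × ℝ)}

/-- The bounds at the time `s` for two functions of time, whose time derivatives agree at the time
`T`: by a log-convex majorant, and in Gevrey classes. -/
def Bounds (T : ℝ) (f₁ f₂ : E → ℝ) (z : ℝ × ℝ) (s : ℝ) : Prop :=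
  (∀ M : ℕ → ℝ, (∀ k, 0 < M k) → (∀ k, M (k + 1) ^ 2 ≤ M k * M (k + 2)) →
    (∀ k, ∀ t ∈ Ioc s T, |dt k f₁ t z - dt k f₂ t z| ≤ M k) →
    (∀ n N : ℕ, n ≤ N → Real.exp 1 * (T - s) ≤ ∑ k ∈ Finset.Ico n N, M k / M (k + 1) →
      |f₁ (s, z) - f₂ (s, z)| ≤ M 0 * Real.exp (-(n : ℝ))) ∧
    (¬ Summable (fun k => M k / M (k + 1)) → f₁ (s, z) = f₂ (s, z))) ∧
  ∀ A C σ : ℝ, 0 < A → 0 < C → 1 < σ →
    (∀ k : ℕ, ∀ t ∈ Ioc s T, |dt k f₁ t z - dt k f₂ t z| ≤ C * A ^ k * (k.factorial : ℝ) ^ σ) →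
    |f₁ (s, z) - f₂ (s, z)| ≤
      C * Real.exp (2 - (Real.exp 1 * (σ - 1) * A * (T - s)) ^ (-1 / (σ - 1)))

lemma limit_bound {g : ℝ → ℝ} {s T B : ℝ} (hs : s < T) (hg : ContinuousWithinAt g (Ioi s) s)
    (h : ∀ t ∈ Ioo s T, |g t| ≤ B) : |g s| ≤ B := by
  have h1 : Tendsto (fun t => |g t|) (𝓝[>] s) (𝓝 |g s|) := (hg.tendsto).abs
  refine le_of_tendsto h1 ?_
  filter_upwards [Ioo_mem_nhdsGT hs] with t ht using h t ht

theorem bounds_of_flat (hΩ : IsOpen Ω) (hT : T ∈ Ioo 0 T') {f₁ f₂ : E → ℝ}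
    (s1 : Sm (Ioo 0 T' ×ˢ Ω) f₁) (s2 : Sm (Ioo 0 T' ×ˢ Ω) f₂)
    (hZ : ∀ n, Z T Ω n (fun q => f₁ q - f₂ q)) {z : ℝ × ℝ} (hz : z ∈ Ω) {s : ℝ} (hs : s ∈ Ico 0 T)
    (c1 : ContinuousWithinAt (fun t => f₁ (t, z)) (Ioi s) s)
    (c2 : ContinuousWithinAt (fun t => f₂ (t, z)) (Ioi s) s) : Bounds T f₁ f₂ z s := by
  have hO : IsOpen (Ioo 0 T' ×ˢ Ω) := isOpen_Ioo.prod hΩ
  obtain ⟨F, hF⟩ : ∃ F : E → ℝ, F = fun q => f₁ q - f₂ q := ⟨_, rfl⟩
  have sF : Sm (Ioo 0 T' ×ˢ Ω) F := by rw [hF]; exact s1.sub s2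
  have hmem : ∀ t ∈ Ioc s T, t ∈ Ioo 0 T' := fun t ht =>
    ⟨lt_of_le_of_lt hs.1 ht.1, lt_of_le_of_lt ht.2 hT.2⟩
  have hdt : ∀ k, ∀ t ∈ Ioc s T, ((pd et)^[k] F) (t, z) = dt k f₁ t z - dt k f₂ t z := by
    intro k t ht
    rw [hF, iter_sub hO et k s1 s2 _ (show ((t, z) : E) ∈ _ from ⟨hmem t ht, hz⟩),
      ← dt_eq hΩ k s1 t (hmem t ht) z hz, ← dt_eq hΩ k s2 t (hmem t ht) z hz]
  have hg : ContinuousWithinAt (fun t => f₁ (t, z) - f₂ (t, z)) (Ioi s) s := c1.sub c2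
  -- facts for a time `t` in `(s, T)`
  have hG : ∀ t ∈ Ioo s T, ∀ k, ∀ τ ∈ Icc 0 (T - t),
      HasDerivAt (rev T F z k) (rev T F z (k + 1) τ) τ := by
    intro t ht k τ hτ
    refine rev_deriv hΩ sF hz k ?_
    have h1 := hτ.1
    have h2 := hτ.2
    have h3 := ht.1
    have h4 := hs.1
    have h5 := hT.2
    constructor <;> linarith
  have hG0 : ∀ k, rev T F z k 0 = 0 := by
    intro k
    unfold rev
    rw [sub_zero, hF, hZ k k le_rfl z hz, mul_zero]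
  have hGb : ∀ {M : ℕ → ℝ}, (∀ k, ∀ t ∈ Ioc s T, |dt k f₁ t z - dt k f₂ t z| ≤ M k) →
      ∀ t ∈ Ioo s T, ∀ k, ∀ τ ∈ Icc 0 (T - t), |rev T F z k τ| ≤ M k := by
    intro M hM t ht k τ hτ
    have h1 := hτ.1
    have h2 := hτ.2
    have h3 := ht.1
    have hm : T - τ ∈ Ioc s T := ⟨by linarith, by linarith⟩
    unfold rev
    rw [abs_mul, abs_pow, abs_neg, abs_one, one_pow, one_mul, hdt k _ hm]
    exact hM k _ hm
  have hG1 : ∀ t, rev T F z 0 (T - t) = f₁ (t, z) - f₂ (t, z) := by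
    intro t
    unfold rev
    rw [hF]
    simp
  constructor
  · intro M hM hlc hb
    constructor
    · intro n N hnN hsum
      refine limit_bound (g := fun t => f₁ (t, z) - f₂ (t, z)) hs.2 hg fun t ht => ?_
      have h := bang (G := rev T F z) (L := T - t) (by linarith [ht.2]) hM hlc (hG t ht) hG0
        (hGb hb t ht) hnN ((mul_le_mul_of_nonneg_left (by linarith [ht.1])
          (Real.exp_pos 1).le).trans hsum)
      rwa [hG1 t] at h
    · intro hd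
      have h := limit_bound (g := fun t => f₁ (t, z) - f₂ (t, z)) (B := 0) hs.2 hg fun t ht => by
        have h := quasi (G := rev T F z) (L := T - t) (by linarith [ht.2]) hM hlc (hG t ht) hG0
          (hGb hb t ht) hd
        rw [hG1 t] at h
        rw [h, abs_zero]
      have := abs_nonpos_iff.1 h
      linarith
  · intro A C σ hA hC hσ hb
    refine limit_bound (g := fun t => f₁ (t, z) - f₂ (t, z)) hs.2 hg fun t ht => ?_
    have hb' : ∀ k, ∀ τ ∈ Icc 0 (T - t), |rev T F z k τ| ≤ C * A ^ k * (k.factorial : ℝ) ^ σ :=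
      hGb (M := fun k => C * A ^ k * (k.factorial : ℝ) ^ σ) hb t ht
    have h := gev (G := rev T F z) (L := T - t) (by linarith [ht.2]) hA hC hσ (hG t ht) hG0 hb'
    rw [hG1 t] at h
    refine h.trans ?_
    refine mul_le_mul_of_nonneg_left (Real.exp_le_exp.2 ?_) hC.le
    have hσ' : 0 < σ - 1 := by linarith
    have h1 : 0 < T - t := by linarith [ht.2]
    have h2 : 0 < Real.exp 1 * (σ - 1) * A * (T - t) := by positivity
    have h3 : Real.exp 1 * (σ - 1) * A * (T - t) ≤ Real.exp 1 * (σ - 1) * A * (T - s) :=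
      mul_le_mul_of_nonneg_left (by linarith [ht.1]) (by positivity)
    have h4 := Real.rpow_le_rpow_of_nonpos h2 h3 (z := -1 / (σ - 1))
      (div_nonpos_of_nonpos_of_nonneg (by norm_num) hσ'.le)
    linarith

end Pool.Agent.W5h62.FW
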