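import Pool.Agent.W5h62.FW.Bang

set_option autoImplicit false

/-!
# Consequences of Bang's inequality: the Gevrey case and the quasi-analytic case
-/

open Filter Topology

namespace Pool.Agent.W5h62.FW

namespace Gev

/-- telescoping -/
theorem tele {σ : ℝ} (hσ : 1 < σ) {x : ℝ} (hx : 0 < x) :
    x ^ (1 - σ) - (x + 1) ^ (1 - σ) ≤ (σ - 1) * x ^ (-σ) := by
  have h1 : (x + 1) ^ (1 - σ) = x ^ (1 - σ) * (1 + 1 / x) ^ (1 - σ) := by
    rw [← Real.mul_rpow hx.le (by positivity)]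
    congr 1
    field_simp
  have h2 : 0 < 1 + 1 / x := by positivity
  have h3 : 1 + (1 - σ) / x ≤ (1 + 1 / x) ^ (1 - σ) := by
    rw [Real.rpow_def_of_pos h2]
    have h4 : Real.log (1 + 1 / x) ≤ 1 / x := by
      have := Real.log_le_sub_one_of_pos h2
      linarith
    have h5 := Real.add_one_le_exp (Real.log (1 + 1 / x) * (1 - σ))
    have h6 : (1 - σ) / x = (1 / x) * (1 - σ) := by ring
    rw [h6]
    nlinarith
  have h7 : x ^ (-σ) = x ^ (1 - σ) / x := by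
    rw [show -σ = (1 - σ) - 1 by ring, Real.rpow_sub_one hx.ne']
  rw [h1, h7]
  have h8 : 0 < x ^ (1 - σ) := Real.rpow_pos_of_pos hx _
  have h9 := mul_le_mul_of_nonneg_left h3 h8.le
  have h10 : x ^ (1 - σ) * (1 + (1 - σ) / x) = x ^ (1 - σ) - (σ - 1) * (x ^ (1 - σ) / x) := by
    ring
  linarith

theorem sum_ge {σ A : ℝ} (hσ : 1 < σ) (hA : 0 < A) {n N : ℕ} (h : n ≤ N) :
    (((n : ℝ) + 1) ^ (1 - σ) - ((N : ℝ) + 1) ^ (1 - σ)) / (A * (σ - 1)) ≤
      ∑ k ∈ Finset.Ico n N, 1 / (A * ((k : ℝ) + 1) ^ σ) := by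
  have hσ' : 0 < σ - 1 := by linarith
  induction N, h using Nat.le_induction with
  | base => simp
  | succ N h ih =>
    rw [Finset.sum_Ico_succ_top h]
    have h1 := tele hσ (x := (N : ℝ) + 1) (by positivity)
    have h2 : 1 / (A * ((N : ℝ) + 1) ^ σ) = ((σ - 1) * ((N : ℝ) + 1) ^ (-σ)) / (A * (σ - 1)) := by
      rw [Real.rpow_neg (by positivity)]
      have h3 : ((N : ℝ) + 1) ^ σ ≠ 0 := (Real.rpow_pos_of_pos (by positivity) _).ne'
      field_simp
    have h3 : (((N : ℝ) + 1) ^ (1 - σ) - ((N : ℝ) + 1 + 1) ^ (1 - σ)) / (A * (σ - 1)) ≤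
        1 / (A * ((N : ℝ) + 1) ^ σ) := by
      rw [h2]
      exact div_le_div_of_nonneg_right h1 (by positivity)
    push_cast
    have h4 : (((n : ℝ) + 1) ^ (1 - σ) - ((N : ℝ) + 1 + 1) ^ (1 - σ)) / (A * (σ - 1)) =
        (((n : ℝ) + 1) ^ (1 - σ) - ((N : ℝ) + 1) ^ (1 - σ)) / (A * (σ - 1)) +
        (((N : ℝ) + 1) ^ (1 - σ) - ((N : ℝ) + 1 + 1) ^ (1 - σ)) / (A * (σ - 1)) := by ring
    rw [h4]
    exact add_le_add ih h3

end Gev

open Gev

/-- **The Gevrey case.** -/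
theorem gev {G : ℕ → ℝ → ℝ} {L A C σ : ℝ} (hL : 0 < L) (hA : 0 < A) (hC : 0 < C) (hσ : 1 < σ)
    (hG : ∀ k, ∀ τ ∈ Set.Icc 0 L, HasDerivAt (G k) (G (k+1) τ) τ) (h0 : ∀ k, G k 0 = 0)
    (hb : ∀ k, ∀ τ ∈ Set.Icc 0 L, |G k τ| ≤ C * A^k * ((k.factorial : ℝ)^σ)) :
    |G 0 L| ≤ C * Real.exp (2 - (Real.exp 1 * (σ-1) * A * L)^(-1/(σ-1))) := by
  have hσ' : 0 < σ - 1 := by linarith
  set Y : ℝ := Real.exp 1 * (σ-1) * A * L with hY
  have hY0 : 0 < Y := by positivity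
  set X : ℝ := Y ^ (-1/(σ-1)) with hX
  have hX0 : 0 < X := Real.rpow_pos_of_pos hY0 _
  have hXY : X ^ (1 - σ) = Y := by
    rw [hX, ← Real.rpow_mul hY0.le]
    have : -1 / (σ - 1) * (1 - σ) = 1 := by
      field_simp
      ring
    rw [this, Real.rpow_one]
  rcases le_or_gt X 2 with h2 | h2
  · have h3 := hb 0 L ⟨hL.le, le_rfl⟩
    simp only [pow_zero, mul_one, Nat.factorial_zero, Nat.cast_one, Real.one_rpow] at h3
    have h4 : 1 ≤ Real.exp (2 - X) := Real.one_le_exp (by linarith)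
    nlinarith
  · set M : ℕ → ℝ := fun k => C * A^k * ((k.factorial : ℝ)^σ) with hMdef
    have hf : ∀ k : ℕ, (0 : ℝ) < (k.factorial : ℝ) := fun k => by
      exact_mod_cast Nat.factorial_pos k
    have hM : ∀ k, 0 < M k := fun k => by
      have := Real.rpow_pos_of_pos (hf k) σ
      simp only [hMdef]
      positivity
    have hlc : ∀ k, M (k+1)^2 ≤ M k * M (k+2) := by
      intro k
      have h5 : ((k + 1).factorial : ℝ) ^ 2 ≤ (k.factorial : ℝ) * ((k + 2).factorial : ℝ) := by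
        rw [Nat.factorial_succ (k + 1), Nat.factorial_succ k]
        push_cast
        have := hf k
        have h6 : 0 ≤ (k.factorial : ℝ) ^ 2 * ((k : ℝ) + 1) := by positivity
        nlinarith
      have h6 : (((k + 1).factorial : ℝ) ^ σ) ^ 2 ≤
          (k.factorial : ℝ) ^ σ * ((k + 2).factorial : ℝ) ^ σ := by
        rw [← Real.mul_rpow (hf k).le (hf (k+2)).le, ← Real.rpow_natCast, ← Real.rpow_mul (hf _).le,
          mul_comm σ, Real.rpow_mul (hf _).le, Real.rpow_natCast]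
        exact Real.rpow_le_rpow (by positivity) h5 (by linarith)
      simp only [hMdef]
      calc (C * A ^ (k + 1) * ((k + 1).factorial : ℝ) ^ σ) ^ 2
          = C ^ 2 * A ^ (2 * k + 2) * (((k + 1).factorial : ℝ) ^ σ) ^ 2 := by ring
        _ ≤ C ^ 2 * A ^ (2 * k + 2) * ((k.factorial : ℝ) ^ σ * ((k + 2).factorial : ℝ) ^ σ) := by
            gcongr
        _ = _ := by ring
    have hr : ∀ k, M k / M (k + 1) = 1 / (A * ((k : ℝ) + 1) ^ σ) := by
      intro k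
      have h5 : ((k + 1).factorial : ℝ) ^ σ = ((k : ℝ) + 1) ^ σ * (k.factorial : ℝ) ^ σ := by
        rw [← Real.mul_rpow (by positivity) (hf k).le, Nat.factorial_succ]
        push_cast
        rfl
      have h6 := (Real.rpow_pos_of_pos (hf k) σ).ne'
      have h7 : ((k : ℝ) + 1) ^ σ ≠ 0 := (Real.rpow_pos_of_pos (by positivity) _).ne'
      simp only [hMdef]
      rw [h5]
      field_simp
      ring
    have hc3 : 3 ≤ ⌈X⌉₊ := by
      have : (2 : ℕ) < ⌈X⌉₊ := Nat.lt_ceil.2 (by exact_mod_cast h2)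
      omega
    obtain ⟨n, hn⟩ : ∃ n : ℕ, ⌈X⌉₊ = n + 2 := ⟨⌈X⌉₊ - 2, by omega⟩
    have hn1 : (n : ℝ) + 1 < X := by
      have h5 : ((n + 1 : ℕ) : ℝ) < X := by
        apply Nat.lt_ceil.1
        omega
      push_cast at h5
      exact h5
    have hn2 : X - 2 ≤ n := by
      have h5 := Nat.le_ceil X
      rw [hn] at h5
      push_cast at h5
      linarith
    have hgt : Y < ((n : ℝ) + 1) ^ (1 - σ) := by
      rw [← hXY]
      exact Real.rpow_lt_rpow_of_neg (by positivity) hn1 (by linarith)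
    have hlim : Tendsto (fun N : ℕ => ((n : ℝ) + 1) ^ (1 - σ) - ((N : ℝ) + 1) ^ (1 - σ)) atTop
        (𝓝 (((n : ℝ) + 1) ^ (1 - σ) - 0)) := by
      refine Tendsto.const_sub _ ?_
      have h5 : Tendsto (fun N : ℕ => (N : ℝ) + 1) atTop atTop :=
        tendsto_atTop_add_const_right _ _ tendsto_natCast_atTop_atTop
      have h6 := (tendsto_rpow_neg_atTop hσ').comp h5
      refine h6.congr fun N => ?_
      simp only [Function.comp_apply]
      congr 1
      ring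
    rw [sub_zero] at hlim
    obtain ⟨N, hN1, hN2⟩ := ((hlim.eventually (lt_mem_nhds hgt)).and
      (eventually_ge_atTop n)).exists
    have hs : Real.exp 1 * L ≤ ∑ k ∈ Finset.Ico n N, M k / M (k+1) := by
      simp only [hr]
      refine le_trans ?_ (sum_ge hσ hA hN2)
      rw [le_div_iff₀ (by positivity)]
      calc Real.exp 1 * L * (A * (σ - 1)) = Y := by rw [hY]; ring
        _ ≤ _ := hN1.le
    have key := bang hL.le hM hlc hG h0 (fun k τ hτ => hb k τ hτ) hN2 hs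
    refine key.trans ?_
    have hM0 : M 0 = C := by simp [hMdef]
    rw [hM0]
    refine mul_le_mul_of_nonneg_left (Real.exp_le_exp.2 ?_) hC.le
    linarith

/-- **The quasi-analytic case.** -/
theorem quasi {G : ℕ → ℝ → ℝ} {M : ℕ → ℝ} {L : ℝ} (hL : 0 ≤ L) (hM : ∀ k, 0 < M k)
    (hlc : ∀ k, M (k+1)^2 ≤ M k * M (k+2))
    (hG : ∀ k, ∀ τ ∈ Set.Icc 0 L, HasDerivAt (G k) (G (k+1) τ) τ) (h0 : ∀ k, G k 0 = 0)
    (hb : ∀ k, ∀ τ ∈ Set.Icc 0 L, |G k τ| ≤ M k) (hd : ¬ Summable (fun k => M k / M (k+1))) :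
    G 0 L = 0 := by
  have hnn : ∀ k, 0 ≤ M k / M (k + 1) := fun k => (div_pos (hM k) (hM (k+1))).le
  have hT := (not_summable_iff_tendsto_nat_atTop_of_nonneg hnn).1 hd
  have key : ∀ n : ℕ, |G 0 L| ≤ M 0 * Real.exp (-(n:ℝ)) := by
    intro n
    obtain ⟨N, hN1, hN2⟩ := ((hT.eventually_ge_atTop (Real.exp 1 * L +
      ∑ k ∈ Finset.range n, M k / M (k+1))).and (eventually_ge_atTop n)).exists
    refine bang hL hM hlc hG h0 hb hN2 ?_
    rw [Finset.sum_Ico_eq_sub _ hN2]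
    linarith
  have hlim : Tendsto (fun n : ℕ => M 0 * Real.exp (-(n:ℝ))) atTop (𝓝 (M 0 * 0)) :=
    Tendsto.const_mul _ (Real.tendsto_exp_neg_atTop_nhds_zero.comp tendsto_natCast_atTop_atTop)
  rw [mul_zero] at hlim
  have h1 : |G 0 L| ≤ 0 := ge_of_tendsto' hlim key
  exact abs_eq_zero.1 (le_antisymm h1 (abs_nonneg _))

end Pool.Agent.W5h62.FW
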