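import Pool.Agent.W5h62.FW.Fin
import Pool.Agent.W5h62.FW.MainN
import Pool.Agent.W5h62.FW.MainA

/-! The three parts of the theorem. -/

namespace Pool.Agent.W5h62

open Set Filter Topology

/-- Any dimension, smooth wall. -/
theorem partN {d : ℕ} {T : ℝ} {Ω U : Set (Fin d → ℝ)} {ψ : (Fin d → ℝ) → ℝ} (hΩ : IsOpen Ω)
    (hc : IsPreconnected Ω) (hS : FN.SmoothWall Ω U ψ) {w : Fin d → ℝ} (hw : w ∈ U)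
    (hw0 : ψ w = 0) (hT : 0 < T) {u1 u2 : Fin d → ℝ × (Fin d → ℝ) → ℝ}
    {p1 p2 : ℝ × (Fin d → ℝ) → ℝ} (h1 : FN.Traj Ω U ψ T u1 p1) (h2 : FN.Traj Ω U ψ T u2 p2)
    (hu : ∀ i, ∀ z ∈ Ω, u1 i (T, z) = u2 i (T, z)) (i : Fin d) {z : Fin d → ℝ} (hz : z ∈ Ω) :
    (∀ n, FN.dt n (u1 i) T z = FN.dt n (u2 i) T z) ∧
    (∀ s ∈ Ioo 0 T, FN.Bounds T (u1 i) (u2 i) z s) ∧
    (ContinuousWithinAt (fun t => u1 i (t, z)) (Ioi 0) 0 →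
      ContinuousWithinAt (fun t => u2 i (t, z)) (Ioi 0) 0 → FN.Bounds T (u1 i) (u2 i) z 0) := by
  obtain ⟨T', hTT, s1, s2, hZ⟩ := FN.rigidN hΩ hc hS hw hw0 hT h1 h2 hu
  have hTm : T ∈ Ioo 0 T' := ⟨hT, hTT⟩
  have hO : IsOpen (Ioo 0 T' ×ˢ Ω) := isOpen_Ioo.prod hΩ
  have hcont : ∀ {f : ℝ × (Fin d → ℝ) → ℝ}, FN.Sm (Ioo 0 T' ×ˢ Ω) f → ∀ s ∈ Ioo 0 T,
      ContinuousWithinAt (fun t => f (t, z)) (Ioi s) s := fun hf s hs =>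
    (FN.hasDerivAt_time (FN.sm_diff hO hf (show ((s, z) : ℝ × (Fin d → ℝ)) ∈ Ioo 0 T' ×ˢ Ω from
      ⟨⟨hs.1, hs.2.trans hTT⟩, hz⟩))).continuousAt.continuousWithinAt
  refine ⟨fun n => ?_, fun s hs => ?_, fun c1 c2 => ?_⟩
  · have h := hZ n i n le_rfl z hz
    rw [FN.iter_sub hO FN.et n (s1 i) (s2 i) _ (show ((T, z) : ℝ × (Fin d → ℝ)) ∈ _ from ⟨hTm, hz⟩),
      ← FN.dt_eq hΩ n (s1 i) T hTm z hz, ← FN.dt_eq hΩ n (s2 i) T hTm z hz] at h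
    linarith
  · exact FN.bounds_of_flat hΩ hTm (s1 i) (s2 i) (fun n => hZ n i) hz ⟨hs.1.le, hs.2⟩
      (hcont (s1 i) s hs) (hcont (s2 i) s hs)
  · exact FN.bounds_of_flat hΩ hTm (s1 i) (s2 i) (fun n => hZ n i) hz ⟨le_rfl, hT⟩ c1 c2

/-- Dimension two, walls with corners. -/
theorem partP {T : ℝ} {Ω : Set (ℝ × ℝ)} (hΩ : IsOpen Ω) (hc : IsPreconnected Ω) {q m : ℝ × ℝ}
    {r κ : ℝ} (hcone : FW.Cone Ω q m r κ) (hT : 0 < T)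
    {u₁ v₁ p₁ u₂ v₂ p₂ : ℝ × ℝ × ℝ → ℝ} (h1 : FW.Traj Ω (FW.Wall Ω q r) T u₁ v₁ p₁)
    (h2 : FW.Traj Ω (FW.Wall Ω q r) T u₂ v₂ p₂) (hu : ∀ z ∈ Ω, u₁ (T, z) = u₂ (T, z))
    (hv : ∀ z ∈ Ω, v₁ (T, z) = v₂ (T, z)) {f₁ f₂ : ℝ × ℝ × ℝ → ℝ}
    (hf : (f₁ = u₁ ∧ f₂ = u₂) ∨ (f₁ = v₁ ∧ f₂ = v₂)) {z : ℝ × ℝ} (hz : z ∈ Ω) :
    (∀ n, FW.dt n f₁ T z = FW.dt n f₂ T z) ∧
    (∀ s ∈ Ioo 0 T, FW.Bounds T f₁ f₂ z s) ∧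
    (ContinuousWithinAt (fun t => f₁ (t, z)) (Ioi 0) 0 →
      ContinuousWithinAt (fun t => f₂ (t, z)) (Ioi 0) 0 → FW.Bounds T f₁ f₂ z 0) := by
  obtain ⟨T', hTT, ⟨s1, t1, s2, t2⟩, hZ⟩ := FW.rigid hΩ hc hcone hT h1 h2 hu hv
  have hTm : T ∈ Ioo 0 T' := ⟨hT, hTT⟩
  have hO : IsOpen (Ioo 0 T' ×ˢ Ω) := isOpen_Ioo.prod hΩ
  have key : ∃ (g1 : FW.Sm (Ioo 0 T' ×ˢ Ω) f₁) (g2 : FW.Sm (Ioo 0 T' ×ˢ Ω) f₂),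
      ∀ n, FW.Z T Ω n (fun q => f₁ q - f₂ q) := by
    rcases hf with ⟨e1, e2⟩ | ⟨e1, e2⟩
    · subst e1 e2; exact ⟨s1, s2, fun n => (hZ n).1⟩
    · subst e1 e2; exact ⟨t1, t2, fun n => (hZ n).2⟩
  obtain ⟨g1, g2, hZ'⟩ := key
  have hcont : ∀ {f : ℝ × ℝ × ℝ → ℝ}, FW.Sm (Ioo 0 T' ×ˢ Ω) f → ∀ s ∈ Ioo 0 T,
      ContinuousWithinAt (fun t => f (t, z)) (Ioi s) s := fun hf s hs =>
    (FW.hasDerivAt_time hO hf (show ((s, z) : ℝ × ℝ × ℝ) ∈ Ioo 0 T' ×ˢ Ω from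
      ⟨⟨hs.1, hs.2.trans hTT⟩, hz⟩)).continuousAt.continuousWithinAt
  refine ⟨fun n => ?_, fun s hs => ?_, fun c1 c2 => ?_⟩
  · have h := hZ' n n le_rfl z hz
    rw [FW.iter_sub hO Pool.Agent.Q176.WL.et n g1 g2 _
      (show ((T, z) : ℝ × ℝ × ℝ) ∈ _ from ⟨hTm, hz⟩),
      ← FW.dt_eq hΩ n g1 T hTm z hz, ← FW.dt_eq hΩ n g2 T hTm z hz] at h
    linarith
  · exact FW.bounds_of_flat hΩ hTm g1 g2 hZ' hz ⟨hs.1.le, hs.2⟩ (hcont g1 s hs) (hcont g2 s hs)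
  · exact FW.bounds_of_flat hΩ hTm g1 g2 hZ' hz ⟨le_rfl, hT⟩ c1 c2

namespace FW

open Pool.Agent.Q176.WL

/-- The plane flow at rest. -/
lemma traj_zero (Ω Γ : Set (ℝ × ℝ)) (T : ℝ) :
    Traj Ω Γ T (fun _ => 0) (fun _ => 0) (fun _ => 0) := by
  have hz : ∀ e : E, Pool.Agent.Q176.WL.pd e (fun _ => (0 : ℝ)) = fun _ => 0 := fun e => by
    funext x; simp [Pool.Agent.Q176.WL.pd]
  have hd : ∀ n, (fun q : E => dt n (fun _ => (0 : ℝ)) q.1 q.2) = fun _ => 0 := fun n => by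
    funext q
    unfold dt
    simp
  refine ⟨⟨contDiffOn_const, contDiffOn_const, contDiffOn_const, fun x _ => by simp [hz],
    fun x _ => by simp [hz], fun x _ => by simp [hz]⟩, ⟨T + 1, by linarith, contDiffOn_const,
    contDiffOn_const, fun n => ?_⟩, fun _ _ _ _ => rfl, fun _ _ _ _ => rfl⟩
  rw [hd n]
  exact ⟨continuousOn_const, continuousOn_const⟩

end FW

end Pool.Agent.W5h62
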