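import Pool.Agent.W5h62.FW.Defs

/-! Calculus of functions vanishing to finite order at a time `T`. -/

namespace Pool.Agent.W5h62.FW

open Set Filter Topology Pool.Agent.Q176.WL

/-- Smooth on `O`. -/
abbrev Sm (O : Set E) (F : E → ℝ) : Prop := ContDiffOn ℝ (⊤ : ℕ∞) F O

variable {O : Set E} {F G : E → ℝ}

lemma sm_pd (hO : IsOpen O) (h : Sm O F) (e : E) : Sm O (pd e F) := by
  have h1 : ContDiffOn ℝ (⊤ : ℕ∞) (fun z => fderiv ℝ F z) O :=
    h.fderiv_of_isOpen hO (by norm_cast)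
  exact h1.clm_apply contDiffOn_const

lemma sm_diff (hO : IsOpen O) (h : Sm O F) {z : E} (hz : z ∈ O) : DifferentiableAt ℝ F z :=
  (h.contDiffAt (hO.mem_nhds hz)).differentiableAt (by simp)

lemma sm_two (h : Sm O F) : ContDiffOn ℝ ((2 : ℕ) : ℕ∞) F O := h.of_le (by exact_mod_cast le_top)

lemma sm_comm (hO : IsOpen O) (h : Sm O F) {z : E} (hz : z ∈ O) (e e' : E) :
    pd e (pd e' F) z = pd e' (pd e F) z := pd_comm hO (sm_two h) hz e e'

lemma sm_iter (hO : IsOpen O) (e : E) (j : ℕ) : ∀ {F : E → ℝ}, Sm O F → Sm O ((pd e)^[j] F) := by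
  induction j with
  | zero => intro F h; exact h
  | succ j ih => intro F h; rw [Function.iterate_succ_apply]; exact ih (sm_pd hO h e)

lemma iter_congr (hO : IsOpen O) (e : E) (j : ℕ) : ∀ {F G : E → ℝ}, (∀ z ∈ O, F z = G z) →
    ∀ z ∈ O, ((pd e)^[j] F) z = ((pd e)^[j] G) z := by
  induction j with
  | zero => intro F G h; exact h
  | succ j ih =>
    intro F G h z hz
    rw [Function.iterate_succ_apply, Function.iterate_succ_apply]
    exact ih (fun z hz => pd_congr hO h hz e) z hz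

lemma iter_comm (hO : IsOpen O) (e e' : E) (j : ℕ) : ∀ {F : E → ℝ}, Sm O F →
    ∀ z ∈ O, ((pd e)^[j] (pd e' F)) z = pd e' ((pd e)^[j] F) z := by
  induction j with
  | zero => intro F h z hz; rfl
  | succ j ih =>
    intro F h z hz
    rw [Function.iterate_succ_apply, Function.iterate_succ_apply,
      iter_congr hO e j (fun z hz => sm_comm hO h hz e e') z hz]
    exact ih (sm_pd hO h e) z hz

lemma iter_sub (hO : IsOpen O) (e : E) (j : ℕ) : ∀ {F G : E → ℝ}, Sm O F → Sm O G →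
    ∀ z ∈ O, ((pd e)^[j] (fun z => F z - G z)) z = ((pd e)^[j] F) z - ((pd e)^[j] G) z := by
  induction j with
  | zero => intro F G _ _ z _; rfl
  | succ j ih =>
    intro F G hF hG z hz
    rw [Function.iterate_succ_apply, Function.iterate_succ_apply, Function.iterate_succ_apply,
      iter_congr hO e j (G := fun z => pd e F z - pd e G z)
        (fun z hz => pd_sub' e (sm_diff hO hF hz) (sm_diff hO hG hz)) z hz]
    exact ih (sm_pd hO hF e) (sm_pd hO hG e) z hz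

lemma iter_add (hO : IsOpen O) (e : E) (j : ℕ) : ∀ {F G : E → ℝ}, Sm O F → Sm O G →
    ∀ z ∈ O, ((pd e)^[j] (fun z => F z + G z)) z = ((pd e)^[j] F) z + ((pd e)^[j] G) z := by
  induction j with
  | zero => intro F G _ _ z _; rfl
  | succ j ih =>
    intro F G hF hG z hz
    rw [Function.iterate_succ_apply, Function.iterate_succ_apply, Function.iterate_succ_apply,
      iter_congr hO e j (G := fun z => pd e F z + pd e G z)
        (fun z hz => pd_add' e (sm_diff hO hF hz) (sm_diff hO hG hz)) z hz]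
    exact ih (sm_pd hO hF e) (sm_pd hO hG e) z hz

/-- `F` vanishes at the time `T` in `Ω`, with its time derivatives up to the order `n`. -/
def Z (T : ℝ) (Ω : Set (ℝ × ℝ)) (n : ℕ) (F : E → ℝ) : Prop :=
  ∀ j ≤ n, ∀ z ∈ Ω, ((pd et)^[j] F) (T, z) = 0

variable {T T' : ℝ} {Ω : Set (ℝ × ℝ)}

lemma Z_succ {n : ℕ} {F : E → ℝ} : Z T Ω (n + 1) F ↔ Z T Ω 0 F ∧ Z T Ω n (pd et F) := by
  constructor
  · intro h
    refine ⟨fun j hj => h j (by omega), fun j hj z hz => ?_⟩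
    have := h (j + 1) (by omega) z hz
    rwa [Function.iterate_succ_apply] at this
  · rintro ⟨h1, h2⟩ j hj z hz
    rcases j with _ | j
    · exact h1 0 le_rfl z hz
    · rw [Function.iterate_succ_apply]; exact h2 j (by omega) z hz

lemma Z_mono {n m : ℕ} (hnm : m ≤ n) {F : E → ℝ} (h : Z T Ω n F) : Z T Ω m F :=
  fun j hj => h j (hj.trans hnm)

section
variable (hΩ : IsOpen Ω) (hT : T ∈ Ioo 0 T')
include hΩ hT

lemma hOpen : IsOpen (Ioo 0 T' ×ˢ Ω) := isOpen_Ioo.prod hΩ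

lemma Z_congr {n : ℕ} {F G : E → ℝ} (h : ∀ z ∈ Ioo 0 T' ×ˢ Ω, F z = G z) (hF : Z T Ω n F) :
    Z T Ω n G := fun j hj z hz => by
  rw [← iter_congr (hOpen hΩ hT) et j h (T, z) ⟨hT, hz⟩]; exact hF j hj z hz

lemma Z_add {n : ℕ} {F G : E → ℝ} (sF : Sm (Ioo 0 T' ×ˢ Ω) F) (sG : Sm (Ioo 0 T' ×ˢ Ω) G)
    (hF : Z T Ω n F) (hG : Z T Ω n G) : Z T Ω n (fun z => F z + G z) := fun j hj z hz => by
  rw [iter_add (hOpen hΩ hT) et j sF sG (T, z) ⟨hT, hz⟩, hF j hj z hz, hG j hj z hz, add_zero]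

lemma Z_sub {n : ℕ} {F G : E → ℝ} (sF : Sm (Ioo 0 T' ×ˢ Ω) F) (sG : Sm (Ioo 0 T' ×ˢ Ω) G)
    (hF : Z T Ω n F) (hG : Z T Ω n G) : Z T Ω n (fun z => F z - G z) := fun j hj z hz => by
  rw [iter_sub (hOpen hΩ hT) et j sF sG (T, z) ⟨hT, hz⟩, hF j hj z hz, hG j hj z hz, sub_zero]

lemma Z_mul (n : ℕ) : ∀ {F G : E → ℝ}, Sm (Ioo 0 T' ×ˢ Ω) F → Sm (Ioo 0 T' ×ˢ Ω) G →
    Z T Ω n F → Z T Ω n (fun z => F z * G z) := by
  have hO := hOpen hΩ hT
  induction n with
  | zero =>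
    intro F G sF sG h j hj z hz
    obtain rfl : j = 0 := by omega
    show F (T, z) * G (T, z) = 0
    have := h 0 le_rfl z hz
    rw [Function.iterate_zero_apply] at this
    rw [this, zero_mul]
  | succ n ih =>
    intro F G sF sG h
    rw [Z_succ]
    obtain ⟨h1, h2⟩ := Z_succ.1 h
    constructor
    · intro j hj z hz
      obtain rfl : j = 0 := by omega
      show F (T, z) * G (T, z) = 0
      have := h1 0 le_rfl z hz
      rw [Function.iterate_zero_apply] at this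
      rw [this, zero_mul]
    · have k1 := ih sF (sm_pd hO sG et) (Z_mono (Nat.le_succ n) h)
      have k2 := ih (sm_pd hO sF et) sG h2
      refine Z_congr hΩ hT (fun z hz => ?_) (Z_add hΩ hT (sF.mul (sm_pd hO sG et))
        ((sm_pd hO sF et).mul sG) k1 k2)
      rw [pd_mul' et (sm_diff hO sF hz) (sm_diff hO sG hz)]
      ring

lemma slice {H : E → ℝ} {z : ℝ × ℝ} (hz : z ∈ Ω) (hd : DifferentiableAt ℝ H (T, z))
    (h0 : ∀ z ∈ Ω, H (T, z) = 0) (d : ℝ × ℝ) : fderiv ℝ H (T, z) (0, d) = 0 := by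
  have h1 : HasDerivAt (fun s : ℝ => ((T, z + s • d) : E)) (0, d) 0 := by
    have h2 : HasDerivAt (fun s : ℝ => z + s • d) d 0 := by
      have := ((hasDerivAt_id (0 : ℝ)).smul_const d).const_add z
      simpa using this
    exact (hasDerivAt_const (0 : ℝ) T).prodMk h2
  have h3 : HasDerivAt (fun s : ℝ => H (T, z + s • d)) (fderiv ℝ H (T, z) (0, d)) 0 := by
    have h4 : HasFDerivAt H (fderiv ℝ H (T, z)) (T, z + (0 : ℝ) • d) := by
      simpa using hd.hasFDerivAt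
    exact h4.comp_hasDerivAt (0 : ℝ) h1
  have h5 : HasDerivAt (fun s : ℝ => H (T, z + s • d)) 0 0 := by
    have h6 : (fun s : ℝ => H (T, z + s • d)) =ᶠ[𝓝 0] fun _ => (0 : ℝ) := by
      have h7 : Tendsto (fun s : ℝ => z + s • d) (𝓝 0) (𝓝 z) := by
        have : Continuous (fun s : ℝ => z + s • d) := by fun_prop
        simpa using this.tendsto 0
      filter_upwards [h7.eventually (hΩ.mem_nhds hz)] with s hs
      exact h0 _ hs
    exact (hasDerivAt_const (0 : ℝ) (0 : ℝ)).congr_of_eventuallyEq h6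
  exact h3.unique h5

lemma Z_pd (n : ℕ) (d : ℝ × ℝ) : ∀ {F : E → ℝ}, Sm (Ioo 0 T' ×ˢ Ω) F → Z T Ω n F →
    Z T Ω n (pd (0, d) F) := by
  have hO := hOpen hΩ hT
  intro F sF h j hj z hz
  rw [iter_comm hO et (0, d) j sF (T, z) ⟨hT, hz⟩]
  exact slice hΩ hT hz (sm_diff hO (sm_iter hO et j sF) ⟨hT, hz⟩) (h j hj) d

lemma past_zero {H : E → ℝ} (sH : Sm (Ioo 0 T' ×ˢ Ω) H) (h0 : ∀ q ∈ Ioo 0 T ×ˢ Ω, H q = 0)
    {z : ℝ × ℝ} (hz : z ∈ Ω) : H (T, z) = 0 := by
  have hO := hOpen hΩ hT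
  have hc : ContinuousAt H (T, z) := (sm_diff hO sH ⟨hT, hz⟩).continuousAt
  have h1 : Tendsto (fun s : ℝ => H (s, z)) (𝓝[<] T) (𝓝 (H (T, z))) := by
    have h2 : Tendsto (fun s : ℝ => ((s, z) : E)) (𝓝[<] T) (𝓝 (T, z)) := by
      have : Continuous (fun s : ℝ => ((s, z) : E)) := by fun_prop
      exact (this.tendsto T).mono_left nhdsWithin_le_nhds
    exact hc.tendsto.comp h2
  have h2 : Tendsto (fun s : ℝ => H (s, z)) (𝓝[<] T) (𝓝 0) := by
    refine tendsto_const_nhds.congr' ?_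
    have : Ioo 0 T ∈ 𝓝[<] T := Ioo_mem_nhdsLT hT.1
    filter_upwards [this] with s hs
    exact (h0 (s, z) ⟨hs, hz⟩).symm
  exact tendsto_nhds_unique h1 h2

lemma Z_past (n : ℕ) : ∀ {F : E → ℝ}, Sm (Ioo 0 T' ×ˢ Ω) F → (∀ q ∈ Ioo 0 T ×ˢ Ω, F q = 0) →
    Z T Ω n F := by
  have hO := hOpen hΩ hT
  induction n with
  | zero =>
    intro F sF h j hj z hz
    obtain rfl : j = 0 := by omega
    exact past_zero hΩ hT sF h hz
  | succ n ih =>
    intro F sF h
    rw [Z_succ]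
    refine ⟨?_, ih (sm_pd hO sF et) fun q hq => ?_⟩
    · intro j hj z hz
      obtain rfl : j = 0 := by omega
      exact past_zero hΩ hT sF h hz
    · have hO2 : IsOpen (Ioo 0 T ×ˢ Ω) := isOpen_Ioo.prod hΩ
      rw [pd_congr hO2 (G := fun _ => 0) h hq et]
      simp [pd]

end

end Pool.Agent.W5h62.FW
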