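import Pool.Agent.W5h62.FW.DefsN
import Pool.Agent.W5h62.FW.Gev

/-!
# Harmonic functions with vanishing directional jets vanish along the line (lemma (Q) for helper62)

Written by helper74.
-/

set_option autoImplicit false

namespace Pool.Agent.W5h62.FN

open Set Filter Topology Metric

/-- the statement of (P) -/
def GradBound (d : ℕ) : Prop := ∀ {U : Set (Fin d → ℝ)}, IsOpen U → ∀ {h : (Fin d → ℝ) → ℝ},
  Harm U h → ∀ {x : Fin d → ℝ} {r S : ℝ}, 0 < r → closedBall x r ⊆ U →
  (∀ y ∈ closedBall x r, |h y| ≤ S) → ∀ i : Fin d, |pd (bv i) h x| ≤ d * S / r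

section sym

variable {V : Type*} [NormedAddCommGroup V] [NormedSpace ℝ V]

/-- smoothness of directional derivatives -/
theorem smooth_pd {U : Set V} (hU : IsOpen U) {f : V → ℝ} (hf : ContDiffOn ℝ (⊤ : ℕ∞) f U) (v : V) :
    ContDiffOn ℝ (⊤ : ℕ∞) (pd v f) U := by
  have h1 : ContDiffOn ℝ (⊤ : ℕ∞) (fderiv ℝ f) U := hf.fderiv_of_isOpen hU (by simp)
  exact h1.clm_apply contDiffOn_const

/-- symmetry of second derivatives -/
theorem pd_comm {U : Set V} (hU : IsOpen U) {f : V → ℝ} (hf : ContDiffOn ℝ (⊤ : ℕ∞) f U) (v w : V)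
    {x : V} (hx : x ∈ U) : pd v (pd w f) x = pd w (pd v f) x := by
  have hfx : ContDiffAt ℝ (⊤ : ℕ∞) f x := hf.contDiffAt (hU.mem_nhds hx)
  have h1 : ContDiffOn ℝ (⊤ : ℕ∞) (fderiv ℝ f) U := hf.fderiv_of_isOpen hU (by simp)
  have hd : DifferentiableAt ℝ (fderiv ℝ f) x :=
    (h1.contDiffAt (hU.mem_nhds hx)).differentiableAt (by simp)
  have key : ∀ v w : V, pd v (pd w f) x = (fderiv ℝ (fderiv ℝ f) x v) w := by
    intro v w
    have h2 : HasFDerivAt (fun y => fderiv ℝ f y w)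
        ((ContinuousLinearMap.apply ℝ ℝ w).comp (fderiv ℝ (fderiv ℝ f) x)) x :=
      (ContinuousLinearMap.apply ℝ ℝ w).hasFDerivAt.comp x hd.hasFDerivAt
    have h3 : fderiv ℝ (pd w f) x =
        (ContinuousLinearMap.apply ℝ ℝ w).comp (fderiv ℝ (fderiv ℝ f) x) := h2.fderiv
    rw [pd, h3]
    rfl
  rw [key, key]
  have hs : IsSymmSndFDerivAt ℝ f x :=
    hfx.isSymmSndFDerivAt (by
      rw [minSmoothness_of_isRCLikeNormedField]
      have h2 : ((2 : ℕ∞) : WithTop ℕ∞) ≤ ((⊤ : ℕ∞) : WithTop ℕ∞) := WithTop.coe_le_coe.2 le_top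
      exact h2)
  exact hs v w

end sym

variable {d : ℕ}

theorem harm_pd {U : Set (Fin d → ℝ)} (hU : IsOpen U) {h : (Fin d → ℝ) → ℝ} (hh : Harm U h)
    (v : Fin d → ℝ) : Harm U (pd v h) := by
  obtain ⟨hs, hl⟩ := hh
  refine ⟨smooth_pd hU hs v, fun x hx => ?_⟩
  have h1 : ∀ i, pd (bv i) (pd (bv i) (pd v h)) x = pd v (pd (bv i) (pd (bv i) h)) x := by
    intro i
    have e1 : pd (bv i) (pd v h) =ᶠ[𝓝 x] pd v (pd (bv i) h) := by
      filter_upwards [hU.mem_nhds hx] with y hy
      exact pd_comm hU hs _ _ hy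
    have e2 : pd (bv i) (pd (bv i) (pd v h)) x = pd (bv i) (pd v (pd (bv i) h)) x := by
      rw [pd, pd, e1.fderiv_eq]
    rw [e2]
    exact pd_comm hU (smooth_pd hU hs (bv i)) _ _ hx
  simp only [h1]
  have h2 : ∀ i, DifferentiableAt ℝ (pd (bv i) (pd (bv i) h)) x := fun i =>
    ((smooth_pd hU (smooth_pd hU hs (bv i)) (bv i)).contDiffAt (hU.mem_nhds hx)).differentiableAt
      (by simp)
  have h3 : (fun y => ∑ i, pd (bv i) (pd (bv i) h) y) =ᶠ[𝓝 x] fun _ => (0 : ℝ) := by
    filter_upwards [hU.mem_nhds hx] with y hy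
    exact hl y hy
  have h4 : fderiv ℝ (fun y => ∑ i, pd (bv i) (pd (bv i) h) y) x =
      ∑ i, fderiv ℝ (pd (bv i) (pd (bv i) h)) x := fderiv_fun_sum fun i _ => h2 i
  have h5 : (∑ i, fderiv ℝ (pd (bv i) (pd (bv i) h)) x) v = 0 := by
    rw [← h4, h3.fderiv_eq]
    simp
  rw [sum_apply] at h5
  exact h5

theorem pd_sum (e : Fin d → ℝ) (h : (Fin d → ℝ) → ℝ) (x : Fin d → ℝ) :
    pd e h x = ∑ i, e i * pd (bv i) h x := by
  have h1 : e = ∑ i, e i • bv i := by
    funext j
    rw [Finset.sum_apply]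
    simp [bv, Pi.single_apply]
  conv_lhs => rw [h1, pd, map_sum]
  simp only [map_smul, smul_eq_mul]
  rfl

theorem pd_bound (hP : GradBound d) {U : Set (Fin d → ℝ)} (hU : IsOpen U)
    {h : (Fin d → ℝ) → ℝ} (hh : Harm U h) (e : Fin d → ℝ) {x : Fin d → ℝ} {r S : ℝ} (hr : 0 < r)
    (hx : closedBall x r ⊆ U) (hb : ∀ y ∈ closedBall x r, |h y| ≤ S) :
    |pd e h x| ≤ (∑ i, |e i|) * (d * S / r) := by
  rw [pd_sum, Finset.sum_mul]
  refine (Finset.abs_sum_le_sum_abs _ _).trans (Finset.sum_le_sum fun i _ => ?_)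
  rw [abs_mul]
  exact mul_le_mul_of_nonneg_left (hP hU hh hr hx hb i) (abs_nonneg _)

theorem harm_iter {U : Set (Fin d → ℝ)} (hU : IsOpen U) {h : (Fin d → ℝ) → ℝ} (hh : Harm U h)
    (e : Fin d → ℝ) (k : ℕ) : Harm U ((pd e)^[k] h) := by
  induction k with
  | zero => exact hh
  | succ k ih =>
    rw [Function.iterate_succ_apply']
    exact harm_pd hU ih e

theorem iter_bound (hP : GradBound d) {U : Set (Fin d → ℝ)} (hU : IsOpen U)
    {h : (Fin d → ℝ) → ℝ} (hh : Harm U h) (e c : Fin d → ℝ) {ρ S : ℝ} (hρ : 0 < ρ)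
    (hx : closedBall c ρ ⊆ U) (hb : ∀ y ∈ closedBall c ρ, |h y| ≤ S) {k : ℕ} (hk : 0 < k) (j : ℕ)
    (hj : j ≤ k) : ∀ x ∈ closedBall c (ρ - j * (ρ / k)),
      |((pd e)^[j] h) x| ≤ ((∑ i, |e i|) * d * k / ρ) ^ j * S := by
  have hk' : (0 : ℝ) < k := by exact_mod_cast hk
  have hrk : 0 < ρ / k := by positivity
  induction j with
  | zero =>
    intro x hx'
    rw [Nat.cast_zero, zero_mul, sub_zero] at hx'
    simpa using hb x hx'
  | succ j ih =>
    intro x hx'
    have hj' : j ≤ k := by omega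
    have hsub : closedBall x (ρ / k) ⊆ closedBall c (ρ - j * (ρ / k)) := by
      apply closedBall_subset_closedBall'
      rw [mem_closedBall] at hx'
      push_cast at hx'
      linarith
    have hsub2 : closedBall c (ρ - j * (ρ / k)) ⊆ closedBall c ρ := by
      apply closedBall_subset_closedBall
      have : 0 ≤ (j : ℝ) * (ρ / k) := by positivity
      linarith
    rw [Function.iterate_succ_apply']
    have h1 := pd_bound hP hU (harm_iter hU hh e j) e hrk ((hsub.trans hsub2).trans hx)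
      (fun y hy => ih hj' y (hsub hy))
    refine h1.trans (le_of_eq ?_)
    rw [pow_succ]
    field_simp

/-- (Q) with (P) as a hypothesis -/
theorem line_zero' (hP : GradBound d) {U : Set (Fin d → ℝ)} (hU : IsOpen U)
    {h : (Fin d → ℝ) → ℝ} (hh : Harm U h) {z e : Fin d → ℝ} {ρ : ℝ} (hρ : 0 < ρ)
    (hz : ∀ t ∈ Set.Icc (0:ℝ) 1, Metric.closedBall (z + t • e) ρ ⊆ U)
    (h0 : ∀ k : ℕ, ((pd e)^[k] h) z = 0) : h (z + e) = 0 := by
  -- a bound for `h`
  have hK : IsCompact ((fun p : ℝ × (Fin d → ℝ) => z + p.1 • e + p.2) ''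
      (Icc (0 : ℝ) 1 ×ˢ closedBall 0 ρ)) :=
    (isCompact_Icc.prod (isCompact_closedBall _ _)).image (by fun_prop)
  have hKU : ((fun p : ℝ × (Fin d → ℝ) => z + p.1 • e + p.2) ''
      (Icc (0 : ℝ) 1 ×ˢ closedBall 0 ρ)) ⊆ U := by
    rintro _ ⟨⟨t, y⟩, ⟨ht, hy⟩, rfl⟩
    refine hz t ht ?_
    rw [mem_closedBall, dist_eq_norm, add_sub_cancel_left]
    simpa using hy
  obtain ⟨S, hS⟩ := hK.exists_bound_of_continuousOn (hh.1.continuousOn.mono hKU)
  have hb : ∀ t ∈ Icc (0 : ℝ) 1, ∀ y ∈ closedBall (z + t • e) ρ, |h y| ≤ |S| := by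
    intro t ht y hy
    refine le_trans ?_ (le_abs_self S)
    refine hS y ⟨(t, y - (z + t • e)), ⟨ht, ?_⟩, by simp⟩
    rw [mem_closedBall, dist_eq_norm] at hy
    simpa using hy
  set E : ℝ := ∑ i, |e i| with hE
  have hE0 : 0 ≤ E := Finset.sum_nonneg fun i _ => abs_nonneg _
  set A : ℝ := Real.exp 1 * (E * d / ρ) + 1 with hA
  have hA0 : 0 < A := by positivity
  have hfac : ∀ k : ℕ, (0 : ℝ) < k.factorial := fun k => by exact_mod_cast k.factorial_pos
  have hbound : ∀ k : ℕ, ∀ τ ∈ Icc (0 : ℝ) 1,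
      |((pd e)^[k] h) (z + τ • e)| ≤ (|S| + 1) * A ^ k * k.factorial := by
    intro k τ hτ
    rcases Nat.eq_zero_or_pos k with rfl | hk
    · have := hb τ hτ (z + τ • e) (mem_closedBall_self hρ.le)
      simp only [Function.iterate_zero, id, pow_zero, Nat.factorial_zero, Nat.cast_one, mul_one]
      linarith
    · have hk' : (0 : ℝ) < k := by exact_mod_cast hk
      have h1 := iter_bound hP hU hh e (z + τ • e) hρ (hz τ hτ) (hb τ hτ) hk k le_rfl
        (z + τ • e) (by
          apply mem_closedBall_self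
          rw [mul_div_cancel₀ _ hk'.ne', sub_self])
      refine h1.trans ?_
      have h2 : (E * d * k / ρ) ^ k = (E * d / ρ) ^ k * (k : ℝ) ^ k := by
        rw [← mul_pow]
        congr 1
        ring
      rw [← hE, h2]
      have h3 : (k : ℝ) ^ k ≤ (Real.exp 1) ^ k * k.factorial := by
        have h4 := Real.pow_div_factorial_le_exp (k : ℝ) hk'.le k
        rw [div_le_iff₀ (hfac k)] at h4
        rw [← Real.exp_nat_mul, mul_one]
        exact h4
      have h5 : (E * d / ρ) ^ k * (k : ℝ) ^ k ≤ A ^ k * k.factorial := by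
        calc (E * d / ρ) ^ k * (k : ℝ) ^ k
            ≤ (E * d / ρ) ^ k * ((Real.exp 1) ^ k * k.factorial) :=
              mul_le_mul_of_nonneg_left h3 (by positivity)
          _ = (Real.exp 1 * (E * d / ρ)) ^ k * k.factorial := by rw [mul_pow]; ring
          _ ≤ A ^ k * k.factorial := by
              apply mul_le_mul_of_nonneg_right _ (hfac k).le
              apply pow_le_pow_left₀ (by positivity)
              rw [hA]
              linarith
      have h6 : 0 ≤ A ^ k * (k.factorial : ℝ) := by positivity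
      calc (E * d / ρ) ^ k * (k : ℝ) ^ k * |S| ≤ A ^ k * k.factorial * |S| :=
            mul_le_mul_of_nonneg_right h5 (abs_nonneg _)
        _ ≤ (|S| + 1) * A ^ k * k.factorial := by nlinarith
  have hderiv : ∀ k : ℕ, ∀ τ ∈ Icc (0 : ℝ) 1,
      HasDerivAt (fun τ => ((pd e)^[k] h) (z + τ • e)) (((pd e)^[k + 1] h) (z + τ • e)) τ := by
    intro k τ hτ
    have hmem : z + τ • e ∈ U := hz τ hτ (mem_closedBall_self hρ.le)
    have h1 : DifferentiableAt ℝ ((pd e)^[k] h) (z + τ • e) :=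
      ((harm_iter hU hh e k).1.contDiffAt (hU.mem_nhds hmem)).differentiableAt (by simp)
    have h2 : HasDerivAt (fun τ : ℝ => z + τ • e) e τ := by
      simpa using ((hasDerivAt_id τ).smul_const e).const_add z
    have h3 := h1.hasFDerivAt.comp_hasDerivAt τ h2
    rw [Function.iterate_succ_apply']
    exact h3
  have hq := Pool.Agent.W5h62.FW.quasi (G := fun k τ => ((pd e)^[k] h) (z + τ • e))
    (M := fun k => (|S| + 1) * A ^ k * k.factorial) (L := 1) zero_le_one
    (fun k => by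
      have := hfac k
      have := abs_nonneg S
      positivity)
    (fun k => by
      have h1 : ((k + 1).factorial : ℝ) = (k + 1) * k.factorial := by
        rw [Nat.factorial_succ]; push_cast; ring
      have h2 : ((k + 2).factorial : ℝ) = (k + 2) * ((k + 1) * k.factorial) := by
        rw [Nat.factorial_succ, Nat.cast_mul, h1]; push_cast; ring
      rw [h1, h2]
      have h3 : 0 ≤ ((|S| + 1) * A ^ k * k.factorial * A) ^ 2 * (k + 1) := by positivity
      have e1 : ((|S| + 1) * A ^ (k + 1) * ((k + 1) * k.factorial)) ^ 2 =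
          ((|S| + 1) * A ^ k * k.factorial * A) ^ 2 * (k + 1) * (k + 1) := by ring
      have e2 : (|S| + 1) * A ^ k * k.factorial *
          ((|S| + 1) * A ^ (k + 2) * ((k + 2) * ((k + 1) * k.factorial))) =
          ((|S| + 1) * A ^ k * k.factorial * A) ^ 2 * (k + 1) * (k + 2) := by ring
      rw [e1, e2]
      nlinarith)
    hderiv (fun k => by simpa using h0 k) hbound (by
      intro hs
      have h1 : (fun k : ℕ => (|S| + 1) * A ^ k * k.factorial /
          ((|S| + 1) * A ^ (k + 1) * (k + 1).factorial)) = fun k : ℕ => A⁻¹ * (1 / ((k + 1 : ℕ) : ℝ)) := by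
        funext k
        have h2 : ((k + 1).factorial : ℝ) = (k + 1) * k.factorial := by
          rw [Nat.factorial_succ]; push_cast; ring
        have := (hfac k).ne'
        have h3 : |S| + 1 ≠ 0 := by positivity
        rw [h2, pow_succ]
        push_cast
        field_simp
      rw [h1, summable_mul_left_iff (inv_ne_zero hA0.ne'),
        summable_nat_add_iff (f := fun k : ℕ => 1 / (k : ℝ)) 1] at hs
      exact Real.not_summable_one_div_natCast hs)
  simpa using hq

end Pool.Agent.W5h62.FN
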