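import Pool.Agent.W5h62.FW.Defs
import Pool.Agent.W5h62.FW.Cx

/-! Unique continuation from the wall for solenoidal and irrotational plane fields. -/

namespace Pool.Agent.W5h62.FW

open Set Filter Topology Pool.Agent.Q176.WL

/-- The complex function `X - iY`. -/
noncomputable def cfun (X Y : ℝ × ℝ → ℝ) (w : ℂ) : ℂ :=
  (X (w.re, w.im) : ℂ) - (Y (w.re, w.im) : ℂ) * Complex.I

lemma iota_hasFDerivAt (w : ℂ) :
    HasFDerivAt (fun w : ℂ => ((w.re, w.im) : ℝ × ℝ)) (Complex.reCLM.prod Complex.imCLM) w :=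
  Complex.reCLM.hasFDerivAt.prodMk Complex.imCLM.hasFDerivAt

lemma holo {X Y : ℝ × ℝ → ℝ} {w : ℂ} (dX : DifferentiableAt ℝ X (w.re, w.im))
    (dY : DifferentiableAt ℝ Y (w.re, w.im))
    (h1 : dx Y (w.re, w.im) - dy X (w.re, w.im) = 0)
    (h2 : dx X (w.re, w.im) + dy Y (w.re, w.im) = 0) :
    DifferentiableAt ℂ (cfun X Y) w := by
  have fH := dX.hasFDerivAt.comp w (iota_hasFDerivAt w)
  have fK := dY.hasFDerivAt.comp w (iota_hasFDerivAt w)
  have gH := (Complex.ofRealCLM.hasFDerivAt (x := X (w.re, w.im))).comp w fH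
  have gK := ((Complex.ofRealCLM.hasFDerivAt (x := Y (w.re, w.im))).comp w fK).mul_const
    Complex.I
  have g := gH.sub gK
  have hg : HasFDerivAt (cfun X Y) _ w := g
  rw [differentiableAt_complex_iff_differentiableAt_real]
  refine ⟨hg.differentiableAt, ?_⟩
  rw [hg.fderiv]
  have e1 : fderiv ℝ X (w.re, w.im) ((1 : ℝ), (0 : ℝ)) = dx X (w.re, w.im) := rfl
  have e2 : fderiv ℝ X (w.re, w.im) ((0 : ℝ), (1 : ℝ)) = dy X (w.re, w.im) := rfl
  have e3 : fderiv ℝ Y (w.re, w.im) ((1 : ℝ), (0 : ℝ)) = dx Y (w.re, w.im) := rfl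
  have e4 : fderiv ℝ Y (w.re, w.im) ((0 : ℝ), (1 : ℝ)) = dy Y (w.re, w.im) := rfl
  simp [e1, e2, e3, e4]
  have k1 : dy X (w.re, w.im) = dx Y (w.re, w.im) := by linarith
  have k2 : dy Y (w.re, w.im) = - dx X (w.re, w.im) := by linarith
  rw [k1, k2]
  apply Complex.ext <;> simp

/-- A solenoidal and irrotational field which vanishes on the wall is zero. -/
theorem uc_plane {Ω : Set (ℝ × ℝ)} (hΩ : IsOpen Ω) (hc : IsPreconnected Ω) {q m : ℝ × ℝ} {r κ : ℝ}
    (hcone : Cone Ω q m r κ) {X Y : ℝ × ℝ → ℝ} (dX : DifferentiableOn ℝ X Ω)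
    (dY : DifferentiableOn ℝ Y Ω) (h1 : ∀ z ∈ Ω, dx Y z - dy X z = 0)
    (h2 : ∀ z ∈ Ω, dx X z + dy Y z = 0) (cX : ContinuousOn X (Ω ∪ Wall Ω q r))
    (cY : ContinuousOn Y (Ω ∪ Wall Ω q r)) (zX : ∀ z ∈ Wall Ω q r, X z = 0)
    (zY : ∀ z ∈ Wall Ω q r, Y z = 0) : ∀ z ∈ Ω, X z = 0 ∧ Y z = 0 := by
  obtain ⟨e, he⟩ : ∃ e : ℂ ≃ₜ ℝ × ℝ, e = Complex.equivRealProdCLM.toHomeomorph := ⟨_, rfl⟩
  have he' : ∀ w : ℂ, e w = (w.re, w.im) := fun w => by rw [he]; rfl
  have hr := hcone.radius_pos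
  have hball : ∀ w : ℂ, w ∈ Metric.ball (⟨q.1, q.2⟩ : ℂ) r ↔ dsq (e w) q < r ^ 2 := by
    intro w
    rw [Metric.mem_ball, dist_eq_norm, he', ← sq_lt_sq₀ (norm_nonneg _) hr.le, Complex.sq_norm,
      Complex.normSq_apply]
    simp only [dsq, Complex.sub_re, Complex.sub_im, sq]
  have hfr : ∀ w : ℂ, w ∈ frontier (e ⁻¹' Ω) ↔ e w ∈ frontier Ω := by
    intro w
    rw [← e.preimage_frontier]; rfl
  have hcl : ∀ w : ℂ, w ∈ closure (e ⁻¹' Ω) ↔ e w ∈ closure Ω := by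
    intro w
    rw [← e.preimage_closure]; rfl
  have hwall : ∀ w : ℂ, w ∈ frontier (e ⁻¹' Ω) ∩ Metric.ball (⟨q.1, q.2⟩ : ℂ) r ↔
      e w ∈ Wall Ω q r := by
    intro w
    rw [mem_inter_iff, hfr, hball]; rfl
  have hcont : ∀ {F : ℝ × ℝ → ℝ}, ContinuousOn F (Ω ∪ Wall Ω q r) →
      ContinuousOn (fun w : ℂ => F (w.re, w.im))
        (e ⁻¹' Ω ∪ (frontier (e ⁻¹' Ω) ∩ Metric.ball (⟨q.1, q.2⟩ : ℂ) r)) := by
    intro F hF
    have : ContinuousOn (fun w : ℂ => F (e w))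
        (e ⁻¹' Ω ∪ (frontier (e ⁻¹' Ω) ∩ Metric.ball (⟨q.1, q.2⟩ : ℂ) r)) := by
      refine hF.comp e.continuous.continuousOn ?_
      rintro w (hw | hw)
      · exact Or.inl hw
      · exact Or.inr ((hwall w).1 hw)
    simpa [he'] using this
  have key : ∀ w ∈ e ⁻¹' Ω, cfun X Y w = 0 := by
    refine uc (q := ⟨q.1, q.2⟩) (m := ⟨m.1, m.2⟩) (r := r) (κ := κ) (hΩ.preimage e.continuous)
      (e.isPreconnected_preimage.2 hc) hr ?_ hcone.nonneg hcone.lt_one ?_ ?_ ?_ ?_ ?_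
    · have h : ‖(⟨m.1, m.2⟩ : ℂ)‖ ^ 2 = 1 := by
        rw [Complex.sq_norm, Complex.normSq_apply]
        have := hcone.unit
        simp only [sq] at this ⊢
        exact this
      have h0 : 0 ≤ ‖(⟨m.1, m.2⟩ : ℂ)‖ := norm_nonneg _
      nlinarith [h, h0]
    · rw [hfr, he']; exact hcone.bdry
    · intro w hw hwq hk
      rw [hcl]
      refine hcone.out (e w) ((hball w).1 hw) ?_ ?_
      · intro h
        apply hwq
        rw [he'] at h
        apply Complex.ext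
        · exact congrArg Prod.fst h
        · exact congrArg Prod.snd h
      · rw [he']
        simp only [Complex.mul_re, Complex.mul_im, Complex.sub_re, Complex.sub_im,
          Complex.conj_re, Complex.conj_im] at hk
        have e1 : (w.re - q.1) * -m.2 + (w.im - q.2) * m.1
          = (w.im - q.2) * m.1 - (w.re - q.1) * m.2 := by ring
        have e2 : (w.re - q.1) * m.1 - (w.im - q.2) * -m.2
          = (w.re - q.1) * m.1 + (w.im - q.2) * m.2 := by ring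
        rw [e1, e2] at hk
        exact hk
    · intro w hw
      have hw' : (w.re, w.im) ∈ Ω := by rw [← he' w]; exact hw
      exact (holo (dX.differentiableAt (hΩ.mem_nhds hw')) (dY.differentiableAt (hΩ.mem_nhds hw'))
        (h1 _ hw') (h2 _ hw')).differentiableWithinAt
    · exact (Complex.continuous_ofReal.comp_continuousOn (hcont cX)).sub
        ((Complex.continuous_ofReal.comp_continuousOn (hcont cY)).mul continuousOn_const)
    · intro w hw
      have hw' := (hwall w).1 hw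
      rw [he'] at hw'
      simp [cfun, zX _ hw', zY _ hw']
  intro z hz
  have hz' : (⟨z.1, z.2⟩ : ℂ) ∈ e ⁻¹' Ω := by
    show e (⟨z.1, z.2⟩ : ℂ) ∈ Ω
    rw [he']; exact hz
  have h := key _ hz'
  unfold cfun at h
  have hre := congrArg Complex.re h
  have him := congrArg Complex.im h
  simp at hre him
  exact ⟨hre, him⟩

end Pool.Agent.W5h62.FW
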