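import Pool.Agent.W5h62.FW.Step
import Pool.Agent.W5h62.FW.Plane
import Pool.Agent.W5h62.FW.Gev

/-! Two trajectories which are equal at the time `T` have the same time derivatives at the time `T`;
bounds at the times before `T`. -/

namespace Pool.Agent.W5h62.FW

open Set Filter Topology Pool.Agent.Q176.WL

variable {T T' : ℝ} {Ω : Set (ℝ × ℝ)}

lemma hasDerivAt_time {O : Set E} (hO : IsOpen O) {F : E → ℝ} (h : Sm O F) {t : ℝ} {z : ℝ × ℝ}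
    (hz : (t, z) ∈ O) : HasDerivAt (fun s => F (s, z)) (pd et F (t, z)) t := by
  have h1 : HasDerivAt (fun s : ℝ => ((s, z) : E)) et t :=
    (hasDerivAt_id t).prodMk (hasDerivAt_const t z)
  exact (sm_diff hO h hz).hasFDerivAt.comp_hasDerivAt t h1

lemma dt_eq (hΩ : IsOpen Ω) (n : ℕ) : ∀ {F : E → ℝ}, Sm (Ioo 0 T' ×ˢ Ω) F →
    ∀ t ∈ Ioo 0 T', ∀ z ∈ Ω, dt n F t z = ((pd et)^[n] F) (t, z) := by
  have hO : IsOpen (Ioo 0 T' ×ˢ Ω) := isOpen_Ioo.prod hΩ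
  induction n with
  | zero => intro F _ t _ z _; simp [dt]
  | succ n ih =>
    intro F hF t ht z hz
    rw [Function.iterate_succ_apply, ← ih (sm_pd hO hF et) t ht z hz]
    unfold dt
    rw [iteratedDeriv_succ']
    refine Filter.EventuallyEq.iteratedDeriv_eq n ?_
    filter_upwards [isOpen_Ioo.mem_nhds ht] with s hs
    exact (hasDerivAt_time hO hF (show ((s, z) : E) ∈ _ from ⟨hs, hz⟩)).deriv

lemma dt_wall {Γ : Set (ℝ × ℝ)} (hT : T ∈ Ioo 0 T') {u : E → ℝ} {n : ℕ}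
    (hc : ContinuousOn (fun q : E => dt n u q.1 q.2) (Ioo 0 T' ×ˢ (Ω ∪ Γ)))
    (h0 : ∀ t ∈ Ioo 0 T, ∀ z ∈ Γ, u (t, z) = 0) {z : ℝ × ℝ} (hz : z ∈ Γ) : dt n u T z = 0 := by
  have h1 : Tendsto (fun s : ℝ => dt n u s z) (𝓝[<] T) (𝓝 (dt n u T z)) := by
    have h2 := hc (T, z) ⟨hT, Or.inr hz⟩
    have h3 : Tendsto (fun s : ℝ => ((s, z) : E)) (𝓝[<] T) (𝓝[Ioo 0 T' ×ˢ (Ω ∪ Γ)] (T, z)) := by
      rw [tendsto_nhdsWithin_iff]
      constructor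
      · have : Continuous (fun s : ℝ => ((s, z) : E)) := by fun_prop
        exact (this.tendsto T).mono_left nhdsWithin_le_nhds
      · filter_upwards [Ioo_mem_nhdsLT hT.1] with s hs
        exact ⟨⟨hs.1, hs.2.trans hT.2⟩, Or.inr hz⟩
    exact h2.tendsto.comp h3
  have h2 : Tendsto (fun s : ℝ => dt n u s z) (𝓝[<] T) (𝓝 0) := by
    refine tendsto_const_nhds.congr' ?_
    filter_upwards [Ioo_mem_nhdsLT hT.1] with s hs
    have h4 : (fun r => u (r, z)) =ᶠ[𝓝 s] fun _ => (0 : ℝ) := by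
      filter_upwards [isOpen_Ioo.mem_nhds hs] with r hr
      exact h0 r hr z hz
    unfold dt
    rw [h4.iteratedDeriv_eq n]
    simp
  exact tendsto_nhds_unique h1 h2

lemma slice_dx {T : ℝ} {H : E → ℝ} {z : ℝ × ℝ} (hd : DifferentiableAt ℝ H (T, z)) :
    DifferentiableAt ℝ (fun z => H (T, z)) z ∧ dx (fun z => H (T, z)) z = pd ex H (T, z) ∧
      dy (fun z => H (T, z)) z = pd ey H (T, z) := by
  have h1 : HasFDerivAt (fun z : ℝ × ℝ => ((T, z) : E)) ((0 : ℝ × ℝ →L[ℝ] ℝ).prod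
      (ContinuousLinearMap.id ℝ (ℝ × ℝ))) z := (hasFDerivAt_const T z).prodMk (hasFDerivAt_id z)
  have h2 := hd.hasFDerivAt.comp z h1
  have h3 : HasFDerivAt (fun z => H (T, z)) ((fderiv ℝ H (T, z)).comp
    ((0 : ℝ × ℝ →L[ℝ] ℝ).prod (ContinuousLinearMap.id ℝ (ℝ × ℝ)))) z := h2
  refine ⟨h3.differentiableAt, ?_, ?_⟩
  · unfold dx; rw [h3.fderiv]; simp [pd, ex]
  · unfold dy; rw [h3.fderiv]; simp [pd, ey]

section
variable (hΩ : IsOpen Ω) (hc : IsPreconnected Ω) {q m : ℝ × ℝ} {r κ : ℝ} (hcone : Cone Ω q m r κ)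
  (hT : 0 < T)
include hΩ hc hcone hT

/-- All the time derivatives agree. -/
theorem rigid {u₁ v₁ p₁ u₂ v₂ p₂ : E → ℝ} (h1 : Traj Ω (Wall Ω q r) T u₁ v₁ p₁)
    (h2 : Traj Ω (Wall Ω q r) T u₂ v₂ p₂)
    (hu : ∀ z ∈ Ω, u₁ (T, z) = u₂ (T, z)) (hv : ∀ z ∈ Ω, v₁ (T, z) = v₂ (T, z)) :
    ∃ T' > T, (Sm (Ioo 0 T' ×ˢ Ω) u₁ ∧ Sm (Ioo 0 T' ×ˢ Ω) v₁ ∧ Sm (Ioo 0 T' ×ˢ Ω) u₂ ∧
      Sm (Ioo 0 T' ×ˢ Ω) v₂) ∧ ∀ n, Z T Ω n (fun q => u₁ q - u₂ q) ∧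
        Z T Ω n (fun q => v₁ q - v₂ q) := by
  obtain ⟨T1, hT1, s1, t1, c1⟩ := h1.ext
  obtain ⟨T2, hT2, s2, t2, c2⟩ := h2.ext
  obtain ⟨T', hT'⟩ : ∃ T', T' = min T1 T2 := ⟨_, rfl⟩
  have hl1 : T' ≤ T1 := by rw [hT']; exact min_le_left _ _
  have hl2 : T' ≤ T2 := by rw [hT']; exact min_le_right _ _
  have hTT : T < T' := by rw [hT']; exact lt_min hT1 hT2
  have hTm : T ∈ Ioo 0 T' := ⟨hT, hTT⟩
  have sub1 : ∀ S : Set (ℝ × ℝ), Ioo 0 T' ×ˢ S ⊆ Ioo 0 T1 ×ˢ S := fun S =>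
    prod_mono (Ioo_subset_Ioo_right hl1) subset_rfl
  have sub2 : ∀ S : Set (ℝ × ℝ), Ioo 0 T' ×ˢ S ⊆ Ioo 0 T2 ×ˢ S := fun S =>
    prod_mono (Ioo_subset_Ioo_right hl2) subset_rfl
  have s1' : Sm (Ioo 0 T' ×ˢ Ω) u₁ := s1.mono (sub1 Ω)
  have t1' : Sm (Ioo 0 T' ×ˢ Ω) v₁ := t1.mono (sub1 Ω)
  have s2' : Sm (Ioo 0 T' ×ˢ Ω) u₂ := s2.mono (sub2 Ω)
  have t2' : Sm (Ioo 0 T' ×ˢ Ω) v₂ := t2.mono (sub2 Ω)
  have hO : IsOpen (Ioo 0 T' ×ˢ Ω) := isOpen_Ioo.prod hΩ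
  refine ⟨T', hTT, ⟨s1', t1', s2', t2'⟩, ?_⟩
  intro n
  induction n with
  | zero =>
    constructor
    · intro j hj z hz
      obtain rfl : j = 0 := by omega
      show u₁ (T, z) - u₂ (T, z) = 0
      rw [hu z hz, sub_self]
    · intro j hj z hz
      obtain rfl : j = 0 := by omega
      show v₁ (T, z) - v₂ (T, z) = 0
      rw [hv z hz, sub_self]
  | succ n ih =>
    obtain ⟨ha, hb⟩ := ih
    have sa : Sm (Ioo 0 T' ×ˢ Ω) (fun q => u₁ q - u₂ q) := s1'.sub s2'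
    have sb : Sm (Ioo 0 T' ×ˢ Ω) (fun q => v₁ q - v₂ q) := t1'.sub t2'
    obtain ⟨H, hH⟩ : ∃ H : E → ℝ, H = (pd et)^[n + 1] (fun q => u₁ q - u₂ q) := ⟨_, rfl⟩
    obtain ⟨K, hK⟩ : ∃ K : E → ℝ, K = (pd et)^[n + 1] (fun q => v₁ q - v₂ q) := ⟨_, rfl⟩
    have sH : Sm (Ioo 0 T' ×ˢ Ω) H := by rw [hH]; exact sm_iter hO et _ sa
    have sK : Sm (Ioo 0 T' ×ˢ Ω) K := by rw [hK]; exact sm_iter hO et _ sb
    obtain ⟨X, hX⟩ : ∃ X : ℝ × ℝ → ℝ, X = fun z => dt (n + 1) u₁ T z - dt (n + 1) u₂ T z :=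
      ⟨_, rfl⟩
    obtain ⟨Y, hY⟩ : ∃ Y : ℝ × ℝ → ℝ, Y = fun z => dt (n + 1) v₁ T z - dt (n + 1) v₂ T z :=
      ⟨_, rfl⟩
    have eX : ∀ z ∈ Ω, X z = H (T, z) := by
      intro z hz
      rw [hX, hH, iter_sub hO et (n + 1) s1' s2' _ (show ((T, z) : E) ∈ _ from ⟨hTm, hz⟩),
        ← dt_eq hΩ (n + 1) s1' T hTm z hz, ← dt_eq hΩ (n + 1) s2' T hTm z hz]
    have eY : ∀ z ∈ Ω, Y z = K (T, z) := by
      intro z hz
      rw [hY, hK, iter_sub hO et (n + 1) t1' t2' _ (show ((T, z) : E) ∈ _ from ⟨hTm, hz⟩),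
        ← dt_eq hΩ (n + 1) t1' T hTm z hz, ← dt_eq hΩ (n + 1) t2' T hTm z hz]
    have gX : ∀ z ∈ Ω, X =ᶠ[𝓝 z] fun z => H (T, z) := fun z hz => by
      filter_upwards [hΩ.mem_nhds hz] with y hy using eX y hy
    have gY : ∀ z ∈ Ω, Y =ᶠ[𝓝 z] fun z => K (T, z) := fun z hz => by
      filter_upwards [hΩ.mem_nhds hz] with y hy using eY y hy
    have fH : ∀ z ∈ Ω, DifferentiableAt ℝ H (T, z) := fun z hz => sm_diff hO sH ⟨hTm, hz⟩
    have fK : ∀ z ∈ Ω, DifferentiableAt ℝ K (T, z) := fun z hz => sm_diff hO sK ⟨hTm, hz⟩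
    have dxX : ∀ z ∈ Ω, dx X z = pd ex H (T, z) ∧ dy X z = pd ey H (T, z) := fun z hz => by
      obtain ⟨_, k1, k2⟩ := slice_dx (fH z hz)
      constructor
      · rw [← k1]; unfold dx; rw [(gX z hz).fderiv_eq]
      · rw [← k2]; unfold dy; rw [(gX z hz).fderiv_eq]
    have dxY : ∀ z ∈ Ω, dx Y z = pd ex K (T, z) ∧ dy Y z = pd ey K (T, z) := fun z hz => by
      obtain ⟨_, k1, k2⟩ := slice_dx (fK z hz)
      constructor
      · rw [← k1]; unfold dx; rw [(gY z hz).fderiv_eq]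
      · rw [← k2]; unfold dy; rw [(gY z hz).fderiv_eq]
    have hcont : ∀ {F : E → ℝ}, ContinuousOn (fun q : E => dt (n + 1) F q.1 q.2)
        (Ioo 0 T' ×ˢ (Ω ∪ Wall Ω q r)) →
        ContinuousOn (fun z => dt (n + 1) F T z) (Ω ∪ Wall Ω q r) := by
      intro F hF
      have : ContinuousOn (fun z : ℝ × ℝ => ((T, z) : E)) (Ω ∪ Wall Ω q r) :=
        (by fun_prop : Continuous (fun z : ℝ × ℝ => ((T, z) : E))).continuousOn
      have hm : MapsTo (fun z : ℝ × ℝ => ((T, z) : E)) (Ω ∪ Wall Ω q r)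
          (Ioo 0 T' ×ˢ (Ω ∪ Wall Ω q r)) := fun z hz => ⟨hTm, hz⟩
      have hcomp := ContinuousOn.comp hF this hm
      exact hcomp.congr fun z _ => rfl
    have key := uc_plane hΩ hc hcone (X := X) (Y := Y)
      (fun z hz => (((gX z hz).differentiableAt_iff).2 (slice_dx (fH z hz)).1).differentiableWithinAt)
      (fun z hz => (((gY z hz).differentiableAt_iff).2 (slice_dx (fK z hz)).1).differentiableWithinAt)
      (fun z hz => by
        rw [(dxY z hz).1, (dxX z hz).2, hH, hK]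
        exact (curl_div hΩ hTm h1.ns h2.ns s1' t1' s2' t2' ha hb hz).1)
      (fun z hz => by
        rw [(dxX z hz).1, (dxY z hz).2, hH, hK]
        exact (curl_div hΩ hTm h1.ns h2.ns s1' t1' s2' t2' ha hb hz).2)
      (by
        rw [hX]
        exact (hcont ((c1 (n + 1)).1.mono (sub1 _))).sub (hcont ((c2 (n + 1)).1.mono (sub2 _))))
      (by
        rw [hY]
        exact (hcont ((c1 (n + 1)).2.mono (sub1 _))).sub (hcont ((c2 (n + 1)).2.mono (sub2 _))))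
      (fun z hz => by
        rw [hX]
        show dt (n + 1) u₁ T z - dt (n + 1) u₂ T z = 0
        rw [dt_wall hTm ((c1 (n + 1)).1.mono (sub1 _)) h1.wall_u hz,
          dt_wall hTm ((c2 (n + 1)).1.mono (sub2 _)) h2.wall_u hz, sub_self])
      (fun z hz => by
        rw [hY]
        show dt (n + 1) v₁ T z - dt (n + 1) v₂ T z = 0
        rw [dt_wall hTm ((c1 (n + 1)).2.mono (sub1 _)) h1.wall_v hz,
          dt_wall hTm ((c2 (n + 1)).2.mono (sub2 _)) h2.wall_v hz, sub_self])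
    constructor
    · intro j hj z hz
      rcases Nat.lt_or_ge n j with hj' | hj'
      · obtain rfl : j = n + 1 := by omega
        rw [← hH, ← eX z hz]; exact (key z hz).1
      · exact ha j hj' z hz
    · intro j hj z hz
      rcases Nat.lt_or_ge n j with hj' | hj'
      · obtain rfl : j = n + 1 := by omega
        rw [← hK, ← eY z hz]; exact (key z hz).2
      · exact hb j hj' z hz

end

/-- The sequence of the derivatives of the difference, in the time backwards from `T`. -/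
noncomputable def rev (T : ℝ) (F : E → ℝ) (z : ℝ × ℝ) (k : ℕ) (τ : ℝ) : ℝ :=
  (-1) ^ k * ((pd et)^[k] F) (T - τ, z)

lemma rev_deriv (hΩ : IsOpen Ω) {F : E → ℝ} (hF : Sm (Ioo 0 T' ×ˢ Ω) F) {z : ℝ × ℝ} (hz : z ∈ Ω)
    (k : ℕ) {τ : ℝ} (hτ : T - τ ∈ Ioo 0 T') :
    HasDerivAt (rev T F z k) (rev T F z (k + 1) τ) τ := by
  have hO : IsOpen (Ioo 0 T' ×ˢ Ω) := isOpen_Ioo.prod hΩ
  have h1 := hasDerivAt_time hO (sm_iter hO et k hF) (show ((T - τ, z) : E) ∈ _ from ⟨hτ, hz⟩)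
  have h2 : HasDerivAt (fun τ : ℝ => T - τ) (-1) τ := by
    simpa using (hasDerivAt_id τ).const_sub T
  have h3 := (h1.comp τ h2).const_mul ((-1 : ℝ) ^ k)
  have e : rev T F z (k + 1) τ = (-1 : ℝ) ^ k * (pd et ((pd et)^[k] F) (T - τ, z) * -1) := by
    unfold rev
    rw [Function.iterate_succ_apply', pow_succ]; ring
  rw [e]
  exact h3

end Pool.Agent.W5h62.FW
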