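import Pool.Agent.W5h62.FW.Jet

/-! The vorticity of the difference of two trajectories which agree to the order `n` at the time
`T` vanishes there to the order `n + 1`. -/

namespace Pool.Agent.W5h62.FW

open Set Filter Topology Pool.Agent.Q176.WL

variable {T T' : ℝ} {Ω : Set (ℝ × ℝ)}

section
variable (hΩ : IsOpen Ω) (hT : T ∈ Ioo 0 T')
include hΩ hT

theorem step {u₁ v₁ p₁ u₂ v₂ p₂ : E → ℝ} (n1 : IsNS (Ioo 0 T ×ˢ Ω) u₁ v₁ p₁)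
    (n2 : IsNS (Ioo 0 T ×ˢ Ω) u₂ v₂ p₂)
    (s1 : Sm (Ioo 0 T' ×ˢ Ω) u₁) (t1 : Sm (Ioo 0 T' ×ˢ Ω) v₁)
    (s2 : Sm (Ioo 0 T' ×ˢ Ω) u₂) (t2 : Sm (Ioo 0 T' ×ˢ Ω) v₂) {n : ℕ}
    (ha : Z T Ω n (fun q => u₁ q - u₂ q)) (hb : Z T Ω n (fun q => v₁ q - v₂ q)) :
    Z T Ω (n + 1) (fun q => pd ex (fun q => v₁ q - v₂ q) q - pd ey (fun q => u₁ q - u₂ q) q) := by
  have hO := hOpen hΩ hT
  have hO2 : IsOpen (Ioo 0 T ×ˢ Ω) := isOpen_Ioo.prod hΩ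
  have hsub : (Ioo 0 T ×ˢ Ω) ⊆ (Ioo 0 T' ×ˢ Ω) := by
    rintro ⟨t, z⟩ ⟨h1, h2⟩
    exact ⟨⟨h1.1, h1.2.trans hT.2⟩, h2⟩
  obtain ⟨w1, hw1⟩ : ∃ w1 : E → ℝ, w1 = fun q => pd ex v₁ q - pd ey u₁ q := ⟨_, rfl⟩
  obtain ⟨w2, hw2⟩ : ∃ w2 : E → ℝ, w2 = fun q => pd ex v₂ q - pd ey u₂ q := ⟨_, rfl⟩
  obtain ⟨a, hadef⟩ : ∃ a : E → ℝ, a = fun q => u₁ q - u₂ q := ⟨_, rfl⟩
  obtain ⟨b, hbdef⟩ : ∃ b : E → ℝ, b = fun q => v₁ q - v₂ q := ⟨_, rfl⟩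
  rw [← hadef] at ha ⊢
  rw [← hbdef] at hb ⊢
  obtain ⟨W, hW⟩ : ∃ W : E → ℝ, W = fun q => pd ex b q - pd ey a q := ⟨_, rfl⟩
  rw [← hW]
  have sa : Sm (Ioo 0 T' ×ˢ Ω) a := by rw [hadef]; exact s1.sub s2
  have sb : Sm (Ioo 0 T' ×ˢ Ω) b := by rw [hbdef]; exact t1.sub t2
  have sw1 : Sm (Ioo 0 T' ×ˢ Ω) w1 := by
    rw [hw1]; exact (sm_pd hO t1 ex).sub (sm_pd hO s1 ey)
  have sw2 : Sm (Ioo 0 T' ×ˢ Ω) w2 := by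
    rw [hw2]; exact (sm_pd hO t2 ex).sub (sm_pd hO s2 ey)
  have sW : Sm (Ioo 0 T' ×ˢ Ω) W := by
    rw [hW]; exact (sm_pd hO sb ex).sub (sm_pd hO sa ey)
  have hWe : ∀ q ∈ Ioo 0 T' ×ˢ Ω, W q = w1 q - w2 q := by
    intro q hq
    rw [hW, hw1, hw2, hadef, hbdef]
    show pd ex (fun q => v₁ q - v₂ q) q - pd ey (fun q => u₁ q - u₂ q) q = _
    rw [pd_sub' ex (sm_diff hO t1 hq) (sm_diff hO t2 hq), pd_sub' ey (sm_diff hO s1 hq)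
      (sm_diff hO s2 hq)]
    ring
  have zW : Z T Ω n W := by
    rw [hW]
    exact Z_sub hΩ hT (sm_pd hO sb ex) (sm_pd hO sa ey) (Z_pd hΩ hT n (1, 0) sb hb)
      (Z_pd hΩ hT n (0, 1) sa ha)
  -- derivatives of W
  have d1 : ∀ e, ∀ q ∈ Ioo 0 T' ×ˢ Ω, pd e W q = pd e w1 q - pd e w2 q := by
    intro e q hq
    rw [pd_congr hO hWe hq e, pd_sub' e (sm_diff hO sw1 hq) (sm_diff hO sw2 hq)]
  have d2 : ∀ e, ∀ q ∈ Ioo 0 T' ×ˢ Ω, pd e (pd e W) q = pd e (pd e w1) q - pd e (pd e w2) q := by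
    intro e q hq
    rw [pd_congr hO (d1 e) hq e, pd_sub' e (sm_diff hO (sm_pd hO sw1 e) hq)
      (sm_diff hO (sm_pd hO sw2 e) hq)]
  obtain ⟨R, hR⟩ : ∃ R : E → ℝ, R = fun q => (pd ex (pd ex W) q + pd ey (pd ey W) q)
      - ((a q * pd ex w1 q + pd ex W q * u₂ q) + (b q * pd ey w1 q + pd ey W q * v₂ q)) := ⟨_, rfl⟩
  have sWx := sm_pd hO sW ex
  have sWy := sm_pd hO sW ey
  have sWt := sm_pd hO sW et
  have sL := (sm_pd hO sWx ex).add (sm_pd hO sWy ey)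
  have sN1 := (sa.mul (sm_pd hO sw1 ex)).add (sWx.mul s2)
  have sN2 := (sb.mul (sm_pd hO sw1 ey)).add (sWy.mul t2)
  have sR : Sm (Ioo 0 T' ×ˢ Ω) R := by
    rw [hR]; exact sL.sub (sN1.add sN2)
  have zWx : Z T Ω n (pd ex W) := Z_pd hΩ hT n (1, 0) sW zW
  have zWy : Z T Ω n (pd ey W) := Z_pd hΩ hT n (0, 1) sW zW
  have zR : Z T Ω n R := by
    rw [hR]
    refine Z_sub hΩ hT sL (sN1.add sN2) (Z_add hΩ hT (sm_pd hO sWx ex) (sm_pd hO sWy ey)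
      (Z_pd hΩ hT n (1, 0) sWx zWx) (Z_pd hΩ hT n (0, 1) sWy zWy)) ?_
    refine Z_add hΩ hT sN1 sN2 ?_ ?_
    · exact Z_add hΩ hT (sa.mul (sm_pd hO sw1 ex)) (sWx.mul s2)
        (Z_mul hΩ hT n sa (sm_pd hO sw1 ex) ha) (Z_mul hΩ hT n sWx s2 zWx)
    · exact Z_add hΩ hT (sb.mul (sm_pd hO sw1 ey)) (sWy.mul t2)
        (Z_mul hΩ hT n sb (sm_pd hO sw1 ey) hb) (Z_mul hΩ hT n sWy t2 zWy)
  obtain ⟨S, hS⟩ : ∃ S : E → ℝ, S = fun q => pd et W q - R q := ⟨_, rfl⟩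
  have sS : Sm (Ioo 0 T' ×ˢ Ω) S := by rw [hS]; exact sWt.sub sR
  have pS : ∀ q ∈ Ioo 0 T ×ˢ Ω, S q = 0 := by
    intro q hq
    have hq' := hsub hq
    have e1 := (vorticity_eq hO2 n1 (w := w1) (fun z _ => by rw [hw1])).2 q hq
    have e2 := (vorticity_eq hO2 n2 (w := w2) (fun z _ => by rw [hw2])).2 q hq
    rw [hS]
    show pd et W q - R q = 0
    rw [hR]
    show pd et W q - ((pd ex (pd ex W) q + pd ey (pd ey W) q)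
      - ((a q * pd ex w1 q + pd ex W q * u₂ q) + (b q * pd ey w1 q + pd ey W q * v₂ q))) = 0
    rw [d2 ex q hq', d2 ey q hq', d1 et q hq', d1 ex q hq', d1 ey q hq', hadef, hbdef]
    linear_combination e1 - e2
  have zS : Z T Ω n S := Z_past hΩ hT n sS pS
  have zWt : Z T Ω n (pd et W) := by
    refine Z_congr hΩ hT (fun q hq => ?_) (Z_add hΩ hT sS sR zS zR)
    rw [hS]; ring
  exact Z_succ.2 ⟨Z_mono (Nat.zero_le n) zW, zWt⟩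

/-- The derivatives of order `n + 1` at the time `T` form a solenoidal and irrotational field. -/
theorem curl_div {u₁ v₁ p₁ u₂ v₂ p₂ : E → ℝ} (n1 : IsNS (Ioo 0 T ×ˢ Ω) u₁ v₁ p₁)
    (n2 : IsNS (Ioo 0 T ×ˢ Ω) u₂ v₂ p₂)
    (s1 : Sm (Ioo 0 T' ×ˢ Ω) u₁) (t1 : Sm (Ioo 0 T' ×ˢ Ω) v₁)
    (s2 : Sm (Ioo 0 T' ×ˢ Ω) u₂) (t2 : Sm (Ioo 0 T' ×ˢ Ω) v₂) {n : ℕ}
    (ha : Z T Ω n (fun q => u₁ q - u₂ q)) (hb : Z T Ω n (fun q => v₁ q - v₂ q))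
    {z : ℝ × ℝ} (hz : z ∈ Ω) :
    pd ex ((pd et)^[n + 1] (fun q => v₁ q - v₂ q)) (T, z)
      - pd ey ((pd et)^[n + 1] (fun q => u₁ q - u₂ q)) (T, z) = 0 ∧
    pd ex ((pd et)^[n + 1] (fun q => u₁ q - u₂ q)) (T, z)
      + pd ey ((pd et)^[n + 1] (fun q => v₁ q - v₂ q)) (T, z) = 0 := by
  have hO := hOpen hΩ hT
  have hO2 : IsOpen (Ioo 0 T ×ˢ Ω) := isOpen_Ioo.prod hΩ
  have hsub : (Ioo 0 T ×ˢ Ω) ⊆ (Ioo 0 T' ×ˢ Ω) := by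
    rintro ⟨t, z⟩ ⟨h1, h2⟩
    exact ⟨⟨h1.1, h1.2.trans hT.2⟩, h2⟩
  have sa : Sm (Ioo 0 T' ×ˢ Ω) (fun q => u₁ q - u₂ q) := s1.sub s2
  have sb : Sm (Ioo 0 T' ×ˢ Ω) (fun q => v₁ q - v₂ q) := t1.sub t2
  have hq : (T, z) ∈ Ioo 0 T' ×ˢ Ω := ⟨hT, hz⟩
  constructor
  · have h := step hΩ hT n1 n2 s1 t1 s2 t2 ha hb (n + 1) le_rfl z hz
    rwa [iter_sub hO et (n + 1) (sm_pd hO sb ex) (sm_pd hO sa ey) _ hq,
      iter_comm hO et ex (n + 1) sb _ hq, iter_comm hO et ey (n + 1) sa _ hq] at h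
  · have hD : Z T Ω (n + 1) (fun q => pd ex (fun q => u₁ q - u₂ q) q
        + pd ey (fun q => v₁ q - v₂ q) q) := by
      refine Z_past hΩ hT (n + 1) ((sm_pd hO sa ex).add (sm_pd hO sb ey)) fun q hq => ?_
      have hq' := hsub hq
      rw [pd_sub' ex (sm_diff hO s1 hq') (sm_diff hO s2 hq'), pd_sub' ey (sm_diff hO t1 hq')
        (sm_diff hO t2 hq')]
      linear_combination n1.div q hq - n2.div q hq
    have h := hD (n + 1) le_rfl z hz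
    rwa [iter_add hO et (n + 1) (sm_pd hO sa ex) (sm_pd hO sb ey) _ hq,
      iter_comm hO et ex (n + 1) sa _ hq, iter_comm hO et ey (n + 1) sb _ hq] at h

end

end Pool.Agent.W5h62.FW
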