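import Pool.Agent.W5h62.FW.DefsT

/-! The derivatives of order `n + 1` of the difference of two trajectories which agree to the order
`n` at the time `T` form a solenoidal gradient field. -/

namespace Pool.Agent.W5h62.FN

open Set Filter Topology

variable {d : ℕ} {T T' : ℝ} {Ω : Set (Fin d → ℝ)}

section
variable (hΩ : IsOpen Ω) (hT : T ∈ Ioo 0 T')
include hΩ hT

theorem stepN {u1 u2 : Fin d → ℝ × (Fin d → ℝ) → ℝ} {p1 p2 : ℝ × (Fin d → ℝ) → ℝ}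
    (n1 : IsNS (Ioo 0 T ×ˢ Ω) u1 p1) (n2 : IsNS (Ioo 0 T ×ˢ Ω) u2 p2)
    (s1 : ∀ i, Sm (Ioo 0 T' ×ˢ Ω) (u1 i)) (s2 : ∀ i, Sm (Ioo 0 T' ×ˢ Ω) (u2 i))
    (q1 : Sm (Ioo 0 T' ×ˢ Ω) p1) (q2 : Sm (Ioo 0 T' ×ˢ Ω) p2) {n : ℕ}
    (ha : ∀ i, Z T Ω n (fun q => u1 i q - u2 i q)) (i : Fin d) {z : Fin d → ℝ} (hz : z ∈ Ω) :
    ((pd et)^[n + 1] (fun q => u1 i q - u2 i q)) (T, z)
      = - pd (es i) ((pd et)^[n] (fun q => p1 q - p2 q)) (T, z) := by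
  have hO := hOpen (T' := T') hΩ
  have hO2 : IsOpen (Ioo 0 T ×ˢ Ω) := isOpen_Ioo.prod hΩ
  have hsub : (Ioo 0 T ×ˢ Ω) ⊆ (Ioo 0 T' ×ˢ Ω) := by
    rintro ⟨t, z⟩ ⟨h1, h2⟩
    exact ⟨⟨h1.1, h1.2.trans hT.2⟩, h2⟩
  obtain ⟨a, hadef⟩ : ∃ a : Fin d → ℝ × (Fin d → ℝ) → ℝ, a = fun i q => u1 i q - u2 i q := ⟨_, rfl⟩
  obtain ⟨π, hπ⟩ : ∃ π : ℝ × (Fin d → ℝ) → ℝ, π = fun q => p1 q - p2 q := ⟨_, rfl⟩
  have e0 : (fun q => u1 i q - u2 i q) = a i := by rw [hadef]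
  rw [e0, ← hπ]
  have sa : ∀ i, Sm (Ioo 0 T' ×ˢ Ω) (a i) := by intro i; rw [hadef]; exact (s1 i).sub (s2 i)
  have sπ : Sm (Ioo 0 T' ×ˢ Ω) π := by rw [hπ]; exact q1.sub q2
  have za : ∀ i, Z T Ω n (a i) := by intro i; rw [hadef]; exact ha i
  have d1 : ∀ e, ∀ j, ∀ q ∈ Ioo 0 T' ×ˢ Ω, pd e (a j) q = pd e (u1 j) q - pd e (u2 j) q := by
    intro e j q hq
    rw [hadef]
    exact pd_sub' e (sm_diff hO (s1 j) hq) (sm_diff hO (s2 j) hq)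
  have d2 : ∀ e, ∀ j, ∀ q ∈ Ioo 0 T' ×ˢ Ω, pd e (pd e (a j)) q
      = pd e (pd e (u1 j)) q - pd e (pd e (u2 j)) q := by
    intro e j q hq
    rw [pd_congr hO (d1 e j) hq e, pd_sub' e (sm_diff hO (sm_pd hO (s1 j) e) hq)
      (sm_diff hO (sm_pd hO (s2 j) e) hq)]
  have dπ : ∀ e, ∀ q ∈ Ioo 0 T' ×ˢ Ω, pd e π q = pd e p1 q - pd e p2 q := by
    intro e q hq
    rw [hπ]
    exact pd_sub' e (sm_diff hO q1 hq) (sm_diff hO q2 hq)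
  obtain ⟨R, hR⟩ : ∃ R : ℝ × (Fin d → ℝ) → ℝ, R = fun q => ∑ j, pd (es j) (pd (es j) (a i)) q
      - (∑ j, a j q * pd (es j) (u1 i) q + ∑ j, pd (es j) (a i) q * u2 j q) := ⟨_, rfl⟩
  have sL : Sm (Ioo 0 T' ×ˢ Ω) (fun q => ∑ j, pd (es j) (pd (es j) (a i)) q) :=
    sm_sum _ fun j => sm_pd hO (sm_pd hO (sa i) _) _
  have sN1 : Sm (Ioo 0 T' ×ˢ Ω) (fun q => ∑ j, a j q * pd (es j) (u1 i) q) :=
    sm_sum _ fun j => (sa j).mul (sm_pd hO (s1 i) _)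
  have sN2 : Sm (Ioo 0 T' ×ˢ Ω) (fun q => ∑ j, pd (es j) (a i) q * u2 j q) :=
    sm_sum _ fun j => (sm_pd hO (sa i) _).mul (s2 j)
  have sR : Sm (Ioo 0 T' ×ˢ Ω) R := by rw [hR]; exact sL.sub (sN1.add sN2)
  have zx : ∀ j, Z T Ω n (pd (es j) (a i)) := fun j => Z_pd hΩ hT n (bv j) (sa i) (za i)
  have zR : Z T Ω n R := by
    rw [hR]
    refine Z_sub hΩ hT sL (sN1.add sN2) (Z_sum hΩ hT _ (fun j => sm_pd hO (sm_pd hO (sa i) _) _)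
      fun j => Z_pd hΩ hT n (bv j) (sm_pd hO (sa i) _) (zx j)) (Z_add hΩ hT sN1 sN2 ?_ ?_)
    · exact Z_sum hΩ hT _ (fun j => (sa j).mul (sm_pd hO (s1 i) _)) fun j =>
        Z_mul hΩ hT n (sa j) (sm_pd hO (s1 i) _) (za j)
    · exact Z_sum hΩ hT _ (fun j => (sm_pd hO (sa i) _).mul (s2 j)) fun j =>
        Z_mul hΩ hT n (sm_pd hO (sa i) _) (s2 j) (zx j)
  have sat := sm_pd hO (sa i) et
  have sπi := sm_pd hO sπ (es i)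
  obtain ⟨S, hS⟩ : ∃ S : ℝ × (Fin d → ℝ) → ℝ, S = fun q => (pd et (a i) q + pd (es i) π q) - R q :=
    ⟨_, rfl⟩
  have sS : Sm (Ioo 0 T' ×ˢ Ω) S := by rw [hS]; exact (sat.add sπi).sub sR
  have pS : ∀ q ∈ Ioo 0 T ×ˢ Ω, S q = 0 := by
    intro q hq
    have hq' := hsub hq
    have e1 := n1.eq i q hq
    have e2 := n2.eq i q hq
    rw [hS, hR]
    show (pd et (a i) q + pd (es i) π q) - (∑ j, pd (es j) (pd (es j) (a i)) q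
      - (∑ j, a j q * pd (es j) (u1 i) q + ∑ j, pd (es j) (a i) q * u2 j q)) = 0
    have k1 : ∑ j, pd (es j) (pd (es j) (a i)) q = ∑ j, pd (es j) (pd (es j) (u1 i)) q
        - ∑ j, pd (es j) (pd (es j) (u2 i)) q := by
      rw [← Finset.sum_sub_distrib]
      exact Finset.sum_congr rfl fun j _ => d2 (es j) i q hq'
    have k2 : ∑ j, a j q * pd (es j) (u1 i) q + ∑ j, pd (es j) (a i) q * u2 j q
        = ∑ j, u1 j q * pd (es j) (u1 i) q - ∑ j, u2 j q * pd (es j) (u2 i) q := by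
      rw [← Finset.sum_add_distrib, ← Finset.sum_sub_distrib]
      refine Finset.sum_congr rfl fun j _ => ?_
      rw [d1 (es j) i q hq', hadef]
      ring
    rw [k1, k2, d1 et i q hq', dπ (es i) q hq']
    linear_combination e1 - e2
  have zS : Z T Ω n S := Z_past hΩ hT n sS pS
  have zQ : Z T Ω n (fun q => pd et (a i) q + pd (es i) π q) := by
    refine Z_congr hΩ hT (fun q hq => ?_) (Z_add hΩ hT sS sR zS zR)
    rw [hS]; ring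
  have h := zQ n le_rfl z hz
  have hq : ((T, z) : ℝ × (Fin d → ℝ)) ∈ Ioo 0 T' ×ˢ Ω := ⟨hT, hz⟩
  rw [iter_add hO et n sat sπi _ hq, iter_comm hO et (es i) n sπ _ hq] at h
  rw [Function.iterate_succ_apply]
  linarith

theorem divN {u1 u2 : Fin d → ℝ × (Fin d → ℝ) → ℝ} {p1 p2 : ℝ × (Fin d → ℝ) → ℝ}
    (n1 : IsNS (Ioo 0 T ×ˢ Ω) u1 p1) (n2 : IsNS (Ioo 0 T ×ˢ Ω) u2 p2)
    (s1 : ∀ i, Sm (Ioo 0 T' ×ˢ Ω) (u1 i)) (s2 : ∀ i, Sm (Ioo 0 T' ×ˢ Ω) (u2 i)) (n : ℕ)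
    {z : Fin d → ℝ} (hz : z ∈ Ω) :
    ∑ i, pd (es i) ((pd et)^[n] (fun q => u1 i q - u2 i q)) (T, z) = 0 := by
  have hO := hOpen (T' := T') hΩ
  have hsub : (Ioo 0 T ×ˢ Ω) ⊆ (Ioo 0 T' ×ˢ Ω) := by
    rintro ⟨t, z⟩ ⟨h1, h2⟩
    exact ⟨⟨h1.1, h1.2.trans hT.2⟩, h2⟩
  have sa : ∀ i, Sm (Ioo 0 T' ×ˢ Ω) (fun q => u1 i q - u2 i q) := fun i => (s1 i).sub (s2 i)
  have hD : Z T Ω n (fun q => ∑ i, pd (es i) (fun q => u1 i q - u2 i q) q) := by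
    refine Z_past hΩ hT n (sm_sum _ fun i => sm_pd hO (sa i) _) fun q hq => ?_
    have hq' := hsub hq
    have k : ∑ i, pd (es i) (fun q => u1 i q - u2 i q) q = ∑ i, pd (es i) (u1 i) q
        - ∑ i, pd (es i) (u2 i) q := by
      rw [← Finset.sum_sub_distrib]
      exact Finset.sum_congr rfl fun j _ => pd_sub' _ (sm_diff hO (s1 j) hq') (sm_diff hO (s2 j) hq')
    rw [k, n1.div q hq, n2.div q hq, sub_zero]
  have h := hD n le_rfl z hz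
  have hq : ((T, z) : ℝ × (Fin d → ℝ)) ∈ Ioo 0 T' ×ˢ Ω := ⟨hT, hz⟩
  rw [iter_sum hO et _ n (fun i => sm_pd hO (sa i) _) _ hq] at h
  rw [← h]
  exact Finset.sum_congr rfl fun i _ => (iter_comm hO et (es i) n (sa i) _ hq).symm

end

end Pool.Agent.W5h62.FN
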